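import Pool.Agent.N321.NB.Par

set_option autoImplicit false
set_option linter.unusedSectionVars false

/-!
# Semicontinuity under local convergence to unbounded sets
-/

namespace Pool.Agent.N321.NB

open scoped InnerProductSpace Topology
open Metric Module Filter Set
open Pool.Agent.R753.SJ (Sepd sepd_of_cover)
open Pool.Agent.H985.Sep (polar)

variable {E : Type} [NormedAddCommGroup E] [InnerProductSpace ℝ E] [FiniteDimensional ℝ E]

/-- local convergence -/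
structure Lo (C : Set E) (K : ℕ → Set E) : Prop where
  cvx : ∀ k, Convex ℝ (K k)
  inn : ∀ z ∈ interior C, ∀ᶠ k in atTop, z ∈ K k
  out : ∀ (φ : ℕ → ℕ) (x : ℕ → E) (a : E), StrictMono φ → (∀ k, x k ∈ K (φ k)) →
    Tendsto x atTop (𝓝 a) → a ∈ C

lemma Lo.sub {C : Set E} {K : ℕ → Set E} (h : Lo C K) {φ : ℕ → ℕ} (hφ : StrictMono φ) :
    Lo C fun k => K (φ k) :=
  ⟨fun k => h.cvx _, fun z hz => hφ.tendsto_atTop.eventually (h.inn z hz),
    fun ψ x a hψ hx hxa => h.out (φ ∘ ψ) x a (hφ.comp hψ) hx hxa⟩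

/-- recession directions -/
lemma Lo.recession {C : Set E} {K : ℕ → Set E} (h : Lo C K) {x : ℕ → E} (hx : ∀ k, x k ∈ K k)
    (h0 : ∀ k, 0 ∈ K k) (hinf : Tendsto (fun k => ‖x k‖) atTop atTop) :
    ∃ (θ : ℕ → ℕ) (d : E), StrictMono θ ∧ ‖d‖ = 1 ∧
      Tendsto (fun k => ‖x (θ k)‖⁻¹ • x (θ k)) atTop (𝓝 d) ∧ ∀ s : ℝ, 0 ≤ s → s • d ∈ C := by
  set d : ℕ → E := fun k => ‖x k‖⁻¹ • x k with hd
  have hd1 : ∀ k, ‖d k‖ ≤ 1 := by
    intro k
    rw [hd]
    simp only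
    rw [norm_smul, norm_inv, norm_norm]
    rcases eq_or_ne ‖x k‖ 0 with h3 | h3
    · rw [h3]; simp
    · rw [inv_mul_cancel₀ h3]
  obtain ⟨di, -, θ, hθ, hld⟩ := (isCompact_closedBall (0 : E) 1).tendsto_subseq
    (x := d) (fun k => by simpa using hd1 k)
  have hinfθ : Tendsto (fun k => ‖x (θ k)‖) atTop atTop := hinf.comp hθ.tendsto_atTop
  have hdn : ‖di‖ = 1 := by
    have h3 : Tendsto (fun k => ‖d (θ k)‖) atTop (𝓝 ‖di‖) := hld.norm
    refine tendsto_nhds_unique h3 (tendsto_const_nhds.congr' ?_)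
    filter_upwards [hinfθ.eventually_gt_atTop 0] with k hk
    rw [hd]
    simp only
    rw [norm_smul, norm_inv, norm_norm, inv_mul_cancel₀ hk.ne']
  refine ⟨θ, di, hθ, hdn, hld, fun s hs => ?_⟩
  obtain ⟨k₀, hk₀⟩ := eventually_atTop.1 (hinfθ.eventually_ge_atTop (s + 1))
  have hmono : StrictMono (fun k => θ (k + k₀)) := hθ.comp fun a b hab => by simpa using hab
  refine h.out (fun k => θ (k + k₀)) (fun k => s • d (θ (k + k₀))) _ hmono
    (fun k => ?_) ((hld.comp (tendsto_add_atTop_nat k₀)).const_smul s)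
  have h3 := hk₀ (k + k₀) (by omega)
  have hpos : 0 < ‖x (θ (k + k₀))‖ := by linarith
  have h4 := (h.cvx _) (h0 (θ (k + k₀))) (hx (θ (k + k₀)))
    (a := 1 - s * ‖x (θ (k + k₀))‖⁻¹) (b := s * ‖x (θ (k + k₀))‖⁻¹) (by
      rw [sub_nonneg, ← div_eq_mul_inv, div_le_one hpos]
      linarith) (by positivity) (by ring)
  rw [smul_zero, zero_add, ← smul_smul] at h4
  exact h4

/-- a common ball -/
lemma Lo.ball {C : Set E} {K : ℕ → Set E} (h : Lo C K) (h0 : (0 : E) ∈ interior C) :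
    ∃ r : ℝ, 0 < r ∧ ∀ᶠ k in atTop, closedBall (0 : E) r ⊆ K k := by
  classical
  obtain ⟨W, c, -, hc, hW⟩ := dirs E
  obtain ⟨a, ha, haW⟩ : ∃ a : ℝ, 0 < a ∧ ∀ w ∈ W, a • w ∈ interior C := by
    have hev : ∀ᶠ a : ℝ in 𝓝 0, ∀ w ∈ W, a • w ∈ interior C := by
      rw [Filter.eventually_all_finset]
      intro w _
      have hcont : Continuous fun a : ℝ => a • w := by fun_prop
      have h1 : (0 : ℝ) • w ∈ interior C := by rwa [zero_smul]
      exact hcont.continuousAt.eventually (isOpen_interior.mem_nhds h1)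
    obtain ⟨a, h1, h2⟩ := ((hev.filter_mono (nhdsWithin_le_nhds (s := Set.Ioi 0))).and
      self_mem_nhdsWithin).exists
    exact ⟨a, h2, h1⟩
  have hev : ∀ᶠ k in atTop, ∀ w ∈ W, a • w ∈ K k := by
    rw [Filter.eventually_all_finset]
    exact fun w hw => h.inn _ (haW w hw)
  refine ⟨a * c, by positivity, hev.mono fun k hk p hp => ?_⟩
  have hsub : convexHull ℝ ((W.image fun w => a • w : Finset E) : Set E) ⊆ K k := by
    refine convexHull_min ?_ (h.cvx k)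
    intro p hp
    obtain ⟨w, hw, rfl⟩ := Finset.mem_image.1 (Finset.mem_coe.1 hp)
    exact hk w hw
  apply hsub
  by_contra hcon
  obtain ⟨f, u, h1, h2⟩ := geometric_hahn_banach_closed_point (convex_convexHull ℝ _)
    ((Finset.finite_toSet (W.image fun w => a • w)).isClosed_convexHull (𝕜 := ℝ)) hcon
  set v : E := (InnerProductSpace.toDual ℝ E).symm f with hv
  have hvf : ∀ x, ⟪v, x⟫_ℝ = f x := fun x => InnerProductSpace.toDual_symm_apply
  obtain ⟨w, hw, hwv⟩ := hW v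
  have h3 := h1 (a • w) (subset_convexHull ℝ _ (Finset.mem_coe.2 (Finset.mem_image_of_mem _ hw)))
  rw [← hvf, real_inner_smul_right, real_inner_comm] at h3
  rw [← hvf] at h2
  have h4 : ⟪v, p⟫_ℝ ≤ ‖v‖ * ‖p‖ := real_inner_le_norm v p
  have h5 : ‖p‖ ≤ a * c := by simpa using hp
  have h6 : ‖v‖ * ‖p‖ ≤ ‖v‖ * (a * c) := mul_le_mul_of_nonneg_left h5 (norm_nonneg _)
  have h7 : a * (c * ‖v‖) ≤ a * ⟪w, v⟫_ℝ := mul_le_mul_of_nonneg_left hwv ha.le
  nlinarith

/-- inner approximation of the polar sets -/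
lemma Lo.inner_polar {C : Set E} {K : ℕ → Set E} (h : Lo C K) (h0 : (0 : E) ∈ interior C)
    {p : E} (hp : p ∈ interior (polar C 0)) :
    ∃ r : ℝ, 0 < r ∧ ∀ᶠ k in atTop, ∀ v : E, ‖v - p‖ < r → v ∈ polar (K k) 0 := by
  obtain ⟨r, hr, hrC⟩ := Metric.nhds_basis_closedBall.mem_iff.1 (mem_interior_iff_mem_nhds.1 hp)
  have hC : ∀ x ∈ C, ⟪p, x⟫_ℝ + r * ‖x‖ ≤ 1 := by
    intro x hx
    rcases eq_or_ne x 0 with rfl | hx0
    · simp
    have hn : 0 < ‖x‖ := norm_pos_iff.2 hx0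
    have h1 : p + (r / ‖x‖) • x ∈ closedBall p r := by
      rw [mem_closedBall, dist_eq_norm, add_sub_cancel_left, norm_smul, Real.norm_eq_abs,
        abs_of_pos (by positivity), div_mul_cancel₀ _ hn.ne']
    have h2 := hrC h1 x hx
    rw [sub_zero, inner_add_left, real_inner_smul_left, real_inner_self_eq_norm_sq] at h2
    have h3 : r / ‖x‖ * ‖x‖ ^ 2 = r * ‖x‖ := by field_simp
    linarith
  refine ⟨r / 2, by positivity, ?_⟩
  by_contra hcon
  have hfr := (not_eventually.1 hcon).and_eventually (h.inn 0 h0)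
  obtain ⟨φ, hφ, hφP⟩ := extraction_of_frequently_atTop hfr
  have hx : ∀ k, ∃ x ∈ K (φ k), 1 < ⟪p, x⟫_ℝ + r / 2 * ‖x‖ := by
    intro k
    have h1 := (hφP k).1
    push Not at h1
    obtain ⟨v, hv, hvK⟩ := h1
    simp only [polar, mem_setOf_eq, not_forall] at hvK
    obtain ⟨x, hx, hvx⟩ := hvK
    rw [not_le, sub_zero] at hvx
    refine ⟨x, hx, hvx.trans_le ?_⟩
    have h2 : ⟪v - p, x⟫_ℝ ≤ ‖v - p‖ * ‖x‖ := real_inner_le_norm _ _
    rw [inner_sub_left] at h2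
    have h3 : ‖v - p‖ * ‖x‖ ≤ r / 2 * ‖x‖ := mul_le_mul_of_nonneg_right hv.le (norm_nonneg _)
    linarith
  choose x hxK hxp using hx
  have h' := h.sub hφ
  by_cases hb : ∃ ρ : ℝ, ∃ᶠ k in atTop, ‖x k‖ ≤ ρ
  · obtain ⟨ρ, hρ⟩ := hb
    obtain ⟨χ, hχ, hχP⟩ := extraction_of_frequently_atTop hρ
    obtain ⟨xi, -, θ, hθ, hlx⟩ := (isCompact_closedBall (0 : E) ρ).tendsto_subseq
      (x := fun k => x (χ k)) (fun k => by simpa using hχP k)
    have hxC : xi ∈ C := h'.out (χ ∘ θ) (fun k => x (χ (θ k))) xi (hχ.comp hθ)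
      (fun k => hxK _) hlx
    have h1 : Tendsto (fun k => ⟪p, x (χ (θ k))⟫_ℝ + r / 2 * ‖x (χ (θ k))‖) atTop
        (𝓝 (⟪p, xi⟫_ℝ + r / 2 * ‖xi‖)) :=
      (tendsto_const_nhds.inner hlx).add (hlx.norm.const_mul _)
    have h2 : 1 ≤ ⟪p, xi⟫_ℝ + r / 2 * ‖xi‖ :=
      ge_of_tendsto h1 (Eventually.of_forall fun k => (hxp _).le)
    have h3 := hC xi hxC
    have h4 := norm_nonneg xi
    have h5 : ‖xi‖ = 0 := by nlinarith
    rw [norm_eq_zero.1 h5, inner_zero_right, norm_zero] at h2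
    norm_num at h2
  · push Not at hb
    have hinf : Tendsto (fun k => ‖x k‖) atTop atTop := by
      rw [Filter.tendsto_atTop]
      intro ρ
      exact (hb ρ).mono fun k hk => hk.le
    obtain ⟨θ, d, hθ, hd1, hld, hdC⟩ := h'.recession hxK (fun k => (hφP k).2) hinf
    have h1 : Tendsto (fun k => ⟪p, ‖x (θ k)‖⁻¹ • x (θ k)⟫_ℝ) atTop (𝓝 ⟪p, d⟫_ℝ) :=
      tendsto_const_nhds.inner hld
    have h2 : -(r / 2) ≤ ⟪p, d⟫_ℝ := by
      refine ge_of_tendsto h1 ?_
      filter_upwards [(hinf.comp hθ.tendsto_atTop).eventually_gt_atTop 0] with k hk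
      have hk' : 0 < ‖x (θ k)‖ := hk
      have h3 := hxp (θ k)
      rw [real_inner_smul_right, inv_mul_eq_div, le_div_iff₀ hk']
      linarith
    have h3 : ∀ s : ℝ, 0 ≤ s → s * (⟪p, d⟫_ℝ + r) ≤ 1 := by
      intro s hs
      have h4 := hC _ (hdC s hs)
      rw [real_inner_smul_right, norm_smul, hd1, Real.norm_eq_abs, abs_of_nonneg hs, mul_one] at h4
      linarith
    have h4 := h3 (4 / r) (by positivity)
    have h5 : 4 / r * (r / 2) ≤ 4 / r * (⟪p, d⟫_ℝ + r) :=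
      mul_le_mul_of_nonneg_left (by linarith) (by positivity)
    have h6 : 4 / r * (r / 2) = 2 := by field_simp; norm_num
    linarith

/-- **Semicontinuity.** -/
theorem semi {C : Set E} (hCv : Convex ℝ C) (h0 : (0 : E) ∈ interior C) {K : ℕ → Set E}
    (h : Lo C K) {n : ℕ} (hT : ∃ T : Finset E, T.card ≤ n ∧
      polar C 0 ⊆ ⋃ t ∈ T, (fun x => t + x) '' interior (polar C 0)) :
    ∀ᶠ k in atTop, 0 ∈ interior (K k) ∧ Sepd n (K k) 0 := by
  classical
  obtain ⟨T, hTc, hT⟩ := hT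
  obtain ⟨r, hr, hball⟩ := h.ball h0
  by_contra hcon
  obtain ⟨φ, hφ, hφP⟩ := extraction_of_frequently_atTop
    ((not_eventually.1 hcon).and_eventually hball)
  have h0i : ∀ k, (0 : E) ∈ interior (K (φ k)) := fun k =>
    mem_interior_iff_mem_nhds.2 (Filter.mem_of_superset (closedBall_mem_nhds _ hr) (hφP k).2)
  have hv : ∀ k, ∃ v ∈ polar (K (φ k)) 0, ∀ t ∈ T, v - t ∉ interior (polar (K (φ k)) 0) := by
    intro k
    by_contra hcon2
    push Not at hcon2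
    refine (hφP k).1 ⟨h0i k, sepd_of_cover (h0i k) ⟨T, hTc, fun v hv => ?_⟩⟩
    obtain ⟨t, ht, hvt⟩ := hcon2 v hv
    simp only [mem_iUnion]
    exact ⟨t, ht, v - t, hvt, by simp⟩
  choose v hvK hvT using hv
  have hvb : ∀ k, ‖v k‖ ≤ 1 / r := fun k =>
    Pool.Agent.H985.Sep.norm_le_of_mem_polar hr (hφP k).2 _ (hvK k)
  obtain ⟨vi, -, ψ, hψ, hlv⟩ := (isCompact_closedBall (0 : E) (1 / r)).tendsto_subseq
    (x := v) (fun k => by simpa using hvb k)
  have h' := h.sub (hφ.comp hψ)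
  have hvi : vi ∈ polar C 0 := by
    have h1 : ∀ z ∈ interior C, ⟪vi, z⟫_ℝ ≤ 1 := by
      intro z hz
      refine le_of_tendsto (hlv.inner tendsto_const_nhds) ((h'.inn z hz).mono fun k hk => ?_)
      have := hvK (ψ k) z hk
      rwa [sub_zero] at this
    intro z hz
    rw [sub_zero]
    have hcl : z ∈ closure (interior C) := by
      rw [hCv.closure_interior_eq_closure_of_nonempty_interior ⟨0, h0⟩]
      exact subset_closure hz
    exact closure_minimal (t := {z | ⟪vi, z⟫_ℝ ≤ 1}) h1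
      (isClosed_le (by fun_prop) continuous_const) hcl
  obtain ⟨t, ht, p, hp, hpt⟩ : ∃ t ∈ T, ∃ p ∈ interior (polar C 0), t + p = vi := by
    have := hT hvi
    simp only [mem_iUnion] at this
    obtain ⟨t, ht, p, hp, hpt⟩ := this
    exact ⟨t, ht, p, hp, hpt⟩
  obtain ⟨ρ, hρ, hev⟩ := h'.inner_polar h0 hp
  have hlt : Tendsto (fun k => v (ψ k) - t) atTop (𝓝 p) := by
    have := hlv.sub_const t
    rw [← hpt, add_sub_cancel_left] at this
    exact this
  obtain ⟨k, hk1, hk2⟩ := (hev.and (Metric.tendsto_nhds.1 hlt (ρ / 2) (by positivity))).exists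
  refine hvT (ψ k) t ht ?_
  rw [mem_interior_iff_mem_nhds]
  refine Filter.mem_of_superset (ball_mem_nhds _ (show 0 < ρ / 2 by positivity)) fun v' hv' => ?_
  refine hk1 v' ?_
  rw [dist_eq_norm] at hk2
  rw [mem_ball, dist_eq_norm] at hv'
  calc ‖v' - p‖ = ‖(v' - (v (ψ k) - t)) + ((v (ψ k) - t) - p)‖ := by congr 1; abel
    _ ≤ ‖v' - (v (ψ k) - t)‖ + ‖(v (ψ k) - t) - p‖ := norm_add_le _ _
    _ < ρ := by linarith

end Pool.Agent.N321.NB
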