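import Pool.Agent.N321.NB.Three

set_option autoImplicit false
set_option linter.unusedSectionVars false

/-!
# The bound `2 ^ (d - 1) + 1` is attained arbitrarily close to the boundary
-/

namespace Pool.Agent.N321.NB

open scoped InnerProductSpace Topology
open Metric Module Filter Set
open Pool.Agent.R753.SJ (Sepd strict_of_int)

/-- pairwise inseparable faces -/
theorem lower_of_faces {V : Type} [NormedAddCommGroup V] [InnerProductSpace ℝ V] {K : Set V} {o : V}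
    {ι : Type} [Fintype ι] (u x₀ : ι → V) (hu : ∀ i, u i ≠ 0) (hx₀ : ∀ i, x₀ i ∈ K)
    (hmax : ∀ i, ∀ y ∈ K, ⟪u i, y⟫_ℝ ≤ ⟪u i, x₀ i⟫_ℝ)
    (hpair : ∀ i j, i ≠ j → ∃ p ∈ K, ∃ q ∈ K, ⟪u i, p⟫_ℝ = ⟪u i, x₀ i⟫_ℝ ∧
      ⟪u j, q⟫_ℝ = ⟪u j, x₀ j⟫_ℝ ∧ ∃ a b : ℝ, 0 ≤ a ∧ 0 ≤ b ∧ a + b = 1 ∧ a • p + b • q = o)
    {n : ℕ} (hs : Sepd n K o) : Fintype.card ι ≤ n := by
  classical
  obtain ⟨H, hHc, -, hH⟩ := hs
  choose h hh h1 h2 using fun i => hH (u i) (x₀ i) (hu i) (hx₀ i) (hmax i)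
  have hinj : Function.Injective h := by
    intro i j hij
    by_contra hne
    obtain ⟨p, hp, q, hq, hp1, hq1, a, b, ha, hb, hab, hpq⟩ := hpair i j hne
    have h3 := h2 i p hp hp1
    have h4 := h2 j q hq hq1
    rw [← hij] at h4
    have h5 := h1 i
    rw [← hpq, inner_add_right, real_inner_smul_right, real_inner_smul_right] at h5
    have h6 := mul_le_mul_of_nonneg_left h3.le ha
    have h7 := mul_le_mul_of_nonneg_left h4.le hb
    have h8 : a * (h i).2 + b * (h i).2 = (h i).2 := by rw [← add_mul, hab, one_mul]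
    linarith
  calc Fintype.card ι = (Finset.univ.image h).card := by
        rw [Finset.card_image_of_injective _ hinj, Finset.card_univ]
    _ ≤ H.card := Finset.card_le_card fun x hx => by
        obtain ⟨i, -, rfl⟩ := Finset.mem_image.1 hx
        exact hh i
    _ ≤ n := hHc

/-- the space of dimension `m + 1` -/
abbrev Ex (m : ℕ) : Type := EuclideanSpace ℝ (Fin (m + 1))

/-- a point with given coordinates -/
noncomputable def mk {m : ℕ} (x : Fin m → ℝ) (z : ℝ) : Ex m :=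
  WithLp.toLp 2 (Fin.snoc (α := fun _ => ℝ) x z)

lemma mk_cs {m : ℕ} (x : Fin m → ℝ) (z : ℝ) (i : Fin m) : (mk x z) i.castSucc = x i := by
  simp [mk]

lemma mk_last {m : ℕ} (x : Fin m → ℝ) (z : ℝ) : (mk x z) (Fin.last m) = z := by
  simp [mk]

lemma inner_mk {m : ℕ} (x : Fin m → ℝ) (z : ℝ) (y : Ex m) :
    ⟪mk x z, y⟫_ℝ = ∑ i, x i * y i.castSucc + z * y (Fin.last m) := by
  rw [PiLp.inner_apply, Fin.sum_univ_castSucc]
  simp only [mk_cs, mk_last, RCLike.inner_apply, conj_trivial]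
  rw [mul_comm z]
  congr 1
  exact Finset.sum_congr rfl fun i _ => mul_comm _ _

/-- signs -/
def sg (b : Bool) : ℝ := if b then 1 else -1

lemma sg_sq (b : Bool) : sg b * sg b = 1 := by cases b <;> simp [sg]

/-- the inequalities of the prism over the cross-polytope -/
noncomputable def ii (m : ℕ) : Finset (Ex m × ℝ) :=
  (Finset.univ.image fun σ : Fin m → Bool => (mk (fun i => sg (σ i)) 0, (1 : ℝ))) ∪
    {(mk 0 1, 1), (mk 0 (-1), 1)}

lemma mem_ii {m : ℕ} {x : Ex m} : x ∈ Po (ii m) ↔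
    (∀ σ : Fin m → Bool, ∑ i, sg (σ i) * x i.castSucc ≤ 1) ∧ x (Fin.last m) ≤ 1 ∧
      -1 ≤ x (Fin.last m) := by
  unfold Po ii
  simp only [mem_setOf_eq, Finset.mem_union, Finset.mem_image, Finset.mem_univ, true_and,
    Finset.mem_insert, Finset.mem_singleton]
  constructor
  · intro h
    refine ⟨fun σ => ?_, ?_, ?_⟩
    · have := h _ (Or.inl ⟨σ, rfl⟩)
      simpa [inner_mk] using this
    · have := h _ (Or.inr (Or.inl rfl))
      simpa [inner_mk] using this
    · have := h _ (Or.inr (Or.inr rfl))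
      simp only [inner_mk, Pi.zero_apply, zero_mul, Finset.sum_const_zero, zero_add] at this
      linarith
  · rintro ⟨h1, h2, h3⟩ h (⟨σ, rfl⟩ | rfl | rfl)
    · simpa [inner_mk] using h1 σ
    · simpa [inner_mk] using h2
    · simp only [inner_mk, Pi.zero_apply, zero_mul, Finset.sum_const_zero, zero_add]
      linarith

lemma abs_le_of_mem {m : ℕ} {x : Ex m} (hx : x ∈ Po (ii m)) : ∑ i : Fin m, |x i.castSucc| ≤ 1 := by
  have h := (mem_ii.1 hx).1 fun i => decide (0 ≤ x i.castSucc)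
  refine le_trans (le_of_eq (Finset.sum_congr rfl fun i _ => ?_)) h
  by_cases h0 : 0 ≤ x i.castSucc
  · simp [sg, h0, abs_of_nonneg h0]
  · simp [sg, h0, abs_of_neg (not_le.1 h0)]

lemma mem_of_abs {m : ℕ} {x : Ex m} (h1 : ∑ i : Fin m, |x i.castSucc| ≤ 1)
    (h2 : |x (Fin.last m)| ≤ 1) : x ∈ Po (ii m) := by
  rw [mem_ii]
  refine ⟨fun σ => le_trans (Finset.sum_le_sum fun i _ => ?_) h1, (abs_le.1 h2).2, (abs_le.1 h2).1⟩
  cases σ i
  · simp only [sg, Bool.false_eq_true, if_false]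
    have := neg_abs_le (x i.castSucc)
    linarith
  · simp only [sg, if_true, one_mul]
    exact le_abs_self _

lemma compact_ii (m : ℕ) : IsCompact (Po (ii m)) := by
  have hcl : IsClosed (Po (ii m)) := by
    have : Po (ii m) = ⋂ h ∈ ii m, {x | ⟪h.1, x⟫_ℝ ≤ h.2} := by
      ext; simp [Po]
    rw [this]
    exact isClosed_biInter fun h _ => isClosed_le (by fun_prop) continuous_const
  refine (isCompact_closedBall (0 : Ex m) (Real.sqrt (m + 1))).of_isClosed_subset hcl fun x hx => ?_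
  rw [mem_closedBall_zero_iff, EuclideanSpace.norm_eq]
  refine Real.sqrt_le_sqrt ?_
  have h1 := abs_le_of_mem hx
  have h2 := mem_ii.1 hx
  have h3 : ∀ i : Fin (m + 1), ‖x i‖ ^ 2 ≤ 1 := by
    intro i
    rw [Real.norm_eq_abs, sq_le_one_iff_abs_le_one, abs_abs]
    refine Fin.lastCases ?_ (fun j => ?_) i
    · exact abs_le.2 ⟨h2.2.2, h2.2.1⟩
    · exact (Finset.single_le_sum (f := fun i : Fin m => |x i.castSucc|)
        (fun _ _ => abs_nonneg _) (Finset.mem_univ j)).trans h1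
  calc ∑ i, ‖x i‖ ^ 2 ≤ ∑ _i : Fin (m + 1), (1 : ℝ) := Finset.sum_le_sum fun i _ => h3 i
    _ = m + 1 := by simp

lemma int_ii {m : ℕ} {x : Ex m} (h1 : ∑ i : Fin m, |x i.castSucc| < 1)
    (h2 : |x (Fin.last m)| < 1) : x ∈ interior (Po (ii m)) := by
  rw [mem_interior_iff_mem_nhds]
  have c1 : Continuous fun x : Ex m => ∑ i : Fin m, |x i.castSucc| := by fun_prop
  have c2 : Continuous fun x : Ex m => |x (Fin.last m)| := by fun_prop
  filter_upwards [c1.continuousAt.eventually_lt continuousAt_const h1,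
    c2.continuousAt.eventually_lt continuousAt_const h2] with y hy1 hy2
  exact mem_of_abs hy1.le hy2.le

/-- the unit vectors -/
noncomputable def un {m : ℕ} (i : Fin m) (c : ℝ) : Fin m → ℝ := fun j => if j = i then c else 0

lemma un_abs {m : ℕ} (i : Fin m) (c : ℝ) : ∑ j, |un i c j| = |c| := by
  simp [un, apply_ite abs]

lemma un_sum {m : ℕ} (i : Fin m) (c : ℝ) (f : Fin m → ℝ) : ∑ j, f j * un i c j = f i * c := by
  simp [un]

lemma mk_mem {m : ℕ} (i : Fin m) {c z : ℝ} (hc : |c| ≤ 1) (hz : |z| ≤ 1) :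
    mk (un i c) z ∈ Po (ii m) := by
  refine mem_of_abs ?_ ?_
  · simp only [mk_cs]
    rw [un_abs]
    exact hc
  · rw [mk_last]; exact hz

lemma mk_comb {m : ℕ} (a b : ℝ) (x y : Fin m → ℝ) (z w : ℝ) :
    a • mk x z + b • mk y w = mk (a • x + b • y) (a * z + b * w) := by
  ext i
  refine Fin.lastCases ?_ (fun j => ?_) i
  · simp [mk_last]
  · simp [mk_cs]

/-- **Sharpness.** -/
theorem sharp (m : ℕ) (hm : 1 ≤ m) {t : ℝ} (ht0 : 0 < t) (ht1 : t ≤ 1) {n : ℕ}
    (hs : Sepd n (Po (ii m)) (mk 0 (-1 + t))) : 2 ^ m + 1 ≤ n := by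
  classical
  have i₀ : Fin m := ⟨0, hm⟩
  -- the faces
  let u : Option (Fin m → Bool) → Ex m := fun f => f.elim (mk 0 (-1)) fun σ => mk (fun i => sg (σ i)) 0
  let x₀ : Option (Fin m → Bool) → Ex m := fun f =>
    f.elim (mk 0 (-1)) fun σ => mk (un i₀ (sg (σ i₀))) 0
  have habs : ∀ b : Bool, |sg b| ≤ 1 := by
    intro b; cases b <;> simp [sg]
  have hzero : (0 : Fin m → ℝ) = un i₀ 0 := by
    funext j; simp [un]
  have hval : ∀ (σ : Fin m → Bool) (i : Fin m) (z : ℝ),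
      ⟪u (some σ), mk (un i (sg (σ i))) z⟫_ℝ = 1 := by
    intro σ i z
    show ⟪mk (fun i => sg (σ i)) 0, mk (un i (sg (σ i))) z⟫_ℝ = 1
    rw [inner_mk]
    simp only [mk_cs, zero_mul, add_zero]
    rw [un_sum, sg_sq]
  have hbot : ∀ (x : Fin m → ℝ), ⟪u none, mk x (-1)⟫_ℝ = 1 := by
    intro x
    show ⟪mk 0 (-1), mk x (-1)⟫_ℝ = 1
    rw [inner_mk, mk_last]
    simp
  -- points in two faces
  have hsb : ∀ (σ : Fin m → Bool), ∃ p ∈ Po (ii m), ∃ q ∈ Po (ii m), ⟪u (some σ), p⟫_ℝ = 1 ∧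
      ⟪u none, q⟫_ℝ = 1 ∧ ∃ a b : ℝ, 0 ≤ a ∧ 0 ≤ b ∧ a + b = 1 ∧
        a • p + b • q = mk 0 (-1 + t) := by
    intro σ
    have h2 : 0 < 2 - t := by linarith
    refine ⟨mk (un i₀ (sg (σ i₀))) 1, mk_mem _ (habs _) (by simp),
      mk (un i₀ (-(t / (2 - t)) * sg (σ i₀))) (-1), mk_mem _ ?_ (by simp), hval σ i₀ 1, hbot _,
      t / 2, 1 - t / 2, by linarith, by linarith, by ring, ?_⟩
    · rw [abs_mul, abs_neg, abs_of_nonneg (by positivity)]
      have h3 : t / (2 - t) ≤ 1 := by rw [div_le_one h2]; linarith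
      calc t / (2 - t) * |sg (σ i₀)| ≤ 1 * 1 :=
            mul_le_mul h3 (habs _) (abs_nonneg _) (by norm_num)
        _ = 1 := by norm_num
    · rw [mk_comb]
      congr 1
      · funext j
        simp only [Pi.add_apply, Pi.smul_apply, smul_eq_mul, un, Pi.zero_apply]
        split_ifs
        · field_simp
          ring
        · ring
      · ring
  have hss : ∀ (σ τ : Fin m → Bool), σ ≠ τ → ∃ p ∈ Po (ii m), ∃ q ∈ Po (ii m),
      ⟪u (some σ), p⟫_ℝ = 1 ∧ ⟪u (some τ), q⟫_ℝ = 1 ∧ ∃ a b : ℝ, 0 ≤ a ∧ 0 ≤ b ∧ a + b = 1 ∧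
        a • p + b • q = mk 0 (-1 + t) := by
    intro σ τ hne
    obtain ⟨i, hi⟩ := Function.ne_iff.1 hne
    have hz : |(-1 + t)| ≤ 1 := abs_le.2 ⟨by linarith, by linarith⟩
    refine ⟨mk (un i (sg (σ i))) (-1 + t), mk_mem _ (habs _) hz, mk (un i (sg (τ i))) (-1 + t),
      mk_mem _ (habs _) hz, hval σ i _, hval τ i _, 1 / 2, 1 / 2, by norm_num, by norm_num,
      by norm_num, ?_⟩
    rw [mk_comb]
    congr 1
    · funext j
      simp only [Pi.add_apply, Pi.smul_apply, smul_eq_mul, un, Pi.zero_apply]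
      split_ifs
      · have : sg (σ i) = - sg (τ i) := by
          revert hi
          cases σ i <;> cases τ i <;> simp [sg]
        rw [this]; ring
      · ring
    · ring
  have hx1 : ∀ f, ⟪u f, x₀ f⟫_ℝ = 1 := by
    rintro (_ | σ)
    · exact hbot 0
    · exact hval σ i₀ 0
  have hcard := lower_of_faces (K := Po (ii m)) (o := mk 0 (-1 + t)) u x₀ ?_ ?_ ?_ ?_ hs
  · rw [Fintype.card_option, Fintype.card_fun, Fintype.card_bool, Fintype.card_fin] at hcard
    exact hcard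
  · intro f h0
    have := hx1 f
    rw [h0, inner_zero_left] at this
    norm_num at this
  · rintro (_ | σ)
    · show mk 0 (-1) ∈ _
      rw [hzero]
      exact mk_mem _ (by simp) (by simp)
    · exact mk_mem _ (habs _) (by simp)
  · rintro (_ | σ) y hy
    · rw [hx1]
      show ⟪mk 0 (-1), y⟫_ℝ ≤ 1
      rw [inner_mk]
      have := (mem_ii.1 hy).2.2
      simp only [Pi.zero_apply, zero_mul, Finset.sum_const_zero, zero_add]
      linarith
    · rw [hx1]
      show ⟪mk (fun i => sg (σ i)) 0, y⟫_ℝ ≤ 1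
      rw [inner_mk, zero_mul, add_zero]
      exact (mem_ii.1 hy).1 σ
  · rintro (_ | σ) (_ | τ) hne
    · exact absurd rfl hne
    · obtain ⟨p, hp, q, hq, h1, h2, a, b, ha, hb, hab, h3⟩ := hsb τ
      exact ⟨q, hq, p, hp, by rw [h2, hx1], by rw [h1, hx1], b, a, hb, ha, by rw [add_comm]; exact hab,
        by rw [add_comm]; exact h3⟩
    · obtain ⟨p, hp, q, hq, h1, h2, a, b, ha, hb, hab, h3⟩ := hsb σ
      exact ⟨p, hp, q, hq, by rw [h1, hx1], by rw [h2, hx1], a, b, ha, hb, hab, h3⟩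
    · obtain ⟨p, hp, q, hq, h1, h2, h3⟩ := hss σ τ (fun h => hne (by rw [h]))
      exact ⟨p, hp, q, hq, by rw [h1, hx1], by rw [h2, hx1], h3⟩

/-- the statement used -/
theorem sharp_near (m : ℕ) (hm : 1 ≤ m) : ∃ I : Finset (Ex m × ℝ), IsCompact (Po I) ∧
    ∀ ρ : ℝ, 0 < ρ → ∃ o ∈ interior (Po I), ∃ y ∈ frontier (Po I), dist o y < ρ ∧
      ∀ n : ℕ, Sepd n (Po I) o → 2 ^ m + 1 ≤ n := by
  refine ⟨ii m, compact_ii m, fun ρ hρ => ?_⟩
  set t := min (ρ / 2) 1 with ht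
  have ht0 : 0 < t := lt_min (by linarith) one_pos
  have ht1 : t ≤ 1 := min_le_right _ _
  have ht2 : t < ρ := (min_le_left _ _).trans_lt (by linarith)
  refine ⟨mk 0 (-1 + t), int_ii ?_ ?_, mk 0 (-1), ?_, ?_, fun n hn => sharp m hm ht0 ht1 hn⟩
  · simp [mk_cs]
  · rw [mk_last]
    exact abs_lt.2 ⟨by linarith, by linarith⟩
  · rw [(compact_ii m).isClosed.frontier_eq]
    have hmem : (mk 0 (-1) : Ex m) ∈ Po (ii m) := mem_of_abs (by simp [mk_cs]) (by simp [mk_last])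
    refine ⟨hmem, fun hint => ?_⟩
    have hpos : ∀ x ∈ Po (ii m), 0 ≤ ⟪(mk 0 1 : Ex m), x - mk 0 (-1)⟫_ℝ := by
      intro x hx
      rw [inner_sub_right, inner_mk, inner_mk, mk_last]
      have := (mem_ii.1 hx).2.2
      simp only [Pi.zero_apply, zero_mul, Finset.sum_const_zero, zero_add]
      linarith
    have hne : (mk 0 1 : Ex m) ≠ 0 := by
      intro h0
      have h1 := mk_last (0 : Fin m → ℝ) 1
      rw [h0] at h1
      simp at h1
    have h2 := strict_of_int hne hpos hint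
    rw [sub_self, inner_zero_right] at h2
    exact lt_irrefl _ h2
  · rw [dist_eq_norm]
    have h1 : (mk 0 (-1 + t) : Ex m) - mk 0 (-1) = t • EuclideanSpace.single (Fin.last m) 1 := by
      ext i
      refine Fin.lastCases ?_ (fun j => ?_) i
      · simp [mk_last]
      · simp [mk_cs, (Fin.castSucc_lt_last j).ne]
    rw [h1, norm_smul, EuclideanSpace.norm_single, norm_one, mul_one, Real.norm_eq_abs,
      abs_of_pos ht0]
    exact ht2

end Pool.Agent.N321.NB
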