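import Pool.Agent.N321.NB.Poly

set_option autoImplicit false
set_option linter.unusedSectionVars false

/-!
# Polytopes in three-dimensional space near the boundary
-/

namespace Pool.Agent.N321.NB

open scoped InnerProductSpace Topology
open Metric Module Filter Set
open Pool.Agent.R753.SJ (Sepd strict_of_int)
open Pool.Agent.Results.MP_5e7226_co.ExtremePointsInFlats (Eu SeparatedBy IsCrossBody BothParts)

/-- `S` is a quadrilateral whose diagonals meet at the origin -/
def Dg {V : Type} [NormedAddCommGroup V] [InnerProductSpace ℝ V] (S : Set V) : Prop :=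
  ∃ (v w : V) (s t : ℝ), LinearIndependent ℝ ![v, w] ∧ 0 < s ∧ 0 < t ∧
    S = convexHull ℝ {v, -(s • v), w, -(t • w)}

theorem plane_both {K : Set (Eu 2)} (hK : Convex ℝ K) (hKc : IsCompact K) {o : Eu 2}
    (ho : o ∈ interior K) : BothParts K o := by
  have h := (Pool.Agent.Results.MP_5e7226_co.ExtremePointsInFlats.result 2 (by norm_num) K hK hKc o
    ho 1).2 (fun _ => ⊤) (fun x _ => mem_iUnion.2 ⟨0, by simp⟩)
  have hf : ∀ j : Fin 1, Pool.Agent.Results.MP_5e7226_co.ExtremePointsInFlats.flatDim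
      ((fun _ => ⊤ : Fin 1 → AffineSubspace ℝ (Eu 2)) j) = 2 := by
    intro j
    show finrank ℝ (⊤ : AffineSubspace ℝ (Eu 2)).direction = 2
    rw [AffineSubspace.direction_top, finrank_top, finrank_euclideanSpace, Fintype.card_fin]
  refine h.1 (fun j => (hf j).le) ?_
  rw [Finset.sum_congr rfl fun j _ => by rw [hf j]]
  simp

theorem plane_three {V : Type} [NormedAddCommGroup V] [InnerProductSpace ℝ V]
    [FiniteDimensional ℝ V] (hV : finrank ℝ V = 2) {C : Set V} (hC : Convex ℝ C)
    (hCc : IsCompact C) (h0 : (0 : V) ∈ interior C) : Sepd 3 C 0 ∨ Dg C := by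
  classical
  let f : V ≃ₗᵢ[ℝ] Eu 2 := ((stdOrthonormalBasis ℝ V).reindex (finCongr hV)).repr
  set C' : Set (Eu 2) := f '' C with hC'
  have hc1 : Convex ℝ C' := hC.linear_image f.toLinearEquiv.toLinearMap
  have hc2 : IsCompact C' := hCc.image f.continuous
  have hc3 : (0 : Eu 2) ∈ interior C' := by
    have h1 : interior C' = f '' interior C := (f.toHomeomorph.image_interior C).symm
    rw [h1]
    exact ⟨0, h0, map_zero f⟩
  obtain ⟨-, hb⟩ := plane_both hc1 hc2 hc3
  by_cases hs : SeparatedBy C' 0 (2 ^ 2 - 1)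
  · left
    obtain ⟨w, b, hw⟩ := hs
    refine ⟨(Finset.univ.image fun i => (f.symm (w i), b i)).filter fun h => h.1 ≠ 0, ?_, ?_, ?_⟩
    · refine (Finset.card_filter_le _ _).trans (Finset.card_image_le.trans ?_)
      simp
    · intro h hh
      exact (Finset.mem_filter.1 hh).2
    · intro u x₀ hu hx₀ hmax
      obtain ⟨i, h1, h2⟩ := hw (f u) (f x₀) (by simpa using hu) (mem_image_of_mem f hx₀) (by
        rintro _ ⟨y, hy, rfl⟩
        rw [f.inner_map_map, f.inner_map_map]
        exact hmax y hy)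
      have h3 : ∀ x ∈ C, ⟪u, x⟫_ℝ = ⟪u, x₀⟫_ℝ → b i < ⟪f.symm (w i), x⟫_ℝ := by
        intro x hx hxu
        have h4 := h2 (f x) (mem_image_of_mem f hx) (by rw [f.inner_map_map, f.inner_map_map, hxu])
        have h5 : ⟪f.symm (w i), x⟫_ℝ = ⟪w i, f x⟫_ℝ := by
          rw [← f.inner_map_map, f.apply_symm_apply]
        rwa [h5]
      rw [inner_zero_right] at h1
      refine ⟨(f.symm (w i), b i), Finset.mem_filter.2 ⟨Finset.mem_image_of_mem _ (Finset.mem_univ i),
        ?_⟩, by simpa using h1, h3⟩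
      intro h4
      have h5 := h3 x₀ hx₀ rfl
      simp only at h4
      rw [h4, inner_zero_left] at h5
      linarith
  · right
    obtain ⟨v, t, hv, ht, hvt⟩ := hb hs
    refine ⟨f.symm (v 0), f.symm (v 1), t 0, t 1, ?_, ht 0, ht 1, ?_⟩
    · have h1 : (![f.symm (v 0), f.symm (v 1)] : Fin 2 → V) = fun i => f.symm (v i) := by
        funext i; fin_cases i <;> rfl
      rw [h1]
      exact hv.map' f.symm.toLinearEquiv.toLinearMap (by
        rw [LinearMap.ker_eq_bot]
        exact f.symm.injective)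
    · have h1 : C = f.symm '' C' := by
        rw [hC', image_image]
        simp
      rw [h1, hvt]
      have h2 : (⋃ i, ({0 + v i, 0 - t i • v i} : Set (Eu 2))) =
          {v 0, -(t 0 • v 0), v 1, -(t 1 • v 1)} := by
        ext x
        simp only [mem_iUnion, mem_insert_iff, mem_singleton_iff, Fin.exists_fin_two, zero_add,
          zero_sub]
        tauto
      rw [h2]
      have h3 : (f.symm : Eu 2 → V) = (f.symm.toLinearEquiv.toLinearMap : Eu 2 →ₗ[ℝ] V) := rfl
      rw [h3, LinearMap.image_convexHull]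
      congr 1
      simp [image_insert_eq]

lemma Dg.cast {E : Type} [NormedAddCommGroup E] [InnerProductSpace ℝ E] {K : Set E} {o : E}
    {L M : Submodule ℝ E} (h : L = M) (hd : Dg (Sl K o L)) : Dg (Sl K o M) := by
  subst h; exact hd

variable {E : Type} [NormedAddCommGroup E] [InnerProductSpace ℝ E] [FiniteDimensional ℝ E]

lemma sepd_trivial {V : Type} [NormedAddCommGroup V] [InnerProductSpace ℝ V]
    [FiniteDimensional ℝ V] (hV : finrank ℝ V = 0) (C : Set V) (n : ℕ) (p : V) : Sepd n C p := by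
  have : Subsingleton V := finrank_zero_iff.1 hV
  exact ⟨∅, by simp, by simp, fun u x₀ hu => absurd (Subsingleton.elim _ _) hu⟩

/-- **Dimension three.** -/
theorem three (hd : finrank ℝ E = 3) {K : Set E} {o' e : E} {L : Submodule ℝ E} {R r ε : ℝ}
    (h : Sit K o' e L R r ε) (hint : 0 ∈ interior (Sl K o' L)) :
    ∃ ρ : ℝ, 0 < ρ ∧ ∀ o ∈ interior K, dist o o' < ρ → Sepd 4 K o ∨
      (finrank ℝ L = 2 ∧ Dg (Sl K o' (Submodule.span ℝ {e})ᗮ)) ∨
      (finrank ℝ L = 0 ∧ Dg (Sl K o (Submodule.span ℝ {e})ᗮ)) := by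
  have he0 : e ≠ 0 := by
    rintro rfl
    have := h.nrm
    simp at this
  have hf := finrank_MM he0 (fun l hl => h.perp hl)
  have hL1 := up_low (j := 1) (by norm_num)
  have hk : finrank ℝ L = 0 ∨ finrank ℝ L = 1 ∨ finrank ℝ L = 2 := by omega
  rcases hk with hk | hk | hk
  · -- vertices
    obtain ⟨ρ, hρ, h1⟩ := h.near (n := 1) le_rfl (sepd_trivial hk _ _ _)
    refine ⟨ρ, hρ, fun o ho hdo => ?_⟩
    have hM : finrank ℝ (MM L e) = 2 := by omega
    rcases plane_three (V := MM L e) hM (Sl_convex h.cvx o _) (Sl_compact h.cpt o _) (Sl_int ho _)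
      with h2 | h2
    · exact Or.inl (h1 o ho hdo 3 (by norm_num) h2)
    · refine Or.inr (Or.inr ⟨hk, h2.cast ?_⟩)
      have : L = ⊥ := Submodule.finrank_eq_zero.1 hk
      rw [MM, this, bot_sup_eq]
  · -- edges
    obtain ⟨ρ, hρ, h1⟩ := h.near (n := 2) (by norm_num) (hL1 L hk _ (Sl_convex h.cvx o' L)
      (Sl_compact h.cpt o' L) 0 hint)
    refine ⟨ρ, hρ, fun o ho hdo => Or.inl ?_⟩
    have hM : finrank ℝ (MM L e) = 1 := by omega
    exact h1 o ho hdo 2 (by norm_num) (hL1 (MM L e) hM _ (Sl_convex h.cvx o _)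
      (Sl_compact h.cpt o _) 0 (Sl_int ho _))
  · -- facets
    have hM : finrank ℝ (MM L e) = 0 := by omega
    rcases plane_three (V := L) hk (Sl_convex h.cvx o' _) (Sl_compact h.cpt o' _) hint with h2 | h2
    · obtain ⟨ρ, hρ, h1⟩ := h.near (n := 3) (by norm_num) h2
      exact ⟨ρ, hρ, fun o ho hdo => Or.inl (h1 o ho hdo 1 le_rfl (sepd_trivial hM _ _ _))⟩
    · refine ⟨1, one_pos, fun o ho hdo => Or.inr (Or.inl ⟨hk, h2.cast ?_⟩)⟩
      have h3 : L ≤ (Submodule.span ℝ {e})ᗮ := by
        intro l hl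
        rw [Submodule.mem_orthogonal_singleton_iff_inner_right]
        exact h.perp hl
      have h4 := Submodule.finrank_add_finrank_orthogonal (Submodule.span ℝ {e})
      rw [finrank_span_singleton he0] at h4
      exact Submodule.eq_of_le_of_finrank_eq h3 (by omega)

end Pool.Agent.N321.NB
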