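import Pool.Agent.N321.NB.Three

set_option autoImplicit false
set_option linter.unusedSectionVars false

/-!
# Blow-ups: convex bodies close to an unbounded convex set
-/

namespace Pool.Agent.N321.NB

open scoped InnerProductSpace Topology
open Metric Module Filter Set
open Pool.Agent.R753.SJ (Sepd strict_of_int)

variable {E : Type} [NormedAddCommGroup E] [InnerProductSpace ℝ E] [FiniteDimensional ℝ E]

/-- local convergence of the convex sets `K k` to `C` -/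
structure Lc (C : Set E) (e : E) (κ : ℝ) (K : ℕ → Set E) : Prop where
  cvx : ∀ k, Convex ℝ (K k)
  inn : ∀ z ∈ interior C, ∀ᶠ k in atTop, z ∈ K k
  out : ∀ (φ : ℕ → ℕ) (x : ℕ → E) (a : E), StrictMono φ → (∀ k, x k ∈ K (φ k)) →
    Tendsto x atTop (𝓝 a) → a ∈ C
  bdd : ∃ R : ℝ, ∀ᶠ k in atTop, ∀ x ∈ K k, ⟪e, x⟫_ℝ ≤ κ → ‖x‖ ≤ R

/-- **The blow-up lemma.** -/
theorem blow {C : Set E} (hCv : Convex ℝ C) (h0 : (0 : E) ∈ interior C) {e : E} {κ : ℝ}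
    (H : Finset (E × ℝ))
    (hH : ∀ u q : E, u ≠ 0 → q ∈ C → (∀ x ∈ C, ⟪u, x⟫_ℝ ≤ ⟪u, q⟫_ℝ) → ⟪e, q⟫_ℝ ≤ κ →
      ∃ h ∈ H, (∀ x ∈ C, ⟪u, x⟫_ℝ = ⟪u, q⟫_ℝ → h.2 < ⟪h.1, x⟫_ℝ) ∧
        ∀ d : E, d ≠ 0 → (∀ s : ℝ, 0 ≤ s → s • d ∈ C) → ⟪u, d⟫_ℝ = 0 → 0 < ⟪h.1, d⟫_ℝ)
    {K : ℕ → Set E} (hK : Lc C e κ K) :
    ∀ᶠ k in atTop, ∀ u x₀ : E, u ≠ 0 → x₀ ∈ K k → (∀ y ∈ K k, ⟪u, y⟫_ℝ ≤ ⟪u, x₀⟫_ℝ) →
      (∀ x ∈ K k, ⟪u, x⟫_ℝ = ⟪u, x₀⟫_ℝ → κ < ⟪e, x⟫_ℝ) ∨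
      ∃ h ∈ H, ∀ x ∈ K k, ⟪u, x⟫_ℝ = ⟪u, x₀⟫_ℝ → h.2 < ⟪h.1, x⟫_ℝ := by
  classical
  by_contra hcon
  obtain ⟨R, hR⟩ := hK.bdd
  have h0K := hK.inn 0 h0
  have hfr := (not_eventually.1 hcon).and_eventually (hR.and h0K)
  obtain ⟨φ, hφ, hφP⟩ := extraction_of_frequently_atTop hfr
  -- the bad faces
  have hbad : ∀ k, ∃ u : E, ‖u‖ = 1 ∧ ∃ x₀ ∈ K (φ k), (∀ y ∈ K (φ k), ⟪u, y⟫_ℝ ≤ ⟪u, x₀⟫_ℝ) ∧
      (∃ q ∈ K (φ k), ⟪u, q⟫_ℝ = ⟪u, x₀⟫_ℝ ∧ ⟪e, q⟫_ℝ ≤ κ) ∧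
      ∀ h ∈ H, ∃ x ∈ K (φ k), ⟪u, x⟫_ℝ = ⟪u, x₀⟫_ℝ ∧ ⟪h.1, x⟫_ℝ ≤ h.2 := by
    intro k
    have h1 := (hφP k).1
    push Not at h1
    obtain ⟨u, x₀, hu, hx₀, hmax, ⟨q, hq, hq1, hq2⟩, h2⟩ := h1
    have hn : 0 < ‖u‖ := norm_pos_iff.2 hu
    have hin : ∀ y, ⟪‖u‖⁻¹ • u, y⟫_ℝ = ‖u‖⁻¹ * ⟪u, y⟫_ℝ := fun y => real_inner_smul_left _ _ _
    refine ⟨‖u‖⁻¹ • u, by rw [norm_smul, norm_inv, norm_norm, inv_mul_cancel₀ hn.ne'], x₀, hx₀,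
      fun y hy => ?_, ⟨q, hq, by rw [hin, hin, hq1], hq2⟩, fun h hh => ?_⟩
    · rw [hin, hin]
      exact mul_le_mul_of_nonneg_left (hmax y hy) (inv_nonneg.2 hn.le)
    · obtain ⟨x, hx, hx1, hx2⟩ := h2 h hh
      exact ⟨x, hx, by rw [hin, hin, hx1], hx2⟩
  choose u hu x₀ hx₀ hmax hq hx using hbad
  choose q hqK hqu hqe using hq
  have hqR : ∀ k, ‖q k‖ ≤ R := fun k => (hφP k).2.1 _ (hqK k) (hqe k)
  -- convergence of `u` and `q`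
  have hcomp : IsCompact (sphere (0 : E) 1 ×ˢ closedBall (0 : E) R) :=
    (isCompact_sphere _ _).prod (isCompact_closedBall _ _)
  obtain ⟨⟨ui, qi⟩, ⟨hui, -⟩, ψ, hψ, hlim⟩ := hcomp.tendsto_subseq (x := fun k => (u k, q k))
    (fun k => ⟨by simp [hu k], by simpa using hqR k⟩)
  have hlu : Tendsto (fun k => u (ψ k)) atTop (𝓝 ui) := (continuous_fst.tendsto _).comp hlim
  have hlq : Tendsto (fun k => q (ψ k)) atTop (𝓝 qi) := (continuous_snd.tendsto _).comp hlim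
  have hu1 : ‖ui‖ = 1 := by simpa using hui
  have hu0 : ui ≠ 0 := by
    intro h1; rw [h1, norm_zero] at hu1; norm_num at hu1
  have hφψ : StrictMono (φ ∘ ψ) := hφ.comp hψ
  have hqC : qi ∈ C := hK.out (φ ∘ ψ) (fun k => q (ψ k)) qi hφψ (fun k => hqK (ψ k)) hlq
  have hluq : Tendsto (fun k => ⟪u (ψ k), q (ψ k)⟫_ℝ) atTop (𝓝 ⟪ui, qi⟫_ℝ) := hlu.inner hlq
  have hmaxi : ∀ x ∈ C, ⟪ui, x⟫_ℝ ≤ ⟪ui, qi⟫_ℝ := by
    have h1 : ∀ z ∈ interior C, ⟪ui, z⟫_ℝ ≤ ⟪ui, qi⟫_ℝ := by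
      intro z hz
      have h2 : Tendsto (fun k => ⟪u (ψ k), z⟫_ℝ) atTop (𝓝 ⟪ui, z⟫_ℝ) :=
        hlu.inner tendsto_const_nhds
      refine le_of_tendsto_of_tendsto h2 hluq ?_
      have h3 := hφψ.tendsto_atTop.eventually (hK.inn z hz)
      filter_upwards [h3] with k hk
      rw [hqu]
      exact hmax (ψ k) z hk
    intro x hx
    have hcl : x ∈ closure (interior C) := by
      rw [hCv.closure_interior_eq_closure_of_nonempty_interior ⟨0, h0⟩]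
      exact subset_closure hx
    exact closure_minimal (t := {z | ⟪ui, z⟫_ℝ ≤ ⟪ui, qi⟫_ℝ}) h1
      (isClosed_le (by fun_prop) continuous_const) hcl
  have hqe' : ⟪e, qi⟫_ℝ ≤ κ :=
    le_of_tendsto ((tendsto_const_nhds (x := e)).inner hlq) (Eventually.of_forall fun k => hqe _)
  obtain ⟨h, hh, h1, h2⟩ := hH ui qi hu0 hqC hmaxi hqe'
  -- the points on the wrong side
  choose x hxK hxu hxh using fun k => hx k h hh
  by_cases hb : ∃ ρ : ℝ, ∃ᶠ k in atTop, ‖x (ψ k)‖ ≤ ρ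
  · obtain ⟨ρ, hρ⟩ := hb
    obtain ⟨χ, hχ, hχP⟩ := extraction_of_frequently_atTop hρ
    obtain ⟨xi, -, θ, hθ, hlx⟩ := (isCompact_closedBall (0 : E) ρ).tendsto_subseq
      (x := fun k => x (ψ (χ k))) (fun k => by simpa using hχP k)
    have hmono : StrictMono (φ ∘ ψ ∘ χ ∘ θ) := hφ.comp (hψ.comp (hχ.comp hθ))
    have hxC : xi ∈ C := hK.out (φ ∘ ψ ∘ χ ∘ θ) (fun k => x (ψ (χ (θ k)))) xi hmono
      (fun k => hxK _) hlx
    have ht : Tendsto (fun k => χ (θ k)) atTop atTop := (hχ.comp hθ).tendsto_atTop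
    have h3 : Tendsto (fun k => ⟪u (ψ (χ (θ k))), x (ψ (χ (θ k)))⟫_ℝ) atTop (𝓝 ⟪ui, xi⟫_ℝ) :=
      (hlu.comp ht).inner hlx
    have h4 : Tendsto (fun k => ⟪u (ψ (χ (θ k))), q (ψ (χ (θ k)))⟫_ℝ) atTop (𝓝 ⟪ui, qi⟫_ℝ) :=
      hluq.comp ht
    have h5 : ⟪ui, xi⟫_ℝ = ⟪ui, qi⟫_ℝ := by
      refine tendsto_nhds_unique h3 (h4.congr fun k => ?_)
      rw [hqu, hxu]
    have h6 := h1 xi hxC h5
    have h7 : ⟪h.1, xi⟫_ℝ ≤ h.2 :=
      le_of_tendsto ((tendsto_const_nhds (x := h.1)).inner hlx) (Eventually.of_forall fun k => hxh _)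
    linarith
  · push Not at hb
    have hinf : Tendsto (fun k => ‖x (ψ k)‖) atTop atTop := by
      rw [Filter.tendsto_atTop]
      intro ρ
      exact (hb ρ).mono fun k hk => hk.le
    -- the directions
    set d : ℕ → E := fun k => ‖x (ψ k)‖⁻¹ • x (ψ k) with hd
    have hd1 : ∀ k, ‖d k‖ ≤ 1 := by
      intro k
      rw [hd]
      simp only
      rw [norm_smul, norm_inv, norm_norm]
      rcases eq_or_ne ‖x (ψ k)‖ 0 with h3 | h3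
      · rw [h3]; simp
      · rw [inv_mul_cancel₀ h3]
    obtain ⟨di, -, θ, hθ, hld⟩ := (isCompact_closedBall (0 : E) 1).tendsto_subseq
      (x := d) (fun k => by simpa using hd1 k)
    have hinfθ : Tendsto (fun k => ‖x (ψ (θ k))‖) atTop atTop := hinf.comp hθ.tendsto_atTop
    have hdn : ‖di‖ = 1 := by
      have h3 : Tendsto (fun k => ‖d (θ k)‖) atTop (𝓝 ‖di‖) := hld.norm
      refine tendsto_nhds_unique h3 (tendsto_const_nhds.congr' ?_)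
      filter_upwards [hinfθ.eventually_gt_atTop 0] with k hk
      rw [hd]
      simp only
      rw [norm_smul, norm_inv, norm_norm, inv_mul_cancel₀ hk.ne']
    have hdi0 : di ≠ 0 := by
      intro h3; rw [h3, norm_zero] at hdn; norm_num at hdn
    have hinv : Tendsto (fun k => ‖x (ψ (θ k))‖⁻¹) atTop (𝓝 0) := hinfθ.inv_tendsto_atTop
    -- recession direction
    have hrec : ∀ s : ℝ, 0 ≤ s → s • di ∈ C := by
      intro s hs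
      obtain ⟨k₀, hk₀⟩ := eventually_atTop.1 (hinfθ.eventually_ge_atTop (s + 1))
      have hmono : StrictMono (fun k => φ (ψ (θ (k + k₀)))) :=
        hφ.comp (hψ.comp (hθ.comp fun a b hab => by simpa using hab))
      refine hK.out (fun k => φ (ψ (θ (k + k₀)))) (fun k => s • d (θ (k + k₀))) _ hmono
        (fun k => ?_) ((hld.comp (tendsto_add_atTop_nat k₀)).const_smul s)
      have h3 := hk₀ (k + k₀) (by omega)
      have hpos : 0 < ‖x (ψ (θ (k + k₀)))‖ := by linarith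
      have h4 := (hK.cvx _) (hφP (ψ (θ (k + k₀)))).2.2 (hxK (ψ (θ (k + k₀))))
        (a := 1 - s * ‖x (ψ (θ (k + k₀)))‖⁻¹) (b := s * ‖x (ψ (θ (k + k₀)))‖⁻¹) (by
          rw [sub_nonneg, ← div_eq_mul_inv, div_le_one hpos]
          linarith) (by positivity) (by ring)
      rw [smul_zero, zero_add, ← smul_smul] at h4
      exact h4
    have hud : ⟪ui, di⟫_ℝ = 0 := by
      have h3 : Tendsto (fun k => ⟪u (ψ (θ k)), d (θ k)⟫_ℝ) atTop (𝓝 ⟪ui, di⟫_ℝ) :=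
        (hlu.comp hθ.tendsto_atTop).inner hld
      have h4 : Tendsto (fun k => ‖x (ψ (θ k))‖⁻¹ * ⟪u (ψ (θ k)), q (ψ (θ k))⟫_ℝ) atTop
          (𝓝 (0 * ⟪ui, qi⟫_ℝ)) := hinv.mul (hluq.comp hθ.tendsto_atTop)
      rw [zero_mul] at h4
      refine tendsto_nhds_unique h3 (h4.congr fun k => ?_)
      rw [hd]
      simp only
      rw [real_inner_smul_right, hqu, hxu]
    have h3 := h2 di hdi0 hrec hud
    have h4 : ⟪h.1, di⟫_ℝ ≤ 0 := by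
      have h5 : Tendsto (fun k => ⟪h.1, d (θ k)⟫_ℝ) atTop (𝓝 ⟪h.1, di⟫_ℝ) :=
        (tendsto_const_nhds (x := h.1)).inner hld
      have h6 : Tendsto (fun k => ‖x (ψ (θ k))‖⁻¹ * h.2) atTop (𝓝 (0 * h.2)) :=
        hinv.mul_const h.2
      rw [zero_mul] at h6
      refine le_of_tendsto_of_tendsto' h5 h6 fun k => ?_
      rw [hd]
      simp only
      rw [real_inner_smul_right]
      exact mul_le_mul_of_nonneg_left (hxh _) (inv_nonneg.2 (norm_nonneg _))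
    linarith

end Pool.Agent.N321.NB
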