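import Mathlib

set_option autoImplicit false
set_option linter.unusedSectionVars false

/-!
# Separating faces from points near a conical boundary point

`K` is a convex body, `e` an inner normal vector of `K` at `o'`, `F = {x ∈ K | ⟪e, x - o'⟫ = 0}` is
contained in `o' + L` and contains a ball of `o' + L` around `o'`, and `K` is a cone near `o'`.
-/

namespace Pool.Agent.N321.NB

open scoped InnerProductSpace Topology
open Metric Module Filter Set

variable {E : Type*} [NormedAddCommGroup E] [InnerProductSpace ℝ E] [FiniteDimensional ℝ E]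

/-- The slice of `K` by `o + L`, as a subset of `L`. -/
def Sl (K : Set E) (o : E) (L : Submodule ℝ E) : Set L := {l | o + (l : E) ∈ K}

/-- the situation -/
structure Sit (K : Set E) (o' e : E) (L : Submodule ℝ E) (R r ε : ℝ) : Prop where
  cvx : Convex ℝ K
  cpt : IsCompact K
  mem : o' ∈ K
  nrm : ‖e‖ = 1
  pos : ∀ x ∈ K, 0 ≤ ⟪e, x - o'⟫_ℝ
  fac : ∀ x ∈ K, ⟪e, x - o'⟫_ℝ = 0 → x - o' ∈ L
  rpos : 0 < r
  rad : ∀ l ∈ L, ‖l‖ ≤ r → o' + l ∈ K
  epos : 0 < ε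
  con : ∀ x ∈ K, ∀ s : ℝ, 0 ≤ s → s * ‖x - o'‖ ≤ ε → o' + s • (x - o') ∈ K
  Rpos : 0 < R
  bnd : ∀ x ∈ K, ‖x - o'‖ ≤ R

/-- the orthogonal projection to `L`, and the rest -/
noncomputable def pl (L : Submodule ℝ E) (v : E) : E := L.starProjection v

noncomputable def pz (L : Submodule ℝ E) (v : E) : E := v - L.starProjection v

lemma pl_mem (L : Submodule ℝ E) (v : E) : pl L v ∈ L := Submodule.starProjection_apply_mem L v

lemma pz_mem (L : Submodule ℝ E) (v : E) : pz L v ∈ Lᗮ :=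
  Submodule.sub_starProjection_mem_orthogonal v

lemma pl_add_pz (L : Submodule ℝ E) (v : E) : pl L v + pz L v = v := by simp [pl, pz]

lemma inner_pz_of_mem {L : Submodule ℝ E} {w : E} (hw : w ∈ L) (v : E) : ⟪w, pz L v⟫_ℝ = 0 :=
  Submodule.inner_right_of_mem_orthogonal hw (pz_mem L v)

lemma norm_pl_le (L : Submodule ℝ E) (v : E) : ‖pl L v‖ ≤ ‖v‖ := by
  exact Submodule.norm_starProjection_apply_le L v

lemma norm_pz_le (L : Submodule ℝ E) (v : E) : ‖pz L v‖ ≤ ‖v‖ := by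
  have h : ‖v‖ ^ 2 = ‖pl L v‖ ^ 2 + ‖pz L v‖ ^ 2 := by
    have h1 : ⟪pl L v, pz L v⟫_ℝ = 0 := inner_pz_of_mem (pl_mem L v) v
    have h2 := norm_add_sq_real (pl L v) (pz L v)
    rw [pl_add_pz, h1] at h2
    linarith
  nlinarith [norm_nonneg (pz L v), norm_nonneg v, sq_nonneg ‖pl L v‖]

lemma pz_of_mem {L : Submodule ℝ E} {v : E} (hv : v ∈ L) : pz L v = 0 := by
  simp [pz, Submodule.starProjection_eq_self_iff.2 hv]

lemma pz_continuous (L : Submodule ℝ E) : Continuous (pz L) := by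
  unfold pz
  fun_prop

variable {K : Set E} {o' e : E} {L : Submodule ℝ E} {R r ε : ℝ}

lemma Sit.perp (h : Sit K o' e L R r ε) {l : E} (hl : l ∈ L) : ⟪e, l⟫_ℝ = 0 := by
  rcases eq_or_ne l 0 with rfl | hl0
  · simp
  have hn : 0 < ‖l‖ := norm_pos_iff.2 hl0
  have h0 := h.rpos
  have key : ∀ c : ℝ, |c| ≤ r / ‖l‖ → 0 ≤ c * ⟪e, l⟫_ℝ := by
    intro c hc
    have h1 := h.pos _ (h.rad (c • l) (L.smul_mem _ hl) (by
      rw [norm_smul, Real.norm_eq_abs]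
      rwa [le_div_iff₀ hn] at hc))
    rwa [add_sub_cancel_left, real_inner_smul_right] at h1
  have h1 := key (r / ‖l‖) (by rw [abs_of_pos (by positivity)])
  have h2 := key (-(r / ‖l‖)) (by rw [abs_neg, abs_of_pos (by positivity)])
  have h3 : 0 < r / ‖l‖ := by positivity
  nlinarith

lemma Sit.inner_pz (h : Sit K o' e L R r ε) (v : E) : ⟪e, pz L v⟫_ℝ = ⟪e, v⟫_ℝ := by
  unfold pz
  rw [inner_sub_right]
  have := h.perp (pl_mem L v)
  unfold pl at this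
  rw [this, sub_zero]

/-- the cone modulo `L` -/
lemma Sit.cone (h : Sit K o' e L R r ε) {x : E} (hx : x ∈ K) {s : ℝ} (hs : 0 ≤ s)
    (hse : s * ‖pz L (x - o')‖ ≤ ε) : o' + s • pz L (x - o') ∈ K := by
  set l := pl L (x - o') with hl
  set z := pz L (x - o') with hz
  have hlz : l + z = x - o' := pl_add_pz L _
  have hr := h.rpos
  -- a small multiple
  obtain ⟨c, hc, hcK⟩ : ∃ c : ℝ, 0 < c ∧ o' + c • z ∈ K := by
    have hden : 0 < r + ‖l‖ := by positivity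
    rcases eq_or_ne l 0 with hl0 | hl0
    · exact ⟨1, one_pos, by rw [one_smul, ← zero_add z, ← hl0, hlz, add_sub_cancel]; exact hx⟩
    have hn : 0 < ‖l‖ := norm_pos_iff.2 hl0
    have h1 : o' + (-(r / ‖l‖)) • l ∈ K := h.rad _ (L.smul_mem _ (pl_mem L _)) (by
      rw [norm_smul, norm_neg, Real.norm_eq_abs, abs_of_pos (by positivity),
        div_mul_cancel₀ _ hn.ne'])
    refine ⟨r / (r + ‖l‖), by positivity, ?_⟩
    have h2 := h.cvx hx h1 (a := r / (r + ‖l‖)) (b := ‖l‖ / (r + ‖l‖)) (by positivity)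
      (by positivity) (by field_simp)
    have h3 : (r / (r + ‖l‖)) • x + (‖l‖ / (r + ‖l‖)) • (o' + (-(r / ‖l‖)) • l) =
        o' + (r / (r + ‖l‖)) • z := by
      have hx' : x = o' + (l + z) := by rw [hlz, add_sub_cancel]
      have e1 : r / (r + ‖l‖) + ‖l‖ / (r + ‖l‖) = 1 := by field_simp
      have e2 : ‖l‖ / (r + ‖l‖) * -(r / ‖l‖) = -(r / (r + ‖l‖)) := by field_simp
      calc (r / (r + ‖l‖)) • x + (‖l‖ / (r + ‖l‖)) • (o' + (-(r / ‖l‖)) • l)
          = (r / (r + ‖l‖) + ‖l‖ / (r + ‖l‖)) • o' + (r / (r + ‖l‖)) • l +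
            (r / (r + ‖l‖)) • z + (‖l‖ / (r + ‖l‖) * -(r / ‖l‖)) • l := by
            rw [hx', smul_add, smul_add, smul_add, smul_smul, add_smul]
            abel
        _ = o' + (r / (r + ‖l‖)) • z := by
            rw [e1, e2, one_smul, neg_smul]
            abel
    rwa [h3] at h2
  have h4 := h.con _ hcK (s / c) (by positivity) (by
    rw [add_sub_cancel_left, norm_smul, Real.norm_eq_abs, abs_of_pos hc]
    have : s / c * (c * ‖z‖) = s * ‖z‖ := by field_simp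
    rw [this]
    exact hse)
  rw [add_sub_cancel_left, smul_smul, div_mul_cancel₀ _ hc.ne'] at h4
  exact h4

/-- the cone is pointed modulo `L` -/
lemma Sit.pointed (h : Sit K o' e L R r ε) : ∃ δ : ℝ, 0 < δ ∧ ∀ x ∈ K,
    δ * ‖pz L (x - o')‖ ≤ ⟪e, x - o'⟫_ℝ := by
  have hε := h.epos
  set A : Set E := {w | w ∈ Lᗮ ∧ ‖w‖ = ε ∧ o' + w ∈ K} with hA
  have hAc : IsCompact A := by
    have h1 : IsCompact ((fun w => o' + w) ⁻¹' K) := by
      have : (fun w => o' + w) ⁻¹' K = (fun w => -o' + w) '' K := by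
        ext w
        simp only [mem_preimage, mem_image]
        constructor
        · intro hw
          exact ⟨o' + w, hw, by abel⟩
        · rintro ⟨y, hy, rfl⟩
          simpa using hy
      rw [this]
      exact h.cpt.image (by fun_prop)
    have h2 : IsClosed {w : E | w ∈ Lᗮ ∧ ‖w‖ = ε} :=
      (Submodule.isClosed_orthogonal L).inter (isClosed_eq continuous_norm continuous_const)
    refine (h1.inter_left h2).of_isClosed_subset ?_ ?_
    · have : A = {w : E | w ∈ Lᗮ ∧ ‖w‖ = ε} ∩ (fun w => o' + w) ⁻¹' K := by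
        ext w; simp [hA, and_assoc]
      rw [this]
      exact (h1.inter_left h2).isClosed
    · rintro w ⟨h3, h4, h5⟩
      exact ⟨⟨h3, h4⟩, h5⟩
  obtain ⟨m, hm, hmA⟩ : ∃ m : ℝ, 0 < m ∧ ∀ w ∈ A, m ≤ ⟪e, w⟫_ℝ := by
    rcases A.eq_empty_or_nonempty with hE | hN
    · exact ⟨1, one_pos, by simp [hE]⟩
    obtain ⟨w, hw, hmin⟩ := hAc.exists_isMinOn hN (f := fun w => ⟪e, w⟫_ℝ) (by fun_prop)
    refine ⟨⟪e, w⟫_ℝ, ?_, fun y hy => hmin hy⟩
    have h1 := h.pos _ hw.2.2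
    rw [add_sub_cancel_left] at h1
    rcases h1.lt_or_eq with h2 | h2
    · exact h2
    · exfalso
      have h3 := h.fac _ hw.2.2 (by rw [add_sub_cancel_left]; exact h2.symm)
      rw [add_sub_cancel_left] at h3
      have h4 : w = 0 := by
        have := Submodule.inner_right_of_mem_orthogonal h3 hw.1
        rwa [inner_self_eq_zero] at this
      have := hw.2.1
      rw [h4, norm_zero] at this
      linarith
  refine ⟨m / ε, by positivity, fun x hx => ?_⟩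
  rw [← h.inner_pz]
  set z := pz L (x - o') with hz
  rcases eq_or_ne z 0 with h0 | h0
  · rw [h0]; simp
  have hn : 0 < ‖z‖ := norm_pos_iff.2 h0
  have h1 := h.cone hx (s := ε / ‖z‖) (by positivity) (by rw [div_mul_cancel₀ _ hn.ne'])
  have h2 := hmA ((ε / ‖z‖) • z) ⟨Submodule.smul_mem _ _ (pz_mem L _), by
    rw [norm_smul, Real.norm_eq_abs, abs_of_pos (by positivity), div_mul_cancel₀ _ hn.ne'], h1⟩
  rw [real_inner_smul_right, div_mul_eq_mul_div, le_div_iff₀ hn] at h2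
  rw [div_mul_eq_mul_div, div_le_iff₀ hε]
  linarith

lemma Sl_compact {K : Set E} (hK : IsCompact K) (o : E) (L : Submodule ℝ E) :
    IsCompact (Sl K o L) := by
  have hcl : Topology.IsClosedEmbedding (fun l : L => o + (l : E)) :=
    (Homeomorph.addLeft o).isClosedEmbedding.comp L.closed_of_finiteDimensional.isClosedEmbedding_subtypeVal
  exact hcl.isCompact_preimage hK

/-- **The faces which do not contain `o'`.** -/
theorem Sit.slope (h : Sit K o' e L R r ε) (H : Finset (L × ℝ)) (h₀ : ∃ g ∈ H, 0 < g.2)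
    (hH : ∀ u x₀ : L, u ≠ 0 → x₀ ∈ Sl K o' L → (∀ y ∈ Sl K o' L, ⟪u, y⟫_ℝ ≤ ⟪u, x₀⟫_ℝ) →
      ∃ g ∈ H, 0 < g.2 ∧ ∀ x ∈ Sl K o' L, ⟪u, x⟫_ℝ = ⟪u, x₀⟫_ℝ → g.2 < ⟪g.1, x⟫_ℝ) :
    ∃ N : ℕ, ∀ u : E, ∀ x₀ ∈ K, (∀ y ∈ K, ⟪u, y⟫_ℝ ≤ ⟪u, x₀⟫_ℝ) → ⟪u, o'⟫_ℝ < ⟪u, x₀⟫_ℝ →
      ∃ g ∈ H, 0 < g.2 ∧ ∀ x ∈ K, ⟪u, x⟫_ℝ = ⟪u, x₀⟫_ℝ →
        g.2 / 2 < ⟪(g.1 : E), x - o'⟫_ℝ + (N + 1) * ⟪e, x - o'⟫_ℝ := by
  classical
  by_contra hcon
  push Not at hcon
  choose u x₀ hx₀ hmax hne hbad using hcon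
  have hbad' : ∀ (N : ℕ) (g : L × ℝ), ∃ x ∈ K, ⟪u N, x⟫_ℝ = ⟪u N, x₀ N⟫_ℝ ∧
      (g ∈ H → 0 < g.2 →
        ⟪(g.1 : E), x - o'⟫_ℝ + (N + 1) * ⟪e, x - o'⟫_ℝ ≤ g.2 / 2) := by
    intro N g
    by_cases hh : g ∈ H ∧ 0 < g.2
    · obtain ⟨x, hx, hx1, hx2⟩ := hbad N g hh.1 hh.2
      exact ⟨x, hx, hx1, fun _ _ => hx2⟩
    · exact ⟨x₀ N, hx₀ N, rfl, fun h1 h2 => absurd ⟨h1, h2⟩ hh⟩
  choose x hxK hxu hxb using hbad'
  -- the projection of `u N` to `L`
  set b : ℕ → L := fun N => ⟨pl L (u N), pl_mem L _⟩ with hb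
  have hbi : ∀ N (l : L), ⟪b N, l⟫_ℝ = ⟪u N, (l : E)⟫_ℝ := by
    intro N l
    rw [Submodule.coe_inner]
    have h1 : ⟪(l : E), pz L (u N)⟫_ℝ = 0 := inner_pz_of_mem l.2 _
    have h2 := pl_add_pz L (u N)
    calc ⟪pl L (u N), (l : E)⟫_ℝ = ⟪pl L (u N) + pz L (u N), (l : E)⟫_ℝ := by
          rw [inner_add_left, real_inner_comm _ (pz L (u N)), h1, add_zero]
      _ = ⟪u N, (l : E)⟫_ℝ := by rw [h2]
  set β : ℕ → L := fun N => ‖b N‖⁻¹ • b N with hβ
  have hβ1 : ∀ N, ‖β N‖ ≤ 1 := by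
    intro N
    rw [hβ]
    simp only
    rw [norm_smul, norm_inv, norm_norm]
    rcases eq_or_ne ‖b N‖ 0 with h0 | h0
    · rw [h0]; simp
    · rw [inv_mul_cancel₀ h0]
  have hcomp : IsCompact (closedBall (0 : L) 1 ×ˢ (Set.univ.pi fun _ : H => K)) :=
    (isCompact_closedBall _ _).prod (isCompact_univ_pi fun _ => h.cpt)
  obtain ⟨⟨bi, xi⟩, ⟨hbi1, hxi⟩, φ, hφ, hlim⟩ := hcomp.tendsto_subseq
    (x := fun N => (β N, fun g : H => x N g)) (fun N => ⟨by simpa using hβ1 N,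
      fun g _ => hxK N g⟩)
  have hlβ : Tendsto (fun k => β (φ k)) atTop (𝓝 bi) :=
    (continuous_fst.tendsto _).comp hlim
  have hlx : ∀ g : H, Tendsto (fun k => x (φ k) g) atTop (𝓝 (xi g)) := fun g =>
    (((continuous_apply g).comp continuous_snd).tendsto _).comp hlim
  have hxKL : ∀ g : H, xi g ∈ K := fun g => hxi g trivial
  -- (1) the limits are in the face
  have hfac : ∀ g : H, 0 < g.1.2 → ⟪e, xi g - o'⟫_ℝ = 0 := by
    intro g hg
    set C : ℝ := g.1.2 / 2 + ‖(g.1.1 : E)‖ * R with hC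
    have h1 : ∀ k, ⟪e, x (φ k) g - o'⟫_ℝ ≤ C * (1 / ((φ k : ℝ) + 1)) := by
      intro k
      have h2 := hxb (φ k) g g.2 hg
      have h3 : -(‖(g.1.1 : E)‖ * R) ≤ ⟪(g.1.1 : E), x (φ k) g - o'⟫_ℝ := by
        have h4 := abs_real_inner_le_norm (g.1.1 : E) (x (φ k) g - o')
        have h5 := neg_abs_le ⟪(g.1.1 : E), x (φ k) g - o'⟫_ℝ
        have h6 : ‖(g.1.1 : E)‖ * ‖x (φ k) g - o'‖ ≤ ‖(g.1.1 : E)‖ * R :=
          mul_le_mul_of_nonneg_left (h.bnd _ (hxK _ _)) (norm_nonneg _)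
        linarith
      rw [mul_one_div, le_div_iff₀ (by positivity)]
      rw [hC]
      nlinarith
    have h2 : Tendsto (fun k => C * (1 / ((φ k : ℝ) + 1))) atTop (𝓝 (C * 0)) :=
      ((tendsto_one_div_add_atTop_nhds_zero_nat (𝕜 := ℝ)).comp hφ.tendsto_atTop).const_mul C
    rw [mul_zero] at h2
    have h3 : Tendsto (fun k => ⟪e, x (φ k) g - o'⟫_ℝ) atTop (𝓝 ⟪e, xi g - o'⟫_ℝ) :=
      tendsto_const_nhds.inner ((hlx g).sub_const o')
    exact le_antisymm (le_of_tendsto_of_tendsto' h3 h2 h1) (h.pos _ (hxKL g))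
  have hxL : ∀ g : H, 0 < g.1.2 → xi g - o' ∈ L := fun g hg => h.fac _ (hxKL g) (hfac g hg)
  -- (2) the inequality of the limits
  have hle : ∀ g : H, 0 < g.1.2 → ⟪(g.1.1 : E), xi g - o'⟫_ℝ ≤ g.1.2 / 2 := by
    intro g hg
    have h3 : Tendsto (fun k => ⟪(g.1.1 : E), x (φ k) g - o'⟫_ℝ) atTop
        (𝓝 ⟪(g.1.1 : E), xi g - o'⟫_ℝ) :=
      tendsto_const_nhds.inner ((hlx g).sub_const o')
    refine le_of_tendsto h3 (Eventually.of_forall fun k => ?_)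
    have h4 := hxb (φ k) g g.2 hg
    have h5 := h.pos _ (hxK (φ k) g)
    have h6 : 0 ≤ ((φ k : ℝ) + 1) * ⟪e, x (φ k) g - o'⟫_ℝ := by positivity
    linarith
  -- (3) the normal component is small
  have hz0 : ∀ g : H, 0 < g.1.2 → Tendsto (fun k => ‖pz L (x (φ k) g - o')‖) atTop (𝓝 0) := by
    intro g hg
    have h3 : Tendsto (fun k => pz L (x (φ k) g - o')) atTop (𝓝 (pz L (xi g - o'))) :=
      ((pz_continuous L).tendsto _).comp ((hlx g).sub_const o')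
    rw [pz_of_mem (hxL g hg)] at h3
    simpa using h3.norm
  have hε := h.epos
  have hR := h.Rpos
  have hsplit : ∀ N (v : E), ⟪u N, v⟫_ℝ = ⟪u N, pl L v⟫_ℝ + ⟪u N, pz L v⟫_ℝ := by
    intro N v
    rw [← inner_add_right, pl_add_pz]
  -- (4) the main estimate
  have hmain : ∀ N (g : H), ‖pz L (x N g - o')‖ ≤ ε / 2 →
      0 < ‖b N‖ ∧ ⟪u N, pz L (x N g - o')⟫_ℝ ≤
        ‖pz L (x N g - o')‖ * (2 * R / ε) * ‖b N‖ := by
    intro N g hsm
    set z := pz L (x N g - o') with hz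
    set l := pl L (x N g - o') with hl
    set M := ⟪u N, x₀ N⟫_ℝ - ⟪u N, o'⟫_ℝ with hM
    have hM0 : 0 < M := by
      have := hne N
      rw [hM]; linarith
    have h1 : ⟪u N, z⟫_ℝ ≤ ‖z‖ / ε * M := by
      rcases eq_or_ne z 0 with h0 | h0
      · rw [h0]; simp
      have hn : 0 < ‖z‖ := norm_pos_iff.2 h0
      have h2 := hmax N _ (h.cone (hxK N g) (s := ε / ‖z‖) (by positivity)
        (by rw [div_mul_cancel₀ _ hn.ne']))
      rw [inner_add_right, real_inner_smul_right] at h2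
      have h3 : ε / ‖z‖ * ⟪u N, z⟫_ℝ ≤ M := by rw [hM]; linarith
      rw [div_mul_eq_mul_div, div_le_iff₀ hn] at h3
      rw [div_mul_eq_mul_div, le_div_iff₀ hε]
      linarith
    have h2 : M = ⟪u N, l⟫_ℝ + ⟪u N, z⟫_ℝ := by
      rw [← hsplit, inner_sub_right, hxu]
    have h3 : ⟪u N, l⟫_ℝ ≤ ‖b N‖ * R := by
      have h4 := hbi N ⟨l, pl_mem L _⟩
      simp only at h4
      rw [← h4]
      refine (real_inner_le_norm _ _).trans (mul_le_mul_of_nonneg_left ?_ (norm_nonneg _))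
      exact (norm_pl_le L _).trans (h.bnd _ (hxK N g))
    have h4 : ‖z‖ / ε * M ≤ 1 / 2 * M := by
      refine mul_le_mul_of_nonneg_right ?_ hM0.le
      rw [div_le_iff₀ hε]
      linarith
    have h5 : M ≤ 2 * R * ‖b N‖ := by linarith
    refine ⟨?_, h1.trans ?_⟩
    · by_contra h6
      have h7 : ‖b N‖ = 0 := le_antisymm (not_lt.1 h6) (norm_nonneg _)
      rw [h7, mul_zero] at h5
      linarith
    · calc ‖z‖ / ε * M ≤ ‖z‖ / ε * (2 * R * ‖b N‖) :=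
            mul_le_mul_of_nonneg_left h5 (by positivity)
        _ = ‖z‖ * (2 * R / ε) * ‖b N‖ := by ring
  -- (5) the limit of the `β` is a unit vector
  obtain ⟨g₀, hg₀, hg₀p⟩ := h₀
  have hbn : ‖bi‖ = 1 := by
    have h1 : Tendsto (fun k => ‖β (φ k)‖) atTop (𝓝 ‖bi‖) := hlβ.norm
    have h2 : ∀ᶠ k in atTop, ‖pz L (x (φ k) (⟨g₀, hg₀⟩ : H) - o')‖ < ε / 2 :=
      (hz0 ⟨g₀, hg₀⟩ hg₀p).eventually_lt_const (by positivity)
    have h3 : ∀ᶠ k in atTop, ‖β (φ k)‖ = 1 := by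
      filter_upwards [h2] with k hk
      have h4 := (hmain (φ k) ⟨g₀, hg₀⟩ hk.le).1
      rw [hβ]
      simp only
      rw [norm_smul, norm_inv, norm_norm, inv_mul_cancel₀ h4.ne']
    exact tendsto_nhds_unique h1 (tendsto_const_nhds.congr' (h3.mono fun k hk => hk.symm))
  have hb0 : bi ≠ 0 := by
    rintro h0
    rw [h0, norm_zero] at hbn
    norm_num at hbn
  -- (6) all the limits are maximal for `bi`
  have hmx : ∀ g : H, (hg : 0 < g.1.2) → ∀ y ∈ Sl K o' L,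
      ⟪bi, y⟫_ℝ ≤ ⟪bi, (⟨xi g - o', hxL g hg⟩ : L)⟫_ℝ := by
    intro g hg y hy
    have h2 : ∀ᶠ k in atTop, ‖pz L (x (φ k) g - o')‖ < ε / 2 :=
      (hz0 g hg).eventually_lt_const (by positivity)
    have h3 : ∀ᶠ k in atTop, ⟪β (φ k), y⟫_ℝ ≤
        ⟪β (φ k), (⟨pl L (x (φ k) g - o'), pl_mem L _⟩ : L)⟫_ℝ +
          ‖pz L (x (φ k) g - o')‖ * (2 * R / ε) := by
      filter_upwards [h2] with k hk
      obtain ⟨h4, h5⟩ := hmain (φ k) g hk.le
      set N := φ k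
      have h6 := hmax N _ hy
      rw [← hxu N g, inner_add_right] at h6
      have h7 := hsplit N (x N g - o')
      rw [inner_sub_right] at h7
      have h8 := hbi N y
      have h9 := hbi N ⟨pl L (x N g - o'), pl_mem L _⟩
      simp only at h9
      have h10 : ⟪b N, y⟫_ℝ ≤ ⟪b N, (⟨pl L (x N g - o'), pl_mem L _⟩ : L)⟫_ℝ +
          ‖pz L (x N g - o')‖ * (2 * R / ε) * ‖b N‖ := by
        rw [h8, h9]
        linarith
      rw [hβ]
      simp only
      rw [real_inner_smul_left, real_inner_smul_left]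
      have h11 := mul_le_mul_of_nonneg_left h10 (inv_nonneg.2 h4.le)
      rw [mul_add] at h11
      have h12 : ‖b N‖⁻¹ * (‖pz L (x N g - o')‖ * (2 * R / ε) * ‖b N‖) =
          ‖pz L (x N g - o')‖ * (2 * R / ε) := by
        field_simp
      rw [h12] at h11
      exact h11
    have h4 : Tendsto (fun k => ⟪β (φ k), y⟫_ℝ) atTop (𝓝 ⟪bi, y⟫_ℝ) :=
      hlβ.inner tendsto_const_nhds
    have h5 : Tendsto (fun k => (⟨pl L (x (φ k) g - o'), pl_mem L _⟩ : L)) atTop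
        (𝓝 ⟨xi g - o', hxL g hg⟩) := by
      rw [tendsto_subtype_rng]
      have h6 : Tendsto (fun k => (x (φ k) g - o') - pz L (x (φ k) g - o')) atTop
          (𝓝 ((xi g - o') - pz L (xi g - o'))) :=
        ((hlx g).sub_const o').sub (((pz_continuous L).tendsto _).comp ((hlx g).sub_const o'))
      rw [pz_of_mem (hxL g hg), sub_zero] at h6
      refine h6.congr fun k => ?_
      have := pl_add_pz L (x (φ k) g - o')
      exact sub_eq_of_eq_add this.symm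
    have h6 := (hlβ.inner h5).add ((hz0 g hg).mul_const (2 * R / ε))
    rw [zero_mul, add_zero] at h6
    exact le_of_tendsto_of_tendsto h4 h6 h3
  -- (7) the contradiction
  have h0S : (0 : L) ∈ Sl K o' L := by
    show o' + ((0 : L) : E) ∈ K
    rw [Submodule.coe_zero, add_zero]
    exact h.mem
  obtain ⟨y₀, hy₀, hy₀m⟩ := (Sl_compact h.cpt o' L).exists_isMaxOn ⟨0, h0S⟩
    (f := fun y => ⟪bi, y⟫_ℝ) (by fun_prop)
  obtain ⟨g, hg, hgp, hgs⟩ := hH bi y₀ hb0 hy₀ (fun y hy => hy₀m hy)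
  have hmem : (⟨xi ⟨g, hg⟩ - o', hxL ⟨g, hg⟩ hgp⟩ : L) ∈ Sl K o' L := by
    show o' + (xi ⟨g, hg⟩ - o') ∈ K
    rw [add_sub_cancel]
    exact hxKL _
  have h1 := hgs _ hmem (le_antisymm (hy₀m hmem) (hmx ⟨g, hg⟩ hgp y₀ hy₀))
  have h2 := hle ⟨g, hg⟩ hgp
  rw [Submodule.coe_inner] at h1
  simp only at h1 h2
  linarith

end Pool.Agent.N321.NB
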