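import Pool.Agent.N321.NB.Parb
import Pool.Agent.N321.NB.Semi

set_option autoImplicit false
set_option linter.unusedSectionVars false

/-!
# Blow-ups at corners: cones with a lineality space
-/

namespace Pool.Agent.N321.NB

open scoped InnerProductSpace Topology
open Metric Module Filter Set
open Pool.Agent.R753.SJ (Sepd strict_of_int)

variable {E : Type} [NormedAddCommGroup E] [InnerProductSpace ℝ E] [FiniteDimensional ℝ E]

/-- a closed cone with the lineality space `L` (at least), pointed in the orthogonal complement of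
`L` -/
structure Cn (T : Set E) (L : Submodule ℝ E) (e : E) (c : ℝ) : Prop where
  closed : IsClosed T
  zero : (0 : E) ∈ T
  smul : ∀ v ∈ T, ∀ a : ℝ, 0 < a → a • v ∈ T
  add : ∀ v ∈ T, ∀ l ∈ L, v + l ∈ T
  nrm : ‖e‖ = 1
  perp : ∀ l ∈ L, ⟪e, l⟫_ℝ = 0
  cpos : 0 < c
  pt : ∀ v ∈ T, v ∈ Lᗮ → c * ‖v‖ ≤ ⟪e, v⟫_ℝ

/-- the normal vector -/
noncomputable def gw (w e : E) {M : Submodule ℝ E} (g : M × ℝ) : E :=
  (g.1 : E) - ((g.2 + ⟪(g.1 : E), w⟫_ℝ) / ⟪e, w⟫_ℝ) • e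

variable {T : Set E} {L : Submodule ℝ E} {e w : E} {c : ℝ}

lemma Cn.e0 (h : Cn T L e c) : e ≠ 0 := by
  rintro rfl
  have := h.nrm
  simp at this

lemma Cn.ee (h : Cn T L e c) : ⟪e, e⟫_ℝ = 1 := by
  rw [real_inner_self_eq_norm_sq, h.nrm]; norm_num

lemma Cn.pos (h : Cn T L e c) {v : E} (hv : v ∈ T) (hvL : v ∈ Lᗮ) (hv0 : v ≠ 0) : 0 < ⟪e, v⟫_ℝ := by
  have h1 := h.pt v hv hvL
  have h2 : 0 < ‖v‖ := norm_pos_iff.2 hv0
  have h3 := h.cpos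
  have h4 : 0 < c * ‖v‖ := by positivity
  linarith

lemma Cn.inner_pz (h : Cn T L e c) (v : E) : ⟪e, pz L v⟫_ℝ = ⟪e, v⟫_ℝ := by
  have h1 := pl_add_pz L v
  have h2 := h.perp _ (pl_mem L v)
  calc ⟪e, pz L v⟫_ℝ = ⟪e, pl L v⟫_ℝ + ⟪e, pz L v⟫_ℝ := by rw [h2, zero_add]
    _ = ⟪e, v⟫_ℝ := by rw [← inner_add_right, h1]

lemma Cn.pz_mem (h : Cn T L e c) {v : E} (hv : v ∈ T) : pz L v ∈ T := by
  have h1 := h.add v hv (-(pl L v)) (L.neg_mem (pl_mem L v))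
  have h2 := pl_add_pz L v
  have h3 : v + -pl L v = pz L v := by
    nth_rewrite 1 [← h2]; abel
  rwa [h3] at h1

lemma Cn.gw_inner (hκ : 0 < ⟪e, w⟫_ℝ) {M : Submodule ℝ E} (g : M × ℝ) :
    ⟪gw w e g, w⟫_ℝ = -g.2 := by
  rw [gw, inner_sub_left, real_inner_smul_left, div_mul_cancel₀ _ hκ.ne']
  ring

lemma Cn.gw_perp (h : Cn T L e c) (g : MM L e × ℝ) {l : E} (hl : l ∈ L) :
    ⟪gw w e g, l⟫_ℝ = 0 := by
  rw [gw, inner_sub_left, real_inner_smul_left, h.perp l hl, real_inner_comm,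
    (mem_MM.1 g.1.2).1 l hl]
  ring

lemma Cn.Sl_compact (h : Cn T L e c) (w : E) : IsCompact (Sl T w (MM L e)) := by
  refine Metric.isCompact_of_isClosed_isBounded ?_ ?_
  · exact h.closed.preimage (by fun_prop : Continuous fun g : MM L e => w + (g : E))
  · rw [isBounded_iff_forall_norm_le]
    refine ⟨⟪e, w⟫_ℝ / c + ‖w‖, fun g hg => ?_⟩
    have hc := h.cpos
    have hg' : w + (g : E) ∈ T := hg
    have h1 := h.pt _ (h.pz_mem hg') (Pool.Agent.N321.NB.pz_mem L _)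
    rw [h.inner_pz, inner_add_right, (mem_MM.1 g.2).2, add_zero] at h1
    have hgL : pz L (g : E) = g := by
      have h3 : pl L (g : E) = 0 := by
        have h4 : ⟪pl L (g : E), (g : E)⟫_ℝ = 0 := (mem_MM.1 g.2).1 _ (pl_mem L _)
        have h5 : ⟪pl L (g : E), pz L (g : E)⟫_ℝ = 0 := inner_pz_of_mem (pl_mem L _) _
        have h6 := pl_add_pz L (g : E)
        have h7 : ⟪pl L (g : E), pl L (g : E)⟫_ℝ = 0 := by
          have : ⟪pl L (g : E), pl L (g : E) + pz L (g : E)⟫_ℝ = 0 := by rw [h6]; exact h4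
          rw [inner_add_right, h5, add_zero] at this
          exact this
        exact inner_self_eq_zero.1 h7
      have h6 := pl_add_pz L (g : E)
      rwa [h3, zero_add] at h6
    have h2 : pz L (w + (g : E)) = pz L w + g := by
      rw [← hgL]
      have : ∀ a b : E, pz L (a + b) = pz L a + pz L b := by
        intro a b
        simp only [pz, map_add]
        abel
      rw [this, hgL, hgL]
    rw [h2] at h1
    have h3 : ‖pz L w + (g : E)‖ ≤ ⟪e, w⟫_ℝ / c := by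
      rw [le_div_iff₀ hc]; linarith
    have h4 : ‖(g : E)‖ ≤ ‖pz L w + (g : E)‖ + ‖pz L w‖ := by
      have := norm_sub_le (pz L w + (g : E)) (pz L w)
      rwa [add_sub_cancel_left] at this
    have h5 := norm_pz_le L w
    show ‖(g : E)‖ ≤ _
    linarith

/-- the faces of the cone -/
theorem Cn.faces (h : Cn T L e c) (hw : w ∈ T) (hκ : 0 < ⟪e, w⟫_ℝ)
    (H : Finset (MM L e × ℝ)) (hHn : H.Nonempty)
    (hH : ∀ u x₀ : MM L e, u ≠ 0 → x₀ ∈ Sl T w (MM L e) →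
      (∀ y' ∈ Sl T w (MM L e), ⟪u, y'⟫_ℝ ≤ ⟪u, x₀⟫_ℝ) →
      ∃ g ∈ H, ∀ x ∈ Sl T w (MM L e), ⟪u, x⟫_ℝ = ⟪u, x₀⟫_ℝ → g.2 < ⟪g.1, x⟫_ℝ)
    {u : E} (hu : u ≠ 0) (hmax : ∀ v ∈ T, ⟪u, v⟫_ℝ ≤ 0) :
    ∃ g ∈ H, ∀ v ∈ T, v ∈ Lᗮ → ⟪u, v⟫_ℝ = 0 → v ≠ 0 → 0 < ⟪gw w e g, v⟫_ℝ := by
  classical
  have huL : ∀ l ∈ L, ⟪u, l⟫_ℝ = 0 := by
    intro l hl
    have h1 := hmax _ (h.add 0 h.zero l hl)
    have h2 := hmax _ (h.add 0 h.zero (-l) (L.neg_mem hl))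
    rw [zero_add] at h1 h2
    rw [inner_neg_right] at h2
    linarith
  set uM : E := u - ⟪u, e⟫_ℝ • e with huM
  have huMm : uM ∈ MM L e := by
    rw [mem_MM]
    refine ⟨fun l hl => ?_, ?_⟩
    · rw [huM, inner_sub_right, real_inner_smul_right, real_inner_comm u l, huL l hl,
        real_inner_comm e l, h.perp l hl]
      ring
    · rw [huM, inner_sub_right, real_inner_smul_right, h.ee, real_inner_comm]
      ring
  have huMi : ∀ m : MM L e, ⟪uM, (m : E)⟫_ℝ = ⟪u, (m : E)⟫_ℝ := by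
    intro m
    rw [huM, inner_sub_left, real_inner_smul_left, (mem_MM.1 m.2).2]
    ring
  by_cases h0 : uM = 0
  · obtain ⟨g, hg⟩ := hHn
    refine ⟨g, hg, fun v hv hvL hvu hv0 => ?_⟩
    exfalso
    have h1 : u = ⟪u, e⟫_ℝ • e := sub_eq_zero.1 h0
    have h2 : ⟪u, e⟫_ℝ ≠ 0 := by
      intro h3
      rw [h3, zero_smul] at h1
      exact hu h1
    rw [h1, real_inner_smul_left] at hvu
    have h3 := h.pos hv hvL hv0
    rcases mul_eq_zero.1 hvu with h4 | h4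
    · exact h2 h4
    · linarith
  · have hcomp := h.Sl_compact w
    have h0S : (0 : MM L e) ∈ Sl T w (MM L e) := by
      show w + ((0 : MM L e) : E) ∈ T
      rw [Submodule.coe_zero, add_zero]
      exact hw
    have hne : (⟨uM, huMm⟩ : MM L e) ≠ 0 := by
      intro h1
      exact h0 (congrArg Subtype.val h1)
    obtain ⟨m₀, hm₀, hm₀m⟩ := hcomp.exists_isMaxOn ⟨0, h0S⟩
      (f := fun y' => ⟪(⟨uM, huMm⟩ : MM L e), y'⟫_ℝ) (by fun_prop)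
    obtain ⟨g, hg, hgs⟩ := hH ⟨uM, huMm⟩ m₀ hne hm₀ (fun y' hy' => hm₀m hy')
    refine ⟨g, hg, fun v hv hvL hvu hv0 => ?_⟩
    have hv1 := h.pos hv hvL hv0
    set a : ℝ := ⟪e, w⟫_ℝ / ⟪e, v⟫_ℝ with ha
    have hapos : 0 < a := by positivity
    have hav : a * ⟪e, v⟫_ℝ = ⟪e, w⟫_ℝ := div_mul_cancel₀ _ hv1.ne'
    have hm'm : a • v - pz L w ∈ MM L e := by
      rw [mem_MM]
      refine ⟨fun l hl => ?_, ?_⟩
      · rw [inner_sub_right, real_inner_smul_right, inner_pz_of_mem hl,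
          (Submodule.mem_orthogonal _ _).1 hvL l hl]
        ring
      · rw [inner_sub_right, real_inner_smul_right, hav, h.inner_pz, sub_self]
    have hsec : (⟨a • v - pz L w, hm'm⟩ : MM L e) ∈ Sl T w (MM L e) := by
      show w + (a • v - pz L w) ∈ T
      have h1 : w + (a • v - pz L w) = a • v + pl L w := by
        have := pl_add_pz L w
        nth_rewrite 1 [← this]
        abel
      rw [h1]
      exact h.add _ (h.smul v hv a hapos) _ (pl_mem L w)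
    have huw : ⟪u, pz L w⟫_ℝ = ⟪u, w⟫_ℝ := by
      have h1 := pl_add_pz L w
      calc ⟪u, pz L w⟫_ℝ = ⟪u, pl L w⟫_ℝ + ⟪u, pz L w⟫_ℝ := by
            rw [huL _ (pl_mem L w), zero_add]
        _ = ⟪u, w⟫_ℝ := by rw [← inner_add_right, h1]
    have heq : ⟪(⟨uM, huMm⟩ : MM L e), (⟨a • v - pz L w, hm'm⟩ : MM L e)⟫_ℝ =
        ⟪(⟨uM, huMm⟩ : MM L e), m₀⟫_ℝ := by
      refine le_antisymm (hm₀m hsec) ?_
      rw [Submodule.coe_inner, Submodule.coe_inner]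
      show ⟪uM, (m₀ : E)⟫_ℝ ≤ ⟪uM, ((⟨a • v - pz L w, hm'm⟩ : MM L e) : E)⟫_ℝ
      rw [huMi, huMi]
      show ⟪u, (m₀ : E)⟫_ℝ ≤ ⟪u, a • v - pz L w⟫_ℝ
      have h3 := hmax _ hm₀
      rw [inner_add_right] at h3
      rw [inner_sub_right, real_inner_smul_right, hvu, huw]
      linarith
    have h1 := hgs _ hsec heq
    rw [Submodule.coe_inner] at h1
    have h2 : g.2 < ⟪(g.1 : E), a • v - pz L w⟫_ℝ := h1
    have hgw : ⟪(g.1 : E), pz L w⟫_ℝ = ⟪(g.1 : E), w⟫_ℝ := by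
      have h1 := pl_add_pz L w
      have h3 : ⟪(g.1 : E), pl L w⟫_ℝ = 0 := by
        rw [real_inner_comm]
        exact (mem_MM.1 g.1.2).1 _ (pl_mem L w)
      calc ⟪(g.1 : E), pz L w⟫_ℝ = ⟪(g.1 : E), pl L w⟫_ℝ + ⟪(g.1 : E), pz L w⟫_ℝ := by
            rw [h3, zero_add]
        _ = ⟪(g.1 : E), w⟫_ℝ := by rw [← inner_add_right, h1]
    rw [inner_sub_right, real_inner_smul_right, hgw] at h2
    rw [gw, inner_sub_left, real_inner_smul_left]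
    have h4 : (g.2 + ⟪(g.1 : E), w⟫_ℝ) / ⟪e, w⟫_ℝ * ⟪e, v⟫_ℝ < ⟪(g.1 : E), v⟫_ℝ := by
      rw [div_mul_eq_mul_div, div_lt_iff₀ hκ]
      have h5 : g.2 + ⟪(g.1 : E), w⟫_ℝ < a * ⟪(g.1 : E), v⟫_ℝ := by linarith
      have h6 := mul_lt_mul_of_pos_right h5 hv1
      have h7 : a * ⟪(g.1 : E), v⟫_ℝ * ⟪e, v⟫_ℝ = ⟪(g.1 : E), v⟫_ℝ * ⟪e, w⟫_ℝ := by
        rw [← hav]; ring
      linarith
    linarith

/-- the quantitative version -/
theorem Cn.quant (h : Cn T L e c) (hw : w ∈ T) (hκ : 0 < ⟪e, w⟫_ℝ)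
    (H : Finset (MM L e × ℝ)) (hHn : H.Nonempty)
    (hH : ∀ u x₀ : MM L e, u ≠ 0 → x₀ ∈ Sl T w (MM L e) →
      (∀ y' ∈ Sl T w (MM L e), ⟪u, y'⟫_ℝ ≤ ⟪u, x₀⟫_ℝ) →
      ∃ g ∈ H, ∀ x ∈ Sl T w (MM L e), ⟪u, x⟫_ℝ = ⟪u, x₀⟫_ℝ → g.2 < ⟪g.1, x⟫_ℝ) :
    ∃ σ B : ℝ, 0 < σ ∧ 0 ≤ B ∧ ∀ u : E, ‖u‖ = 1 → (∀ v ∈ T, ⟪u, v⟫_ℝ ≤ 0) →
      ∃ g ∈ H, ∀ X ∈ T, X ∈ Lᗮ → ∀ τ : ℝ, 0 ≤ τ → -τ ≤ ⟪u, X⟫_ℝ →
        σ * ⟪e, X⟫_ℝ - B * τ ≤ ⟪gw w e g, X⟫_ℝ := by
  classical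
  have hc := h.cpos
  -- the compact version
  obtain ⟨σ, hσ, hσP⟩ : ∃ σ : ℝ, 0 < σ ∧ ∀ u : E, ‖u‖ = 1 → (∀ v ∈ T, ⟪u, v⟫_ℝ ≤ 0) →
      ∃ g ∈ H, ∀ X ∈ T, X ∈ Lᗮ → ⟪e, X⟫_ℝ = 1 → -σ ≤ ⟪u, X⟫_ℝ → σ ≤ ⟪gw w e g, X⟫_ℝ := by
    by_contra hcon
    push Not at hcon
    choose u hu huT hbad using fun k : ℕ => hcon (1 / ((k : ℝ) + 1)) (by positivity)
    obtain ⟨ui, hui, φ, hφ, hlu⟩ := (isCompact_sphere (0 : E) 1).tendsto_subseq
      (x := u) (fun k => by simpa using hu k)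
    have hui1 : ‖ui‖ = 1 := by simpa using hui
    have hui0 : ui ≠ 0 := by
      intro h1; rw [h1, norm_zero] at hui1; norm_num at hui1
    have huiT : ∀ v ∈ T, ⟪ui, v⟫_ℝ ≤ 0 := fun v hv =>
      le_of_tendsto (hlu.inner tendsto_const_nhds) (Eventually.of_forall fun k => huT _ v hv)
    obtain ⟨g, hg, hgs⟩ := h.faces hw hκ H hHn hH hui0 huiT
    choose X hXT hXL hX1 hXu hXg using fun k => hbad k g hg
    have hXb : ∀ k, ‖X k‖ ≤ 1 / c := by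
      intro k
      rw [le_div_iff₀ hc]
      have := h.pt _ (hXT k) (hXL k)
      rw [hX1] at this
      linarith
    obtain ⟨Xi, -, ψ, hψ, hlX⟩ := (isCompact_closedBall (0 : E) (1 / c)).tendsto_subseq
      (x := fun k => X (φ k)) (fun k => by simpa using hXb (φ k))
    have hXiT : Xi ∈ T := h.closed.mem_of_tendsto hlX (Eventually.of_forall fun k => hXT _)
    have hXiL : Xi ∈ Lᗮ := L.isClosed_orthogonal.mem_of_tendsto hlX
      (Eventually.of_forall fun k => hXL _)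
    have hXi1 : ⟪e, Xi⟫_ℝ = 1 := by
      refine tendsto_nhds_unique ((tendsto_const_nhds (x := e)).inner hlX) ?_
      exact tendsto_const_nhds.congr fun k => (hX1 _).symm
    have hXi0 : Xi ≠ 0 := by
      intro h1; rw [h1, inner_zero_right] at hXi1; norm_num at hXi1
    have hl0 : Tendsto (fun k => 1 / (((φ (ψ k) : ℕ) : ℝ) + 1)) atTop (𝓝 0) :=
      tendsto_one_div_add_atTop_nhds_zero_nat.comp ((hφ.comp hψ).tendsto_atTop)
    have hXiu : ⟪ui, Xi⟫_ℝ = 0 := by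
      refine le_antisymm (huiT _ hXiT) ?_
      have h1 : Tendsto (fun k => ⟪u (φ (ψ k)), X (φ (ψ k))⟫_ℝ) atTop (𝓝 ⟪ui, Xi⟫_ℝ) :=
        (hlu.comp hψ.tendsto_atTop).inner hlX
      have h2 := le_of_tendsto_of_tendsto' hl0.neg h1 (fun k => hXu _)
      rwa [neg_zero] at h2
    have h3 := hgs Xi hXiT hXiL hXiu hXi0
    have h4 : ⟪gw w e g, Xi⟫_ℝ ≤ 0 :=
      le_of_tendsto_of_tendsto' ((tendsto_const_nhds (x := gw w e g)).inner hlX) hl0
        (fun k => (hXg _).le)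
    linarith
  -- the general version
  obtain ⟨G, hG0, hG⟩ : ∃ G : ℝ, 0 ≤ G ∧ ∀ g ∈ H, ‖gw w e g‖ ≤ G := by
    refine ⟨∑ g ∈ H, ‖gw w e g‖, Finset.sum_nonneg fun _ _ => norm_nonneg _, fun g hg => ?_⟩
    exact Finset.single_le_sum (f := fun g => ‖gw w e g‖) (fun _ _ => norm_nonneg _) hg
  refine ⟨σ, (G / c + σ) / σ, hσ, by positivity, fun u hu huT => ?_⟩
  obtain ⟨g, hg, hgs⟩ := hσP u hu huT
  refine ⟨g, hg, fun X hX hXL τ hτ hXu => ?_⟩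
  rcases eq_or_ne X 0 with rfl | hX0
  · rw [inner_zero_right, inner_zero_right, mul_zero, zero_sub, neg_nonpos]
    positivity
  have hs := h.pos hX hXL hX0
  set s : ℝ := ⟪e, X⟫_ℝ with hsdef
  by_cases hcase : τ ≤ σ * s
  · have h1 := hgs (s⁻¹ • X) (h.smul X hX _ (inv_pos.2 hs)) (Lᗮ.smul_mem _ hXL) (by
      rw [real_inner_smul_right, ← hsdef, inv_mul_cancel₀ hs.ne']) (by
      rw [real_inner_smul_right, inv_mul_eq_div, le_div_iff₀ hs]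
      linarith)
    rw [real_inner_smul_right, inv_mul_eq_div, le_div_iff₀ hs] at h1
    have h2 : 0 ≤ (G / c + σ) / σ * τ := by positivity
    linarith
  · push Not at hcase
    have h1 : ‖X‖ ≤ s / c := by
      rw [le_div_iff₀ hc]
      have := h.pt X hX hXL
      linarith
    have h2 : -(G * (s / c)) ≤ ⟪gw w e g, X⟫_ℝ := by
      have h3 := abs_real_inner_le_norm (gw w e g) X
      have h4 : ‖gw w e g‖ * ‖X‖ ≤ G * (s / c) :=
        mul_le_mul (hG g hg) h1 (norm_nonneg _) hG0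
      have := neg_abs_le ⟪gw w e g, X⟫_ℝ
      linarith
    have h3 : (G / c + σ) * s ≤ (G / c + σ) / σ * τ := by
      rw [div_mul_eq_mul_div, le_div_iff₀ hσ]
      have : 0 ≤ G / c + σ := by positivity
      nlinarith
    have h4 : G * (s / c) = G / c * s := by ring
    linarith

end Pool.Agent.N321.NB
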