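import Pool.Agent.N321.NB.Corner

set_option autoImplicit false
set_option linter.unusedSectionVars false

/-!
# Blow-ups at corners of intersections of positively curved bodies
-/

namespace Pool.Agent.N321.NB

open scoped InnerProductSpace Topology
open Metric Module Filter Set
open Pool.Agent.R753.SJ (Sepd strict_of_int)

variable {E : Type} [NormedAddCommGroup E] [InnerProductSpace ℝ E] [FiniteDimensional ℝ E]

lemma Lo.toLc {C : Set E} {K : ℕ → Set E} (h : Lo C K) (h0 : (0 : E) ∈ interior C) {e : E}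
    (hrec : ∀ d : E, d ≠ 0 → (∀ s : ℝ, 0 ≤ s → s • d ∈ C) → 0 < ⟪e, d⟫_ℝ) (κ : ℝ) :
    Lc C e κ K := by
  refine ⟨h.cvx, h.inn, h.out, ?_⟩
  by_contra hcon
  push Not at hcon
  obtain ⟨φ, hφ, hφP⟩ := extraction_forall_of_frequently (P := fun j k =>
    (∃ x ∈ K k, ⟪e, x⟫_ℝ ≤ κ ∧ (j : ℝ) < ‖x‖) ∧ 0 ∈ K k) (fun j =>
      (hcon j).and_eventually (h.inn 0 h0))
  choose x hxK hxe hxn using fun j => (hφP j).1
  have hinf : Tendsto (fun k => ‖x k‖) atTop atTop :=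
    tendsto_atTop_mono (fun k => (hxn k).le) tendsto_natCast_atTop_atTop
  obtain ⟨θ, d, hθ, hd1, hld, hdC⟩ := (h.sub hφ).recession hxK (fun k => (hφP k).2) hinf
  have hd0 : d ≠ 0 := by
    intro h3; rw [h3, norm_zero] at hd1; norm_num at hd1
  have h1 := hrec d hd0 hdC
  have hinv : Tendsto (fun k => ‖x (θ k)‖⁻¹ * κ) atTop (𝓝 (0 * κ)) :=
    ((hinf.comp hθ.tendsto_atTop).inv_tendsto_atTop).mul_const κ
  rw [zero_mul] at hinv
  have h2 : ⟪e, d⟫_ℝ ≤ 0 := by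
    refine le_of_tendsto_of_tendsto' ((tendsto_const_nhds (x := e)).inner hld) hinv fun k => ?_
    rw [real_inner_smul_right]
    exact mul_le_mul_of_nonneg_left (hxe _) (inv_nonneg.2 (norm_nonneg _))
  linarith

lemma pl_combo (L : Submodule ℝ E) (x z : E) (a b : ℝ) :
    pl L (a • x + b • z) = a • pl L x + b • pl L z := by
  simp only [pl, map_add, map_smul]

lemma pz_combo (L : Submodule ℝ E) (x z : E) (a b : ℝ) :
    pz L (a • x + b • z) = a • pz L x + b • pz L z := by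
  simp only [pz, map_add, map_smul, smul_sub]
  abel

lemma pl_add (L : Submodule ℝ E) (x z : E) : pl L (x + z) = pl L x + pl L z := by
  simp only [pl, map_add]

lemma pz_add (L : Submodule ℝ E) (x z : E) : pz L (x + z) = pz L x + pz L z := by
  simp only [pz, map_add]
  abel

lemma pl_smul (L : Submodule ℝ E) (a : ℝ) (z : E) : pl L (a • z) = a • pl L z := by
  simp only [pl, map_smul]

lemma pl_cont (L : Submodule ℝ E) : Continuous (pl L) := by
  unfold pl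
  fun_prop

lemma pl_of_mem {L : Submodule ℝ E} {v : E} (hv : v ∈ L) : pl L v = v := by
  have h1 := pl_add_pz L v
  rwa [Pool.Agent.N321.NB.pz_of_mem hv, add_zero] at h1

lemma pl_pz (L : Submodule ℝ E) (v : E) : pl L (pz L v) = 0 := by
  have h1 := pl_add L (pl L v) (pz L v)
  rw [pl_add_pz, pl_of_mem (pl_mem L v)] at h1
  simpa using h1.symm

lemma pz_pz (L : Submodule ℝ E) (v : E) : pz L (pz L v) = pz L v := by
  have h1 := pl_add_pz L (pz L v)
  rwa [pl_pz, zero_add] at h1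

lemma inner_pl_right {L : Submodule ℝ E} {u : E} (hu : u ∈ L) (v : E) :
    ⟪u, pl L v⟫_ℝ = ⟪u, v⟫_ℝ := by
  have h1 := pl_add_pz L v
  calc ⟪u, pl L v⟫_ℝ = ⟪u, pl L v⟫_ℝ + ⟪u, pz L v⟫_ℝ := by rw [inner_pz_of_mem hu, add_zero]
    _ = ⟪u, v⟫_ℝ := by rw [← inner_add_right, h1]

lemma inner_pz_right {L : Submodule ℝ E} {u : E} (hu : ∀ l ∈ L, ⟪u, l⟫_ℝ = 0) (v : E) :
    ⟪u, pz L v⟫_ℝ = ⟪u, v⟫_ℝ := by
  have h1 := pl_add_pz L v
  calc ⟪u, pz L v⟫_ℝ = ⟪u, pl L v⟫_ℝ + ⟪u, pz L v⟫_ℝ := by rw [hu _ (pl_mem L v), zero_add]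
    _ = ⟪u, v⟫_ℝ := by rw [← inner_add_right, h1]

lemma inner_pz_left (L : Submodule ℝ E) (u v : E) : ⟪pz L u, v⟫_ℝ = ⟪u, pz L v⟫_ℝ := by
  have h1 := pl_add_pz L v
  have h2 := pl_add_pz L u
  have h3 : ⟪pz L u, pl L v⟫_ℝ = 0 := by
    rw [real_inner_comm]; exact inner_pz_of_mem (pl_mem L v) u
  have h4 : ⟪pl L u, pz L v⟫_ℝ = 0 := inner_pz_of_mem (pl_mem L u) v
  calc ⟪pz L u, v⟫_ℝ = ⟪pz L u, pl L v⟫_ℝ + ⟪pz L u, pz L v⟫_ℝ := by
        rw [← inner_add_right, h1]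
    _ = ⟪pl L u, pz L v⟫_ℝ + ⟪pz L u, pz L v⟫_ℝ := by rw [h3, h4]
    _ = ⟪u, pz L v⟫_ℝ := by rw [← inner_add_left, h2]

/-- the data at a corner -/
structure Co {ι : Type} (f : ι → E) (A : ι → E →L[ℝ] E) (L : Submodule ℝ E) (c : ℝ) : Prop where
  nrm : ∀ i, ‖f i‖ = 1
  cpos : 0 < c
  pd : ∀ i x, ⟪f i, x⟫_ℝ = 0 → c * ‖x‖ ^ 2 ≤ Qf (A i) x
  mem : ∀ v, v ∈ L ↔ ∀ i, ⟪f i, v⟫_ℝ = 0

/-- the limit set -/
def Lm {ι : Type} (f : ι → E) (A : ι → E →L[ℝ] E) (L : Submodule ℝ E) (w : E) : Set E :=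
  {z | ∀ i, Qf (A i) (pl L z) ≤ ⟪f i, w + z⟫_ℝ}

variable {ι : Type} [Finite ι] [Nonempty ι] {f : ι → E} {A : ι → E →L[ℝ] E}
  {L : Submodule ℝ E} {c : ℝ} {w e : E} {c' : ℝ}

lemma Co.fL (h : Co f A L c) (i : ι) : ∀ l ∈ L, ⟪f i, l⟫_ℝ = 0 := fun l hl => (h.mem l).1 hl i

lemma Co.fpl (h : Co f A L c) (i : ι) (v : E) : ⟪f i, pl L v⟫_ℝ = 0 := h.fL i _ (pl_mem L v)

lemma Co.fpz (h : Co f A L c) (i : ι) (v : E) : ⟪f i, pz L v⟫_ℝ = ⟪f i, v⟫_ℝ :=
  inner_pz_right (h.fL i) v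

lemma Co.Q0 (h : Co f A L c) (i : ι) (v : E) : 0 ≤ Qf (A i) (pl L v) :=
  (by have := h.cpos; positivity : 0 ≤ c * ‖pl L v‖ ^ 2).trans (h.pd i _ (h.fpl i v))

lemma Lm_closed (f : ι → E) (A : ι → E →L[ℝ] E) (L : Submodule ℝ E) (w : E) :
    IsClosed (Lm f A L w) := by
  have : Lm f A L w = ⋂ i, {z | Qf (A i) (pl L z) ≤ ⟪f i, w + z⟫_ℝ} := by
    ext z; simp [Lm]
  rw [this]
  exact isClosed_iInter fun i => isClosed_le ((Qf_cont _).comp (pl_cont L)) (by fun_prop)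

lemma Co.convex (h : Co f A L c) (w : E) : Convex ℝ (Lm f A L w) := by
  intro x hx z hz a b ha hb hab i
  have hx' := hx i
  have hz' := hz i
  rw [pl_combo, Qf_combo _ _ _ hab, inner_add_right, inner_add_right, real_inner_smul_right,
    real_inner_smul_right]
  rw [inner_add_right] at hx' hz'
  have h1 : 0 ≤ Qf (A i) (pl L x - pl L z) := by
    have hc := h.cpos
    refine (by positivity : 0 ≤ c * ‖pl L x - pl L z‖ ^ 2).trans (h.pd i _ ?_)
    rw [inner_sub_right, h.fpl, h.fpl, sub_zero]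
  have h2 : 0 ≤ a * b * Qf (A i) (pl L x - pl L z) := by positivity
  have h3 := mul_le_mul_of_nonneg_left hx' ha
  have h4 := mul_le_mul_of_nonneg_left hz' hb
  have h5 : b = 1 - a := by linarith
  subst h5
  nlinarith

lemma Co.int (h : Co f A L c) (hw : ∀ i, 0 < ⟪f i, w⟫_ℝ) {z : E} :
    z ∈ interior (Lm f A L w) ↔ ∀ i, Qf (A i) (pl L z) < ⟪f i, w + z⟫_ℝ := by
  constructor
  · intro hz i
    have hzm : z ∈ Lm f A L w := interior_subset hz
    refine lt_of_le_of_ne (hzm i) fun heq => ?_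
    have hcont : Continuous fun s : ℝ => z - s • pz L w := by fun_prop
    have hz0 : z - (0 : ℝ) • pz L w ∈ interior (Lm f A L w) := by
      rwa [zero_smul, sub_zero]
    have hev : ∀ᶠ s in 𝓝 (0 : ℝ), z - s • pz L w ∈ interior (Lm f A L w) :=
      hcont.continuousAt.eventually (isOpen_interior.mem_nhds hz0)
    obtain ⟨s, hs, hs1⟩ := ((hev.filter_mono (nhdsWithin_le_nhds (s := Set.Ioi 0))).and
      self_mem_nhdsWithin).exists
    have hs1' : (0 : ℝ) < s := hs1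
    have hsm : z - s • pz L w ∈ Lm f A L w := interior_subset hs
    have h2 := hsm i
    have h3 : pl L (z - s • pz L w) = pl L z := by
      have := pl_combo L z (pz L w) 1 (-s)
      rw [one_smul, one_smul, pl_pz, smul_zero, add_zero, neg_smul, ← sub_eq_add_neg] at this
      exact this
    rw [h3, heq, inner_add_right, inner_add_right, inner_sub_right, real_inner_smul_right,
      h.fpz] at h2
    have := mul_pos hs1' (hw i)
    linarith
  · intro hz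
    have ho : IsOpen {z : E | ∀ i, Qf (A i) (pl L z) < ⟪f i, w + z⟫_ℝ} := by
      have : {z : E | ∀ i, Qf (A i) (pl L z) < ⟪f i, w + z⟫_ℝ} =
          ⋂ i, {z | Qf (A i) (pl L z) < ⟪f i, w + z⟫_ℝ} := by
        ext z; simp
      rw [this]
      exact isOpen_iInter_of_finite fun i =>
        isOpen_lt ((Qf_cont _).comp (pl_cont L)) (by fun_prop)
    have hsub : {z : E | ∀ i, Qf (A i) (pl L z) < ⟪f i, w + z⟫_ℝ} ⊆ Lm f A L w :=
      fun z hz i => (hz i).le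
    exact interior_maximal hsub ho hz

/-- strictness in the directions of `L` -/
lemma Co.face (h : Co f A L c) (hw : ∀ i, 0 < ⟪f i, w⟫_ℝ) {u q x : E} (hu : u ≠ 0)
    (hq : q ∈ Lm f A L w) (hmax : ∀ x ∈ Lm f A L w, ⟪u, x⟫_ℝ ≤ ⟪u, q⟫_ℝ)
    (hx : x ∈ Lm f A L w) (hxu : ⟪u, x⟫_ℝ = ⟪u, q⟫_ℝ) : pl L x = pl L q := by
  by_contra hne
  have hm : (1 / 2 : ℝ) • x + (1 / 2 : ℝ) • q ∈ interior (Lm f A L w) := by
    rw [h.int hw]
    intro i
    have hx' := hx i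
    have hq' := hq i
    rw [pl_combo, Qf_combo _ _ _ (by norm_num), inner_add_right, inner_add_right,
      real_inner_smul_right, real_inner_smul_right]
    rw [inner_add_right] at hx' hq'
    have h1 : 0 < Qf (A i) (pl L x - pl L q) := by
      have hc := h.cpos
      have hn : 0 < ‖pl L x - pl L q‖ := norm_pos_iff.2 (sub_ne_zero.2 hne)
      refine lt_of_lt_of_le (by positivity : 0 < c * ‖pl L x - pl L q‖ ^ 2) (h.pd i _ ?_)
      rw [inner_sub_right, h.fpl, h.fpl, sub_zero]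
    linarith
  refine not_int_of_max hu (fun z hz => ?_) hm
  rw [inner_add_right, real_inner_smul_right, real_inner_smul_right, hxu]
  have := hmax z hz
  linarith

lemma growth {α a b : ℝ} (hα : 0 < α) (h : ∀ s : ℝ, 0 ≤ s → α * s ^ 2 ≤ a + b * s) : False := by
  set s : ℝ := (|a| + |b|) / α + 1 with hs
  have hs1 : 1 ≤ s := by
    rw [hs]
    have : 0 ≤ (|a| + |b|) / α := by positivity
    linarith
  have h1 := h s (by linarith)
  have h2 : α * s = |a| + |b| + α := by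
    rw [hs]; field_simp
  have h3 : α * s ^ 2 = s * (|a| + |b| + α) := by rw [← h2]; ring
  have h4 := le_abs_self a
  have h5 := le_abs_self b
  have h6 := abs_nonneg a
  have h7 := abs_nonneg b
  nlinarith

/-- recession directions of the limit set -/
lemma Co.recession (h : Co f A L c) {d : E} (hd : ∀ s : ℝ, 0 ≤ s → s • d ∈ Lm f A L w) :
    d ∈ Lᗮ ∧ ∀ i, 0 ≤ ⟪f i, d⟫_ℝ := by
  have hpl : pl L d = 0 := by
    by_contra hne
    have hn : 0 < ‖pl L d‖ := norm_pos_iff.2 hne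
    have hc := h.cpos
    obtain ⟨i⟩ := (inferInstance : Nonempty ι)
    refine growth (α := c * ‖pl L d‖ ^ 2) (a := ⟪f i, w⟫_ℝ) (b := ⟪f i, d⟫_ℝ) (by positivity)
      fun s hs => ?_
    have h1 := hd s hs i
    rw [pl_smul, Qf_smul, inner_add_right, real_inner_smul_right] at h1
    have h2 := h.pd i _ (h.fpl i d)
    have h3 := mul_le_mul_of_nonneg_left h2 (sq_nonneg s)
    linarith
  refine ⟨?_, fun i => ?_⟩
  · have h1 := pl_add_pz L d
    rw [hpl, zero_add] at h1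
    rw [← h1]
    exact pz_mem L d
  · by_contra hneg
    push Not at hneg
    have h1 := hd ((|⟪f i, w⟫_ℝ| + 1) / (-⟪f i, d⟫_ℝ)) (div_nonneg (by positivity) (by linarith)) i
    have h2 := h.Q0 i (((|⟪f i, w⟫_ℝ| + 1) / (-⟪f i, d⟫_ℝ)) • d)
    rw [inner_add_right, real_inner_smul_right] at h1
    have h3 : (|⟪f i, w⟫_ℝ| + 1) / (-⟪f i, d⟫_ℝ) * ⟪f i, d⟫_ℝ = -(|⟪f i, w⟫_ℝ| + 1) := by
      have : ⟪f i, d⟫_ℝ ≠ 0 := hneg.ne
      field_simp
    rw [h3] at h1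
    have := le_abs_self ⟪f i, w⟫_ℝ
    linarith

end Pool.Agent.N321.NB
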