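import Pool.Agent.N321.NB.Cornerb

set_option autoImplicit false
set_option linter.unusedSectionVars false

/-!
# Blow-ups at corners of intersections of positively curved bodies: the hyperplanes
-/

namespace Pool.Agent.N321.NB

open scoped InnerProductSpace Topology
open Metric Module Filter Set
open Pool.Agent.R753.SJ (Sepd strict_of_int)

variable {E : Type} [NormedAddCommGroup E] [InnerProductSpace ℝ E] [FiniteDimensional ℝ E]
variable {ι : Type} [Finite ι] [Nonempty ι] {f : ι → E} {A : ι → E →L[ℝ] E}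
  {L : Submodule ℝ E} {c : ℝ} {w e : E} {c' : ℝ}

/-- the tangent cone at the corner -/
def Tf {ι : Type} (f : ι → E) : Set E := {v | ∀ i, 0 ≤ ⟪f i, v⟫_ℝ}

lemma Co.cone (h : Co f A L c) (he : ‖e‖ = 1) (heL : ∀ l ∈ L, ⟪e, l⟫_ℝ = 0)
    (hpos : ∀ v ∈ Tf f, v ∈ Lᗮ → v ≠ 0 → 0 < ⟪e, v⟫_ℝ) : ∃ c' : ℝ, Cn (Tf f) L e c' := by
  have hcl : IsClosed (Tf f) := by
    have : Tf f = ⋂ i, {z | 0 ≤ ⟪f i, z⟫_ℝ} := by
      ext z; simp [Tf]
    rw [this]
    exact isClosed_iInter fun i => isClosed_le continuous_const (by fun_prop)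
  have hsm : ∀ v ∈ Tf f, ∀ a : ℝ, 0 < a → a • v ∈ Tf f := by
    intro v hv a ha i
    rw [real_inner_smul_right]
    exact mul_nonneg ha.le (hv i)
  obtain ⟨c', hc', hc'P⟩ : ∃ c' : ℝ, 0 < c' ∧ ∀ v ∈ Tf f, v ∈ Lᗮ → ‖v‖ = 1 → c' ≤ ⟪e, v⟫_ℝ := by
    have hcomp : IsCompact (sphere (0 : E) 1 ∩ (Tf f ∩ (Lᗮ : Set E))) :=
      (isCompact_sphere _ _).inter_right (hcl.inter L.isClosed_orthogonal)
    rcases (sphere (0 : E) 1 ∩ (Tf f ∩ (Lᗮ : Set E))).eq_empty_or_nonempty with h0 | h0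
    · refine ⟨1, one_pos, fun v hv hvL hv1 => ?_⟩
      exfalso
      have : v ∈ sphere (0 : E) 1 ∩ (Tf f ∩ (Lᗮ : Set E)) := ⟨by simpa using hv1, hv, hvL⟩
      rw [h0] at this
      exact this
    · obtain ⟨v₀, ⟨hv1, hv2, hv3⟩, hmin⟩ := hcomp.exists_isMinOn h0
        (f := fun v => ⟪e, v⟫_ℝ) (by fun_prop)
      have hv0 : v₀ ≠ 0 := by
        rintro rfl
        simp at hv1
      exact ⟨⟪e, v₀⟫_ℝ, hpos _ hv2 hv3 hv0, fun v hv hvL hvn =>
        hmin (show v ∈ _ from ⟨by simpa using hvn, hv, hvL⟩)⟩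
  refine ⟨c', hcl, fun i => by rw [inner_zero_right], hsm, fun v hv l hl i => ?_, he, heL, hc',
    fun v hv hvL => ?_⟩
  · rw [inner_add_right, h.fL i l hl, add_zero]
    exact hv i
  · rcases eq_or_ne v 0 with rfl | hv0
    · simp
    have hn : 0 < ‖v‖ := norm_pos_iff.2 hv0
    have h1 := hc'P (‖v‖⁻¹ • v) (hsm v hv _ (inv_pos.2 hn)) (Lᗮ.smul_mem _ hvL) (by
      rw [norm_smul, norm_inv, norm_norm, inv_mul_cancel₀ hn.ne'])
    rw [real_inner_smul_right, inv_mul_eq_div, le_div_iff₀ hn] at h1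
    exact h1

/-- the hyperplanes at the corner -/
theorem Co.hyp (h : Co f A L c) (hw : ∀ i, 0 < ⟪f i, w⟫_ℝ) (hT : Cn (Tf f) L e c')
    {n : ℕ} (hn : 1 ≤ n) (hs : Sepd n (Sl (Tf f) w (MM L e)) 0) :
    ∃ H : Finset (E × ℝ), H.card ≤ finrank ℝ L + n ∧ (∀ p ∈ H, p.1 ≠ 0 ∧ 0 < p.2) ∧
    ∀ u q : E, u ≠ 0 → q ∈ Lm f A L w → (∀ x ∈ Lm f A L w, ⟪u, x⟫_ℝ ≤ ⟪u, q⟫_ℝ) →
      ⟪e, q⟫_ℝ ≤ 1 →
      ∃ p ∈ H, (∀ x ∈ Lm f A L w, ⟪u, x⟫_ℝ = ⟪u, q⟫_ℝ → p.2 < ⟪p.1, x⟫_ℝ) ∧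
        ∀ d : E, d ≠ 0 → (∀ s : ℝ, 0 ≤ s → s • d ∈ Lm f A L w) → ⟪u, d⟫_ℝ = 0 →
          0 < ⟪p.1, d⟫_ℝ := by
  classical
  have hwT : w ∈ Tf f := fun i => (hw i).le
  have hc := h.cpos
  have hc' := hT.cpos
  have hκ : 0 < ⟪e, w⟫_ℝ := by
    have h1 : pz L w ≠ 0 := by
      intro h0
      obtain ⟨i⟩ := (inferInstance : Nonempty ι)
      have h2 := hw i
      rw [← h.fpz, h0, inner_zero_right] at h2
      exact lt_irrefl _ h2
    have h2 := hT.pos (hT.pz_mem hwT) (pz_mem L w) h1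
    rwa [hT.inner_pz] at h2
  obtain ⟨Hs, hHc, hHn, hHp, hH⟩ := pos_finset hn hs
  obtain ⟨σ, B, hσ, hB, hq⟩ := hT.quant hwT hκ Hs hHn hH
  obtain ⟨W', S, hWc, hS, hW'⟩ := dirs L
  set W : Finset E := W'.image (fun v : L => (v : E)) with hWdef
  have hWL : ∀ v ∈ W, v ∈ L := by
    intro v hv
    obtain ⟨v', -, rfl⟩ := Finset.mem_image.1 hv
    exact v'.2
  have hW : ∀ l ∈ L, ∃ v ∈ W, S * ‖l‖ ≤ ⟪v, l⟫_ℝ := by
    intro l hl
    obtain ⟨v, hv, h1⟩ := hW' ⟨l, hl⟩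
    exact ⟨v, Finset.mem_image_of_mem _ hv, h1⟩
  have hWcard : W.card ≤ finrank ℝ L + 1 := Finset.card_image_le.trans hWc
  obtain ⟨w₀, hw₀, -⟩ := hW 0 L.zero_mem
  have hw₀L := hWL w₀ hw₀
  -- constants
  obtain ⟨β, hβ, hβP⟩ : ∃ β : ℝ, 0 ≤ β ∧ ∀ i, ∀ l : E, Qf (A i) l ≤ β * ‖l‖ ^ 2 * ⟪f i, w⟫_ℝ := by
    have hfin : ∀ i, ∀ᶠ β : ℝ in atTop, ‖A i‖ ≤ β * ⟪f i, w⟫_ℝ := fun i =>
      (tendsto_id.atTop_mul_const (hw i)).eventually_ge_atTop _
    obtain ⟨β, h1, h2⟩ := ((eventually_all.2 hfin).and (eventually_ge_atTop (0 : ℝ))).exists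
    refine ⟨β, h2, fun i l => ?_⟩
    have h3 : Qf (A i) l ≤ ‖A i‖ * ‖l‖ ^ 2 := by
      rw [Qf]
      calc ⟪A i l, l⟫_ℝ ≤ ‖A i l‖ * ‖l‖ := real_inner_le_norm _ _
        _ ≤ (‖A i‖ * ‖l‖) * ‖l‖ := mul_le_mul_of_nonneg_right ((A i).le_opNorm l) (norm_nonneg _)
        _ = ‖A i‖ * ‖l‖ ^ 2 := by ring
    have h4 := mul_le_mul_of_nonneg_right (h1 i) (sq_nonneg ‖l‖)
    calc Qf (A i) l ≤ ‖A i‖ * ‖l‖ ^ 2 := h3
      _ ≤ β * ⟪f i, w⟫_ℝ * ‖l‖ ^ 2 := h4
      _ = β * ‖l‖ ^ 2 * ⟪f i, w⟫_ℝ := by ring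
  set B' : ℝ := B * (β * ‖w‖) with hB'
  have hB'0 : 0 ≤ B' := by positivity
  set R : ℝ := (⟪e, w⟫_ℝ + 1) / (c * c') + 1 with hR
  have hR1 : 1 ≤ R := by
    rw [hR]
    have : 0 ≤ (⟪e, w⟫_ℝ + 1) / (c * c') := by positivity
    linarith
  set N : ℝ := B' * R / S with hN
  have hN0 : 0 ≤ N := by positivity
  have hNS : N * S = B' * R := by rw [hN]; field_simp
  obtain ⟨ε, hε, hεP⟩ : ∃ ε : ℝ, 0 < ε ∧ ∀ g ∈ Hs, N * ‖w₀‖ * (ε * (1 + ⟪e, w⟫_ℝ) / S) +
      B' * (ε * (1 + ⟪e, w⟫_ℝ) / S) ^ 2 < g.2 / 2 := by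
    have hev : ∀ᶠ ε : ℝ in 𝓝 0, ∀ g ∈ Hs, N * ‖w₀‖ * (ε * (1 + ⟪e, w⟫_ℝ) / S) +
        B' * (ε * (1 + ⟪e, w⟫_ℝ) / S) ^ 2 < g.2 / 2 := by
      rw [Filter.eventually_all_finset]
      intro g hg
      have hcont : Continuous fun ε : ℝ => N * ‖w₀‖ * (ε * (1 + ⟪e, w⟫_ℝ) / S) +
        B' * (ε * (1 + ⟪e, w⟫_ℝ) / S) ^ 2 := by fun_prop
      refine (hcont.tendsto 0).eventually_lt_const ?_
      have := hHp g hg
      simp
      linarith
    obtain ⟨ε, h1, h2⟩ := ((hev.filter_mono (nhdsWithin_le_nhds (s := Set.Ioi 0))).and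
      self_mem_nhdsWithin).exists
    exact ⟨ε, h2, h1⟩
  set r₁ : ℝ := ε * (1 + ⟪e, w⟫_ℝ) / S with hr₁
  have hr₁0 : 0 ≤ r₁ := by positivity
  have hgwpz : ∀ (g : MM L e × ℝ) (v : E), ⟪gw w e g, pz L v⟫_ℝ = ⟪gw w e g, v⟫_ℝ :=
    fun g v => inner_pz_right (fun l hl => hT.gw_perp g hl) v
  refine ⟨Hs.image (fun g => (N • w₀ + gw w e g, g.2 / 2)) ∪
    (W.erase w₀).image (fun v => (v + ε • e, ε)), ?_, ?_, ?_⟩
  · refine (Finset.card_union_le _ _).trans ?_
    have h1 := (Finset.card_image_le (s := Hs)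
      (f := fun g => ((N • w₀ + gw w e g, g.2 / 2) : E × ℝ))).trans hHc
    have h2 := Finset.card_image_le (s := W.erase w₀) (f := fun v => ((v + ε • e, ε) : E × ℝ))
    rw [Finset.card_erase_of_mem hw₀] at h2
    omega
  · intro p hp
    rcases Finset.mem_union.1 hp with hp | hp
    · obtain ⟨g, hg, rfl⟩ := Finset.mem_image.1 hp
      refine ⟨fun h0 => ?_, half_pos (hHp g hg)⟩
      simp only at h0
      have h1 : ⟪N • w₀ + gw w e g, pz L w⟫_ℝ = -g.2 := by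
        rw [inner_add_left, real_inner_smul_left, inner_pz_of_mem hw₀L, hgwpz,
          Cn.gw_inner hκ]
        ring
      rw [h0, inner_zero_left] at h1
      have := hHp g hg
      linarith
    · obtain ⟨v, hv, rfl⟩ := Finset.mem_image.1 hp
      refine ⟨fun h0 => ?_, hε⟩
      simp only at h0
      have h1 : ⟪e, v + ε • e⟫_ℝ = ε := by
        rw [inner_add_right, real_inner_smul_right, hT.ee, hT.perp v (hWL v
          (Finset.mem_of_mem_erase hv))]
        ring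
      rw [h0, inner_zero_right] at h1
      linarith
  · intro u q hu hqL hmax hqe
    -- the functional is nonpositive on the cone
    have huT : ∀ v ∈ Tf f, ⟪pz L u, v⟫_ℝ ≤ 0 := by
      intro v hv
      have h1 := hmax (q + pz L v) (fun i => by
        rw [pl_add, pl_pz, add_zero, inner_add_right, inner_add_right, h.fpz]
        have h2 := hqL i
        rw [inner_add_right] at h2
        have h3 := hv i
        linarith)
      rw [inner_add_right] at h1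
      rw [inner_pz_left]
      linarith
    have hun : pz L u ≠ 0 := by
      intro h0
      have huL : u ∈ L := by
        have h1 := pl_add_pz L u
        rw [h0, add_zero] at h1
        rw [← h1]
        exact pl_mem L u
      have hfin : ∀ i, ∀ᶠ b : ℝ in atTop, Qf (A i) (pl L (q + u)) ≤
          ⟪f i, w + q⟫_ℝ + b * ⟪f i, w⟫_ℝ := fun i =>
        (tendsto_atTop_add_const_left _ _ (tendsto_id.atTop_mul_const (hw i))).eventually_ge_atTop _
      obtain ⟨b, hb⟩ := (eventually_all.2 hfin).exists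
      have h1 := hmax (q + u + b • pz L w) (fun i => by
        rw [pl_add, pl_smul, pl_pz, smul_zero, add_zero, inner_add_right, inner_add_right,
          inner_add_right, real_inner_smul_right, h.fpz, h.fL i u huL]
        have h2 := hb i
        rw [inner_add_right] at h2
        linarith)
      rw [inner_add_right, inner_add_right, real_inner_smul_right, inner_pz_of_mem huL,
        real_inner_self_eq_norm_sq] at h1
      have h2 : 0 < ‖u‖ ^ 2 := by
        have := norm_pos_iff.2 hu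
        positivity
      linarith
    have hunn : 0 < ‖pz L u‖ := norm_pos_iff.2 hun
    obtain ⟨g, hg, hgq⟩ := hq (‖pz L u‖⁻¹ • pz L u) (by
      rw [norm_smul, norm_inv, norm_norm, inv_mul_cancel₀ hunn.ne']) (fun v hv => by
      rw [real_inner_smul_left]
      exact mul_nonpos_of_nonneg_of_nonpos (inv_nonneg.2 hunn.le) (huT v hv))
    set l : E := pl L q with hl
    have hlL : l ∈ L := pl_mem L q
    -- points of the face
    have hface : ∀ x ∈ Lm f A L w, ⟪u, x⟫_ℝ = ⟪u, q⟫_ℝ → pl L x = l ∧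
        0 ≤ ⟪e, w + x⟫_ℝ ∧
        σ * ⟪e, w + x⟫_ℝ - B' * ‖l‖ ^ 2 + g.2 ≤ ⟪gw w e g, x⟫_ℝ := by
      intro x hx hxu
      have hxl := h.face hw hu hqL hmax hx hxu
      have hwx : w + x ∈ Tf f := fun i => (h.Q0 i x).trans (hx i)
      have hXT := hT.pz_mem hwx
      have hXL := pz_mem L (w + x)
      have hXe : 0 ≤ ⟪e, w + x⟫_ℝ := by
        have h1 := hT.pt _ hXT hXL
        rw [hT.inner_pz] at h1
        exact (by positivity : 0 ≤ c' * ‖pz L (w + x)‖).trans h1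
      refine ⟨hxl, hXe, ?_⟩
      have hzC : l + (β * ‖l‖ ^ 2 - 1) • pz L w ∈ Lm f A L w := by
        intro i
        rw [pl_add, pl_smul, pl_pz, smul_zero, add_zero, pl_of_mem hlL, inner_add_right,
          inner_add_right, h.fL i l hlL, real_inner_smul_right, h.fpz]
        have := hβP i l
        linarith
      have h1 := hmax _ hzC
      rw [← hxu, inner_add_right, real_inner_smul_right] at h1
      have h2 : ⟪u, x⟫_ℝ = ⟪u, l⟫_ℝ + ⟪u, pz L x⟫_ℝ := by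
        have h3 := pl_add_pz L x
        rw [hxl] at h3
        nth_rewrite 1 [← h3]
        rw [inner_add_right]
      rw [h2, ← inner_pz_left, ← inner_pz_left] at h1
      have h3 : β * ‖l‖ ^ 2 * ⟪pz L u, w⟫_ℝ ≤ ⟪pz L u, w + x⟫_ℝ := by
        rw [inner_add_right]
        linarith
      have h4 : -(‖pz L u‖ * ‖w‖) ≤ ⟪pz L u, w⟫_ℝ := by
        have h5 := abs_real_inner_le_norm (pz L u) w
        have h6 := neg_abs_le ⟪pz L u, w⟫_ℝ
        linarith
      have h5 := hgq _ hXT hXL (β * ‖l‖ ^ 2 * ‖w‖) (by positivity) (by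
        rw [real_inner_smul_left, inner_pz_left, pz_pz, ← inner_pz_left, inv_mul_eq_div,
          le_div_iff₀ hunn]
        have h6 : 0 ≤ β * ‖l‖ ^ 2 := by positivity
        have h7 := mul_le_mul_of_nonneg_left h4 h6
        linarith)
      rw [hT.inner_pz, hgwpz, inner_add_right (gw w e g), Cn.gw_inner hκ] at h5
      have h6 : B * (β * ‖l‖ ^ 2 * ‖w‖) = B' * ‖l‖ ^ 2 := by rw [hB']; ring
      linarith
    -- the bound
    have hlR : ‖l‖ ≤ R := by
      obtain ⟨i⟩ := (inferInstance : Nonempty ι)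
      have hwq : w + q ∈ Tf f := fun i => (h.Q0 i q).trans (hqL i)
      have h1 := hT.pt _ (hT.pz_mem hwq) (pz_mem L _)
      rw [hT.inner_pz, inner_add_right] at h1
      have h2 := hqL i
      rw [← h.fpz] at h2
      have h3 : ⟪f i, pz L (w + q)⟫_ℝ ≤ ‖pz L (w + q)‖ := by
        have := real_inner_le_norm (f i) (pz L (w + q))
        rwa [h.nrm, one_mul] at this
      have h4 := h.pd i _ (h.fpl i q)
      have h5 : c * ‖l‖ ^ 2 ≤ ‖pz L (w + q)‖ := by linarith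
      have h6 : ‖l‖ ^ 2 ≤ (⟪e, w⟫_ℝ + 1) / (c * c') := by
        rw [le_div_iff₀ (by positivity)]
        have h7 := mul_le_mul_of_nonneg_left h5 hc'.le
        linarith
      have h7 := norm_nonneg l
      nlinarith
    -- recession directions
    have hrecA : ∀ d : E, d ≠ 0 → (∀ s : ℝ, 0 ≤ s → s • d ∈ Lm f A L w) → ⟪u, d⟫_ℝ = 0 →
        0 < ⟪N • w₀ + gw w e g, d⟫_ℝ := by
      intro d hd0 hd hud
      obtain ⟨hdL, hdT⟩ := h.recession hd
      have h1 := hgq d hdT hdL 0 le_rfl (by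
        rw [neg_zero, real_inner_smul_left, inner_pz_left]
        have h2 : pz L d = d := by
          have h3 := pl_add_pz L d
          have h4 : pl L d = 0 := by
            have h5 : ⟪pl L d, d⟫_ℝ = 0 := (Submodule.mem_orthogonal _ _).1 hdL _ (pl_mem L d)
            rw [← inner_pl_right (pl_mem L d)] at h5
            exact inner_self_eq_zero.1 h5
          rwa [h4, zero_add] at h3
        rw [h2, hud, mul_zero])
      have h2 : ⟪w₀, d⟫_ℝ = 0 := (Submodule.mem_orthogonal _ _).1 hdL _ hw₀L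
      rw [inner_add_left, real_inner_smul_left, h2]
      have h3 := hT.pos hdT hdL hd0
      have h4 := mul_pos hσ h3
      linarith
    have hrecB : ∀ v ∈ L, ∀ d : E, d ≠ 0 → (∀ s : ℝ, 0 ≤ s → s • d ∈ Lm f A L w) → ⟪u, d⟫_ℝ = 0 →
        0 < ⟪v + ε • e, d⟫_ℝ := by
      intro v hv d hd0 hd hud
      obtain ⟨hdL, hdT⟩ := h.recession hd
      have h2 : ⟪v, d⟫_ℝ = 0 := (Submodule.mem_orthogonal _ _).1 hdL _ hv
      rw [inner_add_left, real_inner_smul_left, h2]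
      have h3 := hT.pos hdT hdL hd0
      have h4 := mul_pos hε h3
      linarith
    have hgp := hHp g hg
    obtain ⟨v, hv, hvl⟩ := hW l hlL
    have hvL := hWL v hv
    by_cases hvw : v = w₀
    · -- the direction of `w₀`
      refine ⟨_, Finset.mem_union_left _ (Finset.mem_image_of_mem _ hg), fun x hx hxu => ?_,
        hrecA⟩
      obtain ⟨hxl, hxe, hxg⟩ := hface x hx hxu
      simp only
      rw [inner_add_left, real_inner_smul_left, ← inner_pl_right hw₀L, hxl]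
      rw [hvw] at hvl
      have h1 := mul_le_mul_of_nonneg_left hvl hN0
      have h2 : N * (S * ‖l‖) = B' * R * ‖l‖ := by rw [← hNS]; ring
      have h3 : B' * ‖l‖ ^ 2 ≤ B' * R * ‖l‖ := by
        have h4 : ‖l‖ ^ 2 ≤ R * ‖l‖ := by nlinarith [norm_nonneg l]
        have h5 := mul_le_mul_of_nonneg_left h4 hB'0
        linarith
      have h4 : 0 ≤ σ * ⟪e, w + x⟫_ℝ := mul_nonneg hσ.le hxe
      linarith
    · by_cases hsmall : S * ‖l‖ ≤ ε * (1 + ⟪e, w⟫_ℝ)
      · -- near the foot point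
        refine ⟨_, Finset.mem_union_left _ (Finset.mem_image_of_mem _ hg), fun x hx hxu => ?_,
          hrecA⟩
        obtain ⟨hxl, hxe, hxg⟩ := hface x hx hxu
        simp only
        rw [inner_add_left, real_inner_smul_left, ← inner_pl_right hw₀L, hxl]
        have hlr : ‖l‖ ≤ r₁ := by
          rw [hr₁, le_div_iff₀ hS]
          linarith
        have h1 : -(N * ‖w₀‖ * r₁) ≤ N * ⟪w₀, l⟫_ℝ := by
          have h5 := abs_real_inner_le_norm w₀ l
          have h6 := neg_abs_le ⟪w₀, l⟫_ℝ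
          have h7 : ‖w₀‖ * ‖l‖ ≤ ‖w₀‖ * r₁ := mul_le_mul_of_nonneg_left hlr (norm_nonneg _)
          have h8 : -(‖w₀‖ * r₁) ≤ ⟪w₀, l⟫_ℝ := by linarith
          have h9 := mul_le_mul_of_nonneg_left h8 hN0
          linarith
        have h2 : B' * ‖l‖ ^ 2 ≤ B' * r₁ ^ 2 := by
          have h5 : ‖l‖ ^ 2 ≤ r₁ ^ 2 := pow_le_pow_left₀ (norm_nonneg _) hlr 2
          exact mul_le_mul_of_nonneg_left h5 hB'0
        have h3 := hεP g hg
        have h4 : 0 ≤ σ * ⟪e, w + x⟫_ℝ := mul_nonneg hσ.le hxe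
        linarith
      · -- the other directions
        push Not at hsmall
        refine ⟨_, Finset.mem_union_right _ (Finset.mem_image_of_mem _
          (Finset.mem_erase.2 ⟨hvw, hv⟩)), fun x hx hxu => ?_, hrecB v hvL⟩
        obtain ⟨hxl, hxe, -⟩ := hface x hx hxu
        simp only
        rw [inner_add_left, real_inner_smul_left, ← inner_pl_right hvL, hxl]
        rw [inner_add_right] at hxe
        have h1 : ε * (-⟪e, w⟫_ℝ) ≤ ε * ⟪e, x⟫_ℝ :=
          mul_le_mul_of_nonneg_left (by linarith) hε.le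
        linarith

end Pool.Agent.N321.NB
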