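import Pool.Agent.N321.NB.Cornerc

set_option autoImplicit false
set_option linter.unusedSectionVars false

/-!
# Blow-ups at corners of intersections of positively curved bodies: the theorem
-/

namespace Pool.Agent.N321.NB

open scoped InnerProductSpace Topology
open Metric Module Filter Set
open Pool.Agent.R753.SJ (Sepd strict_of_int)

variable {E : Type} [NormedAddCommGroup E] [InnerProductSpace ℝ E] [FiniteDimensional ℝ E]

section seq

variable {ι : Type} {K : Set E} {y : E} {f : ι → E} {A : ι → E →L[ℝ] E} {L : Submodule ℝ E}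
  {t : ℕ → ℝ} {w' z' : ℕ → E} {w z : E}

/-- Second-order contact at `y` with the intersection of the ellipsoids
`{v | ⟪A i v, v⟫ ≤ ⟪f i, v⟫}`. -/
def Os {ι : Type} (K : Set E) (y : E) (f : ι → E) (A : ι → E →L[ℝ] E) : Prop :=
  ∀ δ : ℝ, 0 < δ → ∃ r : ℝ, 0 < r ∧ ∀ v : E, ‖v‖ ≤ r →
    ((∀ i, (1 + δ) * Qf (A i) v ≤ ⟪f i, v⟫_ℝ) → y + v ∈ K) ∧
    (y + v ∈ K → ∀ i, (1 - δ) * Qf (A i) v ≤ ⟪f i, v⟫_ℝ)

/-- the point -/
noncomputable def vk (L : Submodule ℝ E) (t : ℝ) (w z : E) : E :=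
  t • w + (√t • pl L z + t • pz L z)

/-- the rescaled point -/
noncomputable def eta (L : Submodule ℝ E) (t : ℝ) (w z : E) : E :=
  pl L z + √t • (w + pz L z)

lemma eta_eq {t : ℝ} (ht : 0 ≤ t) (w z : E) : vk L t w z = √t • eta L t w z := by
  have h1 : √t * √t = t := Real.mul_self_sqrt ht
  rw [vk, eta, smul_add, smul_smul, h1, smul_add]
  abel

lemma inner_vk {g : E} (hg : ∀ l ∈ L, ⟪g, l⟫_ℝ = 0) (t : ℝ) (w z : E) :
    ⟪g, vk L t w z⟫_ℝ = t * ⟪g, w + z⟫_ℝ := by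
  rw [vk, inner_add_right, inner_add_right, real_inner_smul_right, real_inner_smul_right,
    real_inner_smul_right, hg _ (pl_mem L z), inner_pz_right hg, inner_add_right]
  ring

lemma sqrt_lim (htl : Tendsto t atTop (𝓝 0)) : Tendsto (fun k => √(t k)) atTop (𝓝 0) := by
  have := (Real.continuous_sqrt.tendsto 0).comp htl
  rw [Real.sqrt_zero] at this
  exact this

lemma eta_lim (htl : Tendsto t atTop (𝓝 0)) (hw : Tendsto w' atTop (𝓝 w))
    (hz : Tendsto z' atTop (𝓝 z)) :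
    Tendsto (fun k => eta L (t k) (w' k) (z' k)) atTop (𝓝 (pl L z)) := by
  have h1 : Tendsto (fun k => pl L (z' k)) atTop (𝓝 (pl L z)) := ((pl_cont L).tendsto z).comp hz
  have h2 : Tendsto (fun k => pz L (z' k)) atTop (𝓝 (pz L z)) :=
    ((pz_continuous L).tendsto z).comp hz
  have h4 := h1.add ((sqrt_lim htl).smul (hw.add h2))
  rw [zero_smul, add_zero] at h4
  exact h4

lemma vk_lim (ht : ∀ k, 0 < t k) (htl : Tendsto t atTop (𝓝 0)) (hw : Tendsto w' atTop (𝓝 w))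
    (hz : Tendsto z' atTop (𝓝 z)) :
    Tendsto (fun k => ‖vk L (t k) (w' k) (z' k)‖) atTop (𝓝 0) := by
  have h1 := ((sqrt_lim htl).smul (eta_lim (L := L) htl hw hz)).norm
  rw [zero_smul, norm_zero] at h1
  exact h1.congr fun k => by rw [eta_eq (ht k).le]

lemma Os.seq_in [Finite ι] (hS : Os K y f A) (hfL : ∀ i, ∀ l ∈ L, ⟪f i, l⟫_ℝ = 0)
    (ht : ∀ k, 0 < t k) (htl : Tendsto t atTop (𝓝 0))
    (hw : Tendsto w' atTop (𝓝 w)) (hz : Tendsto z' atTop (𝓝 z))
    (hlt : ∀ i, Qf (A i) (pl L z) < ⟪f i, w + z⟫_ℝ) :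
    ∀ᶠ k in atTop, y + vk L (t k) (w' k) (z' k) ∈ K := by
  obtain ⟨δ, hδ, hδz⟩ : ∃ δ : ℝ, 0 < δ ∧ ∀ i, (1 + δ) * Qf (A i) (pl L z) < ⟪f i, w + z⟫_ℝ := by
    have hev : ∀ i, ∀ᶠ δ : ℝ in 𝓝 0, (1 + δ) * Qf (A i) (pl L z) < ⟪f i, w + z⟫_ℝ := by
      intro i
      have hcont : Continuous fun δ : ℝ => (1 + δ) * Qf (A i) (pl L z) := by fun_prop
      exact (hcont.tendsto 0).eventually_lt_const (by simpa using hlt i)
    obtain ⟨δ, h1, h2⟩ := (((eventually_all.2 hev).filter_mono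
      (nhdsWithin_le_nhds (s := Set.Ioi 0))).and self_mem_nhdsWithin).exists
    exact ⟨δ, h2, h1⟩
  obtain ⟨r, hr, hrS⟩ := hS δ hδ
  have heta := eta_lim (L := L) htl hw hz
  have hev : ∀ i, ∀ᶠ k in atTop,
      (1 + δ) * Qf (A i) (eta L (t k) (w' k) (z' k)) < ⟪f i, w' k + z' k⟫_ℝ := by
    intro i
    have l1 : Tendsto (fun k => (1 + δ) * Qf (A i) (eta L (t k) (w' k) (z' k))) atTop
        (𝓝 ((1 + δ) * Qf (A i) (pl L z))) := (((Qf_cont (A i)).tendsto _).comp heta).const_mul _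
    have hh : Tendsto (fun k => ⟪f i, w' k + z' k⟫_ℝ) atTop (𝓝 ⟪f i, w + z⟫_ℝ) :=
      tendsto_const_nhds.inner (hw.add hz)
    exact l1.eventually_lt hh (hδz i)
  filter_upwards [eventually_all.2 hev, (vk_lim (L := L) ht htl hw hz).eventually_lt_const hr]
    with k h1 h2
  refine (hrS _ h2.le).1 fun i => ?_
  rw [inner_vk (hfL i), eta_eq (ht k).le, Qf_smul, Real.sq_sqrt (ht k).le]
  have h7 := mul_le_mul_of_nonneg_left (h1 i).le (ht k).le
  linarith

lemma Os.seq_out (hS : Os K y f A) (hfL : ∀ i, ∀ l ∈ L, ⟪f i, l⟫_ℝ = 0)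
    (ht : ∀ k, 0 < t k) (htl : Tendsto t atTop (𝓝 0))
    (hw : Tendsto w' atTop (𝓝 w)) (hz : Tendsto z' atTop (𝓝 z))
    (hmem : ∀ k, y + vk L (t k) (w' k) (z' k) ∈ K) (i : ι) :
    Qf (A i) (pl L z) ≤ ⟪f i, w + z⟫_ℝ := by
  have heta := eta_lim (L := L) htl hw hz
  have hh : Tendsto (fun k => ⟪f i, w' k + z' k⟫_ℝ) atTop (𝓝 ⟪f i, w + z⟫_ℝ) :=
    tendsto_const_nhds.inner (hw.add hz)
  have key : ∀ δ : ℝ, 0 < δ → (1 - δ) * Qf (A i) (pl L z) ≤ ⟪f i, w + z⟫_ℝ := by
    intro δ hδ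
    obtain ⟨r, hr, hrS⟩ := hS δ hδ
    have l1 : Tendsto (fun k => (1 - δ) * Qf (A i) (eta L (t k) (w' k) (z' k))) atTop
        (𝓝 ((1 - δ) * Qf (A i) (pl L z))) := (((Qf_cont (A i)).tendsto _).comp heta).const_mul _
    refine le_of_tendsto_of_tendsto l1 hh ?_
    filter_upwards [(vk_lim (L := L) ht htl hw hz).eventually_lt_const hr] with k h2
    have h6 := (hrS _ h2.le).2 (hmem k) i
    rw [inner_vk (hfL i), eta_eq (ht k).le, Qf_smul, Real.sq_sqrt (ht k).le] at h6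
    refine le_of_mul_le_mul_left (a := t k) ?_ (ht _)
    linarith
  have hcont : Tendsto (fun δ : ℝ => (1 - δ) * Qf (A i) (pl L z)) (𝓝[>] 0)
      (𝓝 ((1 - 0) * Qf (A i) (pl L z))) := by
    have : Continuous fun δ : ℝ => (1 - δ) * Qf (A i) (pl L z) := by fun_prop
    exact (this.tendsto 0).mono_left nhdsWithin_le_nhds
  have h1 := le_of_tendsto hcont (eventually_nhdsWithin_of_forall fun δ hδ => key δ hδ)
  rwa [sub_zero, one_mul] at h1

end seq

variable {ι : Type} [Finite ι] [Nonempty ι] {f : ι → E} {A : ι → E →L[ℝ] E}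
  {L : Submodule ℝ E} {c : ℝ} {w e : E} {c' : ℝ}

/-- **Corners.** -/
theorem corner {K : Set E} (hK : Convex ℝ K) {y : E} (h : Co f A L c) (hS : Os K y f A)
    (hw : ∀ i, 0 < ⟪f i, w⟫_ℝ) (hT : Cn (Tf f) L e c') {n : ℕ} (hn : 1 ≤ n)
    (hs : Sepd n (Sl (Tf f) w (MM L e)) 0) :
    ∃ ρ : ℝ, 0 < ρ ∧ ∀ (t : ℝ) (w' : E), 0 < t → t < ρ → dist w' w < ρ →
      y + t • w' ∈ interior K ∧ Sepd (finrank ℝ L + n + 1) K (y + t • w') := by
  classical
  have hc := h.cpos
  have h0C : (0 : E) ∈ interior (Lm f A L w) := by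
    rw [h.int hw]
    intro i
    rw [add_zero]
    have : pl L (0 : E) = 0 := by simp [pl]
    rw [this]
    simpa [Qf] using hw i
  obtain ⟨H, hHc, hHp, hH⟩ := h.hyp hw hT hn hs
  by_contra hcon
  push Not at hcon
  choose t w' ht htρ hd hbad using fun k : ℕ => hcon (1 / ((k : ℝ) + 1)) (by positivity)
  have htl : Tendsto t atTop (𝓝 0) :=
    squeeze_zero (fun k => (ht k).le) (fun k => (htρ k).le) tendsto_one_div_add_atTop_nhds_zero_nat
  have hwl : Tendsto w' atTop (𝓝 w) := by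
    rw [tendsto_iff_dist_tendsto_zero]
    exact squeeze_zero (fun k => dist_nonneg) (fun k => (hd k).le)
      tendsto_one_div_add_atTop_nhds_zero_nat
  set Kk : ℕ → Set E := fun k =>
    {z | y + t k • w' k + (√(t k) • pl L z + t k • pz L z) ∈ K} with hKk
  have hLo : Lo (Lm f A L w) Kk := by
    refine ⟨fun k => ?_, fun z hz => ?_, fun φ x a hφ hx hxa => ?_⟩
    · intro x hx z hz a b ha hb hab
      have h1 := hK hx hz ha hb hab
      show y + t k • w' k + (√(t k) • pl L (a • x + b • z) + t k • pz L (a • x + b • z)) ∈ K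
      rw [pl_combo, pz_combo]
      convert h1 using 1
      have hb' : b = 1 - a := by linarith
      subst hb'
      module
    · rw [h.int hw] at hz
      filter_upwards [Os.seq_in hS h.fL ht htl hwl tendsto_const_nhds hz] with k hk
      rw [vk, ← add_assoc] at hk
      exact hk
    · exact Os.seq_out hS h.fL (fun k => ht (φ k)) (htl.comp hφ.tendsto_atTop)
        (hwl.comp hφ.tendsto_atTop) hxa (fun k => by
          rw [vk, ← add_assoc]
          exact hx k)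
  have hLc := hLo.toLc h0C (e := e) (fun d hd0 hd => by
    obtain ⟨h1, h2⟩ := h.recession hd
    exact hT.pos h2 h1 hd0) 1
  obtain ⟨r, hr, hball⟩ := hLo.ball h0C
  obtain ⟨k, hk, hkb⟩ := ((blow (h.convex w) h0C H hH hLc).and hball).exists
  set s := √(t k) with hs'
  set τ := t k with hτ
  have hτ1 : 0 < τ := ht _
  have hs1 : 0 < s := Real.sqrt_pos.2 hτ1
  let D : ℝ → ℝ → (E →ₗ[ℝ] E) := fun a b =>
    { toFun := fun v => a • pl L v + b • pz L v
      map_add' := fun v w => by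
        rw [pl_add, pz_add]
        module
      map_smul' := fun r v => by
        have h1 := pl_combo L v 0 r 0
        have h2 := pz_combo L v 0 r 0
        simp only [smul_zero, add_zero, zero_smul] at h1 h2
        rw [h1, h2, RingHom.id_apply]
        module }
  have hD : ∀ a b v, D a b v = a • pl L v + b • pz L v := fun a b v => rfl
  have hDD : ∀ (a b a' b' : ℝ) (v : E), a * a' = 1 → b * b' = 1 → D a b (D a' b' v) = v := by
    intro a b a' b' v h1 h2
    rw [hD, hD, pl_combo, pz_combo, pl_of_mem (pl_mem L v), pl_pz, pz_of_mem (pl_mem L v), pz_pz,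
      smul_zero, add_zero, smul_zero, zero_add, smul_smul, smul_smul, h1, h2, one_smul, one_smul,
      pl_add_pz]
  have hplL : ∀ u v : E, ⟪pl L u, v⟫_ℝ = ⟪u, pl L v⟫_ℝ := by
    intro u v
    rw [← inner_pl_right (pl_mem L u), real_inner_comm, inner_pl_right (pl_mem L v),
      real_inner_comm]
  have hDs : ∀ (a b : ℝ) (v w : E), ⟪D a b v, w⟫_ℝ = ⟪v, D a b w⟫_ℝ := by
    intro a b v w
    rw [hD, hD, inner_add_left, inner_add_right, real_inner_smul_left, real_inner_smul_left,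
      real_inner_smul_right, real_inner_smul_right, hplL, inner_pz_left]
  have hss : s * s⁻¹ = 1 := mul_inv_cancel₀ hs1.ne'
  have hττ : τ * τ⁻¹ = 1 := mul_inv_cancel₀ hτ1.ne'
  have hss' : s⁻¹ * s = 1 := inv_mul_cancel₀ hs1.ne'
  have hττ' : τ⁻¹ * τ = 1 := inv_mul_cancel₀ hτ1.ne'
  refine hbad k ?_ ?_
  · -- an interior point
    rw [mem_interior_iff_mem_nhds]
    have hcont : Continuous fun x : E => D s⁻¹ τ⁻¹ (x - (y + τ • w' k)) :=
      (LinearMap.continuous_of_finiteDimensional (D s⁻¹ τ⁻¹)).comp (by fun_prop)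
    have h1 : Kk k ∈ 𝓝 (D s⁻¹ τ⁻¹ ((y + τ • w' k) - (y + τ • w' k))) := by
      rw [sub_self, map_zero]
      exact Filter.mem_of_superset (closedBall_mem_nhds _ hr) hkb
    refine Filter.mem_of_superset (hcont.continuousAt h1) fun x hx => ?_
    have h2 : y + τ • w' k + D s τ (D s⁻¹ τ⁻¹ (x - (y + τ • w' k))) ∈ K := hx
    rwa [hDD _ _ _ _ _ hss hττ, add_sub_cancel] at h2
  · refine sepd_lin (D s τ) (D s⁻¹ τ⁻¹) (fun v => hDD _ _ _ _ v hss hττ)
      (fun v => hDD _ _ _ _ v hss' hττ') (hDs _ _) (hDs _ _) ?_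
    have hset : {v : E | y + τ • w' k + D s τ v ∈ K} = Kk k := rfl
    rw [hset]
    refine ⟨H ∪ {(e, 1)}, ?_, ?_, ?_⟩
    · refine (Finset.card_union_le _ _).trans (add_le_add hHc ?_)
      simp
    · intro p hp
      rcases Finset.mem_union.1 hp with hp | hp
      · exact (hHp p hp).1
      · rw [Finset.mem_singleton.1 hp]
        exact hT.e0
    · intro u x₀ hu hx₀ hmax
      rcases hk u x₀ hu hx₀ hmax with h1 | ⟨p, hp, h1⟩
      · exact ⟨(e, 1), Finset.mem_union_right _ (Finset.mem_singleton_self _), by simp, h1⟩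
      · refine ⟨p, Finset.mem_union_left _ hp, ?_, h1⟩
        rw [inner_zero_right]
        exact (hHp p hp).2

end Pool.Agent.N321.NB
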