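import Pool.Agent.N321.NB.Cornerd

set_option autoImplicit false
set_option linter.unusedSectionVars false

/-!
# Blow-ups: final forms
-/

namespace Pool.Agent.N321.NB

open scoped InnerProductSpace Topology
open Metric Module Filter Set
open Pool.Agent.R753.SJ (Sepd strict_of_int)

variable {E : Type} [NormedAddCommGroup E] [InnerProductSpace ℝ E] [FiniteDimensional ℝ E]

/-! ### One ellipsoid -/

section one

variable {K : Set E} {y e : E} {A : E →L[ℝ] E} {c : ℝ}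

lemma Qf_diff (he : ‖e‖ = 1) {x : E} {z r : ℝ} (hx : ‖x‖ ≤ r) (hz : 0 ≤ z) (hzr : z ≤ r) :
    |Qf A (x + z • e) - Qf A x| ≤ 3 * ‖A‖ * r * z := by
  have hr : 0 ≤ r := hz.trans hzr
  have e1 : Qf A (x + z • e) - Qf A x = z * ⟪A x, e⟫_ℝ + z * ⟪A e, x⟫_ℝ + z * (z * ⟪A e, e⟫_ℝ) := by
    simp only [Qf, map_add, map_smul, inner_add_left, inner_add_right, real_inner_smul_left,
      real_inner_smul_right]
    ring
  have h1 : |⟪A x, e⟫_ℝ| ≤ ‖A‖ * r := by
    calc |⟪A x, e⟫_ℝ| ≤ ‖A x‖ * ‖e‖ := abs_real_inner_le_norm _ _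
      _ ≤ ‖A‖ * ‖x‖ := by rw [he, mul_one]; exact A.le_opNorm x
      _ ≤ ‖A‖ * r := mul_le_mul_of_nonneg_left hx (norm_nonneg _)
  have hAe : ‖A e‖ ≤ ‖A‖ := by
    have := A.le_opNorm e
    rwa [he, mul_one] at this
  have h2 : |⟪A e, x⟫_ℝ| ≤ ‖A‖ * r := by
    calc |⟪A e, x⟫_ℝ| ≤ ‖A e‖ * ‖x‖ := abs_real_inner_le_norm _ _
      _ ≤ ‖A‖ * r := mul_le_mul hAe hx (norm_nonneg _) (norm_nonneg _)
  have h3 : |⟪A e, e⟫_ℝ| ≤ ‖A‖ := by
    calc |⟪A e, e⟫_ℝ| ≤ ‖A e‖ * ‖e‖ := abs_real_inner_le_norm _ _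
      _ ≤ ‖A‖ := by rw [he, mul_one]; exact hAe
  have h4 : |z * ⟪A e, e⟫_ℝ| ≤ ‖A‖ * r := by
    rw [abs_mul, abs_of_nonneg hz]
    calc z * |⟪A e, e⟫_ℝ| ≤ r * ‖A‖ := mul_le_mul hzr h3 (abs_nonneg _) hr
      _ = ‖A‖ * r := mul_comm _ _
  rw [e1]
  have h5 : |z * ⟪A x, e⟫_ℝ + z * ⟪A e, x⟫_ℝ + z * (z * ⟪A e, e⟫_ℝ)| ≤
      |z * ⟪A x, e⟫_ℝ| + |z * ⟪A e, x⟫_ℝ| + |z * (z * ⟪A e, e⟫_ℝ)| := abs_add_three _ _ _
  have h6 : |z * ⟪A x, e⟫_ℝ| ≤ z * (‖A‖ * r) := by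
    rw [abs_mul, abs_of_nonneg hz]
    exact mul_le_mul_of_nonneg_left h1 hz
  have h7 : |z * ⟪A e, x⟫_ℝ| ≤ z * (‖A‖ * r) := by
    rw [abs_mul, abs_of_nonneg hz]
    exact mul_le_mul_of_nonneg_left h2 hz
  have h8 : |z * (z * ⟪A e, e⟫_ℝ)| ≤ z * (‖A‖ * r) := by
    rw [abs_mul, abs_of_nonneg hz]
    exact mul_le_mul_of_nonneg_left h4 hz
  linarith

lemma Os.mem {ι : Type} {f : ι → E} {A : ι → E →L[ℝ] E} (hS : Os K y f A) : y ∈ K := by
  obtain ⟨r, hr, h⟩ := hS 1 one_pos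
  have h1 := (h 0 (by simpa using hr.le)).1 (fun i => by simp [Qf])
  rwa [add_zero] at h1

lemma Os.pos (hK : Convex ℝ K) (hA : ∀ v, 0 ≤ Qf A v)
    (hS : Os K y (fun _ : Unit => e) (fun _ => A)) : ∀ x ∈ K, 0 ≤ ⟪e, x - y⟫_ℝ := by
  intro x hx
  obtain ⟨r, hr, h⟩ := hS (1 / 2) (by norm_num)
  have hy := hS.mem
  set s : ℝ := min 1 (r / (‖x - y‖ + 1)) with hs
  have hs0 : 0 < s := by positivity
  have hs1 : s ≤ 1 := min_le_left _ _
  have h1 := hK hy hx (a := 1 - s) (b := s) (by linarith) hs0.le (by ring)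
  have e1 : (1 - s) • y + s • x = y + s • (x - y) := by module
  rw [e1] at h1
  have h2 : ‖s • (x - y)‖ ≤ r := by
    rw [norm_smul, Real.norm_eq_abs, abs_of_pos hs0]
    have h3 : s ≤ r / (‖x - y‖ + 1) := min_le_right _ _
    rw [le_div_iff₀ (by positivity)] at h3
    nlinarith [norm_nonneg (x - y)]
  have h3 := (h _ h2).2 h1 ()
  rw [real_inner_smul_right] at h3
  have h4 := hA (s • (x - y))
  have h5 : 0 ≤ s * ⟪e, x - y⟫_ℝ := by linarith
  exact nonneg_of_mul_nonneg_right h5 hs0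

lemma Os.so (he : ‖e‖ = 1) (hA : ∀ v, 0 ≤ Qf A v)
    (hS : Os K y (fun _ : Unit => e) (fun _ => A)) : So K y e A := by
  have hee : ⟪e, e⟫_ℝ = 1 := by rw [real_inner_self_eq_norm_sq, he]; norm_num
  intro δ hδ
  set a : ℝ := min δ 1 / 4 with ha
  have ha0 : 0 < a := by positivity
  have had : a ≤ δ / 4 := by
    rw [ha]; exact div_le_div_of_nonneg_right (min_le_left _ _) (by norm_num)
  have ha1 : a ≤ 1 / 4 := by
    rw [ha]; exact div_le_div_of_nonneg_right (min_le_right _ _) (by norm_num)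
  obtain ⟨r', hr', h⟩ := hS a ha0
  obtain ⟨r, hr, hrr, hrA⟩ : ∃ r : ℝ, 0 < r ∧ 2 * r ≤ r' ∧
      (1 + a) * (1 + δ) * (3 * ‖A‖ * r) ≤ δ - a := by
    have hev : ∀ᶠ r : ℝ in 𝓝 0, 2 * r ≤ r' ∧ (1 + a) * (1 + δ) * (3 * ‖A‖ * r) ≤ δ - a := by
      refine Filter.Eventually.and ?_ ?_
      · have hcont : Continuous fun r : ℝ => 2 * r := by fun_prop
        exact ((hcont.tendsto 0).eventually_lt_const (by simpa using hr')).mono fun _ h => h.le
      · have hcont : Continuous fun r : ℝ => (1 + a) * (1 + δ) * (3 * ‖A‖ * r) := by fun_prop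
        refine ((hcont.tendsto 0).eventually_lt_const ?_).mono fun _ h => h.le
        simp only [mul_zero]
        linarith
    obtain ⟨r, h1, h2⟩ := ((hev.filter_mono (nhdsWithin_le_nhds (s := Set.Ioi 0))).and
      self_mem_nhdsWithin).exists
    exact ⟨r, h2, h1.1, h1.2⟩
  have hAr : 0 ≤ 3 * ‖A‖ * r := by positivity
  refine ⟨r, hr, fun x z hx hxr hz hzr => ?_⟩
  have hv : ‖x + z • e‖ ≤ r' := by
    calc ‖x + z • e‖ ≤ ‖x‖ + ‖z • e‖ := norm_add_le _ _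
      _ = ‖x‖ + z := by rw [norm_smul, he, mul_one, Real.norm_eq_abs, abs_of_nonneg hz]
      _ ≤ r' := by linarith
  have hin : ⟪e, x + z • e⟫_ℝ = z := by
    rw [inner_add_right, hx, real_inner_smul_right, hee]; ring
  have hd := abs_le.1 (Qf_diff (A := A) he hxr hz hzr)
  have hQx := hA x
  have hQv := hA (x + z • e)
  have h1 := h _ hv
  simp only [hin] at h1
  rw [← add_assoc] at h1
  constructor
  · intro h2
    refine h1.1 fun _ => ?_
    have h3 : (1 + δ) * ((1 + a) * Qf A (x + z • e)) ≤ (1 + δ) * z := by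
      have h4 : Qf A (x + z • e) ≤ Qf A x + 3 * ‖A‖ * r * z := by linarith [hd.2]
      have h5 : (1 + a) * (1 + δ) * Qf A (x + z • e) ≤
          (1 + a) * (1 + δ) * (Qf A x + 3 * ‖A‖ * r * z) :=
        mul_le_mul_of_nonneg_left h4 (by positivity)
      have h6 := mul_le_mul_of_nonneg_left h2 (show 0 ≤ 1 + a by positivity)
      have h7 := mul_le_mul_of_nonneg_right hrA hz
      linarith
    exact le_of_mul_le_mul_left h3 (by positivity)
  · intro h2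
    have h3 := h1.2 h2 ()
    rcases le_or_gt 1 δ with h4 | h4
    · have h5 : (1 - δ) * Qf A x ≤ 0 := mul_nonpos_of_nonpos_of_nonneg (by linarith) hQx
      linarith
    · have h5 : Qf A x ≤ Qf A (x + z • e) + 3 * ‖A‖ * r * z := by linarith [hd.1]
      have h6 : 3 * ‖A‖ * r ≤ δ - a := by
        have h7 : 1 * (3 * ‖A‖ * r) ≤ (1 + a) * (1 + δ) * (3 * ‖A‖ * r) :=
          mul_le_mul_of_nonneg_right (by nlinarith) hAr
        linarith
      have h7 : (1 - a) * ((1 - δ) * Qf A x) ≤ (1 - a) * z := by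
        have h8 : (1 - a) * Qf A x ≤ (1 - a) * (Qf A (x + z • e) + 3 * ‖A‖ * r * z) :=
          mul_le_mul_of_nonneg_left h5 (by linarith)
        have h9 : (1 - a) * Qf A x ≤ z + 3 * ‖A‖ * r * z := by
          have h10 : (1 - a) * (3 * ‖A‖ * r * z) ≤ 3 * ‖A‖ * r * z := by
            have : 0 ≤ 3 * ‖A‖ * r * z := by positivity
            nlinarith
          linarith
        have h11 := mul_le_mul_of_nonneg_left h9 (show 0 ≤ 1 - δ by linarith)
        have h12 : (1 - δ) * (z + 3 * ‖A‖ * r * z) ≤ (1 - a) * z := by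
          have h13 := mul_le_mul_of_nonneg_right h6 hz
          have h14 : 0 ≤ 3 * ‖A‖ * r * z := by positivity
          nlinarith
        linarith
      exact le_of_mul_le_mul_left h7 (by linarith)

/-- **Points of positive curvature.** -/
theorem osc_one (hK : Convex ℝ K) (he : ‖e‖ = 1) (hc : 0 < c)
    (hA : ∀ v, c * ‖v‖ ^ 2 ≤ Qf A v) (hS : Os K y (fun _ : Unit => e) (fun _ => A)) {δ : ℝ}
    (hδ : 0 < δ) :
    ∃ ρ : ℝ, 0 < ρ ∧ ∀ v : E, v ≠ 0 → ‖v‖ < ρ → (1 + δ) * Qf A v ≤ ⟪e, v⟫_ℝ →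
      y + v ∈ interior K ∧ Sepd (finrank ℝ E + 1) K (y + v) := by
  have hA0 : ∀ v, 0 ≤ Qf A v := fun v => (by positivity : 0 ≤ c * ‖v‖ ^ 2).trans (hA v)
  obtain ⟨ρ, hρ, h⟩ := curved hK hS.mem he (Os.pos hK hA0 hS) hc (fun x _ => hA x)
    (Os.so he hA0 hS) (show 0 < δ / 2 by positivity)
  obtain ⟨r, hr, hrA⟩ : ∃ r : ℝ, 0 < r ∧ (1 + δ / 2) * (1 + δ) * (3 * ‖A‖ * r) ≤ δ / 2 := by
    have hcont : Continuous fun r : ℝ => (1 + δ / 2) * (1 + δ) * (3 * ‖A‖ * r) := by fun_prop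
    have hev := (hcont.tendsto 0).eventually_lt_const (u := δ / 2) (by
      simp only [mul_zero]; positivity)
    obtain ⟨r, h1, h2⟩ := ((hev.filter_mono (nhdsWithin_le_nhds (s := Set.Ioi 0))).and
      self_mem_nhdsWithin).exists
    exact ⟨r, h2, h1.le⟩
  refine ⟨min ρ r, by positivity, fun v hv0 hv hvQ => ?_⟩
  have hv1 : ‖v‖ < ρ := hv.trans_le (min_le_left _ _)
  have hv2 : ‖v‖ < r := hv.trans_le (min_le_right _ _)
  have hn : 0 < ‖v‖ := norm_pos_iff.2 hv0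
  have hQv : 0 < Qf A v := lt_of_lt_of_le (by positivity) (hA v)
  set z : ℝ := ⟪e, v⟫_ℝ with hz
  have hz0 : 0 < z := by
    have : 0 < (1 + δ) * Qf A v := by positivity
    linarith
  have hzv : z ≤ ‖v‖ := by
    have := real_inner_le_norm e v
    rwa [he, one_mul] at this
  have hxv : ‖Pe e v‖ ≤ ‖v‖ := by
    have h1 := norm_Pe_sq he v
    have h2 : ‖Pe e v‖ ^ 2 ≤ ‖v‖ ^ 2 := by nlinarith [sq_nonneg ⟪e, v⟫_ℝ]
    exact le_of_sq_le_sq h2 (norm_nonneg _)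
  have hd := abs_le.1 (Qf_diff (A := A) he (x := Pe e v) (z := z) (r := r) (by linarith) hz0.le
    (by linarith))
  have hvv : Pe e v + z • e = v := Pe_add_smul e v
  rw [hvv] at hd
  have h1 := h (Pe e v) z (Pe_perp he v) hz0 (by linarith) (by
    have h4 : Qf A (Pe e v) ≤ Qf A v + 3 * ‖A‖ * r * z := by linarith [hd.1]
    have h5 : (1 + δ / 2) * (1 + δ) * Qf A (Pe e v) ≤
        (1 + δ / 2) * (1 + δ) * (Qf A v + 3 * ‖A‖ * r * z) :=
      mul_le_mul_of_nonneg_left h4 (by positivity)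
    have h6 := mul_le_mul_of_nonneg_left hvQ (show 0 ≤ 1 + δ / 2 by positivity)
    have h7 := mul_le_mul_of_nonneg_right hrA hz0.le
    have h8 : (1 + δ) * ((1 + δ / 2) * Qf A (Pe e v)) ≤ (1 + δ) * z := by linarith
    exact le_of_mul_le_mul_left h8 (by positivity))
  rwa [add_assoc, hvv] at h1

end one

/-! ### Compact sets of directions -/

lemma compact_unif {W : Set E} (hW : IsCompact W) {P : ℝ → E → Prop}
    (h : ∀ w ∈ W, ∃ ρ : ℝ, 0 < ρ ∧ ∀ (t : ℝ) (w' : E), 0 < t → t < ρ → dist w' w < ρ → P t w') :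
    ∃ ρ : ℝ, 0 < ρ ∧ ∀ w ∈ W, ∀ t : ℝ, 0 < t → t < ρ → P t w := by
  by_contra hcon
  push Not at hcon
  choose w hw t ht htρ hbad using fun k : ℕ => hcon (1 / ((k : ℝ) + 1)) (by positivity)
  obtain ⟨wi, hwi, φ, hφ, hlw⟩ := hW.tendsto_subseq hw
  obtain ⟨ρ, hρ, hP⟩ := h wi hwi
  have htl : Tendsto (fun k => t (φ k)) atTop (𝓝 0) :=
    (squeeze_zero (fun k => (ht k).le) (fun k => (htρ k).le)
      tendsto_one_div_add_atTop_nhds_zero_nat).comp hφ.tendsto_atTop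
  obtain ⟨k, h1, h2⟩ := ((htl.eventually_lt_const hρ).and (Metric.tendsto_nhds.1 hlw ρ hρ)).exists
  exact hbad (φ k) (hP _ _ (ht _) h1 h2)

/-! ### Vertices -/

section vert

variable {K : Set E} {y e w : E} {c : ℝ}

lemma Sl_Tc_int {T : Set E} (hw : w ∈ interior T) (L : Submodule ℝ E) :
    (0 : L) ∈ interior (Sl T w L) := Sl_int hw L

theorem vertex_up (hK : Convex ℝ K) (hy : y ∈ K) (hne : (interior K).Nonempty) (hc : 0 < c)
    (he : ‖e‖ = 1) (hcK : ∀ x ∈ K, c * ‖x - y‖ ≤ ⟪e, x - y⟫_ℝ) {N : ℕ} (hN : 1 ≤ N)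
    (hU : Up N (finrank ℝ E - 1)) {W : Set E} (hW : IsCompact W) (hWT : W ⊆ interior (Tc K y)) :
    ∃ ρ : ℝ, 0 < ρ ∧ ∀ w ∈ W, ∀ t : ℝ, 0 < t → t < ρ →
      y + t • w ∈ interior K ∧ Sepd (N + 1) K (y + t • w) := by
  have he0 : e ≠ 0 := by rintro rfl; simp at he
  have hf : finrank ℝ (Submodule.span ℝ {e})ᗮ = finrank ℝ E - 1 := by
    have h2 := Submodule.finrank_add_finrank_orthogonal (Submodule.span ℝ {e})
    rw [finrank_span_singleton he0] at h2
    omega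
  refine compact_unif hW (P := fun t w => y + t • w ∈ interior K ∧ Sepd (N + 1) K (y + t • w))
    fun w hw => vertex hK hy hne hc he hcK (hWT hw) hN ?_
  exact hU _ hf _ (Sl_convex (Tc_convex hK hy) _ _) (Sl_Tc_compact hc hcK w) 0 (Sl_int (hWT hw) _)

theorem vertex_three (hd : finrank ℝ E = 3) (hK : Convex ℝ K) (hy : y ∈ K)
    (hne : (interior K).Nonempty) (hc : 0 < c)
    (he : ‖e‖ = 1) (hcK : ∀ x ∈ K, c * ‖x - y‖ ≤ ⟪e, x - y⟫_ℝ) (hw : w ∈ interior (Tc K y)) :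
    (∃ ρ : ℝ, 0 < ρ ∧ ∀ (t : ℝ) (w' : E), 0 < t → t < ρ → dist w' w < ρ →
      y + t • w' ∈ interior K ∧ Sepd 4 K (y + t • w')) ∨
    Dg (Sl (Tc K y) w (Submodule.span ℝ {e})ᗮ) := by
  have he0 : e ≠ 0 := by rintro rfl; simp at he
  have hf : finrank ℝ (Submodule.span ℝ {e})ᗮ = 2 := by
    have h2 := Submodule.finrank_add_finrank_orthogonal (Submodule.span ℝ {e})
    rw [finrank_span_singleton he0] at h2
    omega
  rcases plane_three (V := (Submodule.span ℝ {e})ᗮ) hf (Sl_convex (Tc_convex hK hy) w _)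
    (Sl_Tc_compact hc hcK w) (Sl_int hw _) with h | h
  · exact Or.inl (vertex hK hy hne hc he hcK hw (by norm_num) h)
  · exact Or.inr h

end vert

/-! ### Corners -/

section cor

variable {ι : Type} [Finite ι] [Nonempty ι] {f : ι → E} {A : ι → E →L[ℝ] E}
  {L : Submodule ℝ E} {K : Set E} {y e w : E} {c c' : ℝ}

lemma Tf_convex (f : ι → E) : Convex ℝ (Tf f) := by
  intro x hx z hz a b ha hb _ i
  rw [inner_add_right, real_inner_smul_right, real_inner_smul_right]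
  exact add_nonneg (mul_nonneg ha (hx i)) (mul_nonneg hb (hz i))

lemma Co.int_T (h : Co f A L c) : w ∈ interior (Tf f) ↔ ∀ i, 0 < ⟪f i, w⟫_ℝ := by
  constructor
  · intro hw i
    have hf0 : f i ≠ 0 := by
      intro h0
      have := h.nrm i
      rw [h0, norm_zero] at this
      norm_num at this
    have h1 := strict_of_int (K := Tf f) (o' := 0) (e := f i) (o := w) hf0 (fun x hx => by
      rw [sub_zero]; exact hx i) hw
    rwa [sub_zero] at h1
  · intro hw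
    have ho : IsOpen {v : E | ∀ i, 0 < ⟪f i, v⟫_ℝ} := by
      have : {v : E | ∀ i, 0 < ⟪f i, v⟫_ℝ} = ⋂ i, {v | 0 < ⟪f i, v⟫_ℝ} := by
        ext v; simp
      rw [this]
      exact isOpen_iInter_of_finite fun i => isOpen_lt continuous_const (by fun_prop)
    exact interior_maximal (fun v hv i => (hv i).le) ho hw

theorem corner_up (hK : Convex ℝ K) (h : Co f A L c) (hS : Os K y f A)
    (hT : Cn (Tf f) L e c') {N : ℕ} (hN : 1 ≤ N)
    (hU : Up N (finrank ℝ E - 1 - finrank ℝ L)) {W : Set E} (hW : IsCompact W)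
    (hWT : W ⊆ interior (Tf f)) :
    ∃ ρ : ℝ, 0 < ρ ∧ ∀ w ∈ W, ∀ t : ℝ, 0 < t → t < ρ →
      y + t • w ∈ interior K ∧ Sepd (finrank ℝ L + N + 1) K (y + t • w) := by
  have hf := finrank_MM hT.e0 hT.perp
  refine compact_unif hW (P := fun t w => y + t • w ∈ interior K ∧
    Sepd (finrank ℝ L + N + 1) K (y + t • w))
    fun w hw => corner hK h hS (h.int_T.1 (hWT hw)) hT hN ?_
  exact hU (MM L e) (by omega) _ (Sl_convex (Tf_convex f) _ _) (hT.Sl_compact w) 0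
    (Sl_int (hWT hw) _)

theorem corner_three (hd : finrank ℝ E = 3) (hK : Convex ℝ K) (h : Co f A L c) (hS : Os K y f A)
    (hT : Cn (Tf f) L e c') (hw : w ∈ interior (Tf f)) :
    (∃ ρ : ℝ, 0 < ρ ∧ ∀ (t : ℝ) (w' : E), 0 < t → t < ρ → dist w' w < ρ →
      y + t • w' ∈ interior K ∧ Sepd 4 K (y + t • w')) ∨
    (L = ⊥ ∧ Dg (Sl (Tf f) w (Submodule.span ℝ {e})ᗮ)) := by
  have hf := finrank_MM hT.e0 hT.perp
  have hk : finrank ℝ L = 0 ∨ finrank ℝ L = 1 ∨ finrank ℝ L = 2 := by omega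
  rcases hk with hk | hk | hk
  · have hM : finrank ℝ (MM L e) = 2 := by omega
    rcases plane_three (V := MM L e) hM (Sl_convex (Tf_convex f) w _) (hT.Sl_compact w)
      (Sl_int hw _) with h2 | h2
    · left
      have := corner hK h hS (h.int_T.1 hw) hT (by norm_num) h2
      rwa [hk] at this
    · have hL : L = ⊥ := Submodule.finrank_eq_zero.1 hk
      refine Or.inr ⟨hL, h2.cast ?_⟩
      rw [MM, hL, bot_sup_eq]
  · have hM : finrank ℝ (MM L e) = 1 := by omega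
    left
    have := corner hK h hS (h.int_T.1 hw) hT (n := 2) (by norm_num)
      (up_low (j := 1) (by norm_num) (MM L e) hM _ (Sl_convex (Tf_convex f) w _)
        (hT.Sl_compact w) 0 (Sl_int hw _))
    rwa [hk] at this
  · have hM : finrank ℝ (MM L e) = 0 := by omega
    left
    have := corner hK h hS (h.int_T.1 hw) hT (n := 1) le_rfl (sepd_trivial hM _ _ _)
    rwa [hk] at this

end cor

end Pool.Agent.N321.NB
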