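import Pool.Agent.N321.NB.Core
import Pool.Agent.R753.SJ.H

set_option autoImplicit false
set_option linter.unusedSectionVars false

/-!
# Separating faces from points near a conical boundary point, second part
-/

namespace Pool.Agent.N321.NB

open scoped InnerProductSpace Topology
open Metric Module Filter Set
open Pool.Agent.R753.SJ (Sepd strict_of_int)

/-- positive hyperplanes -/
lemma pos_finset {V : Type*} [NormedAddCommGroup V] [InnerProductSpace ℝ V] {S : Set V} {n : ℕ}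
    (hn : 1 ≤ n) (hs : Sepd n S 0) : ∃ H : Finset (V × ℝ), H.card ≤ n ∧ H.Nonempty ∧
    (∀ g ∈ H, 0 < g.2) ∧ ∀ u x₀ : V, u ≠ 0 → x₀ ∈ S → (∀ y ∈ S, ⟪u, y⟫_ℝ ≤ ⟪u, x₀⟫_ℝ) →
      ∃ g ∈ H, ∀ x ∈ S, ⟪u, x⟫_ℝ = ⟪u, x₀⟫_ℝ → g.2 < ⟪g.1, x⟫_ℝ := by
  classical
  obtain ⟨H, hHc, -, hH⟩ := hs
  rcases (H.filter fun g => 0 < g.2).eq_empty_or_nonempty with h0 | h0
  · refine ⟨{(0, 1)}, by simpa using hn, by simp, by simp, fun u x₀ hu hx₀ hmax => ?_⟩
    exfalso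
    obtain ⟨g, hg, h1, -⟩ := hH u x₀ hu hx₀ hmax
    rw [inner_zero_right] at h1
    have : g ∈ H.filter fun g => 0 < g.2 := Finset.mem_filter.2 ⟨hg, h1⟩
    rw [h0] at this
    simp at this
  · refine ⟨H.filter fun g => 0 < g.2, (Finset.card_filter_le _ _).trans hHc, h0,
      fun g hg => (Finset.mem_filter.1 hg).2, fun u x₀ hu hx₀ hmax => ?_⟩
    obtain ⟨g, hg, h1, h2⟩ := hH u x₀ hu hx₀ hmax
    rw [inner_zero_right] at h1
    exact ⟨g, Finset.mem_filter.2 ⟨hg, h1⟩, h2⟩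

variable {E : Type} [NormedAddCommGroup E] [InnerProductSpace ℝ E] [FiniteDimensional ℝ E]

/-- the orthogonal complement of `L` and `e` -/
noncomputable abbrev MM (L : Submodule ℝ E) (e : E) : Submodule ℝ E := (L ⊔ Submodule.span ℝ {e})ᗮ

lemma mem_MM {L : Submodule ℝ E} {e v : E} :
    v ∈ MM L e ↔ (∀ l ∈ L, ⟪l, v⟫_ℝ = 0) ∧ ⟪e, v⟫_ℝ = 0 := by
  unfold MM
  rw [← Submodule.inf_orthogonal, Submodule.mem_inf,
    Submodule.mem_orthogonal_singleton_iff_inner_right, Submodule.mem_orthogonal]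

variable {K : Set E} {o' e : E} {L : Submodule ℝ E} {R r ε : ℝ}

/-- a functional which is maximal at `o'` vanishes on `L` -/
lemma Sit.perp' (h : Sit K o' e L R r ε) {u : E} (hu : ∀ y ∈ K, ⟪u, y⟫_ℝ ≤ ⟪u, o'⟫_ℝ) {l : E}
    (hl : l ∈ L) : ⟪u, l⟫_ℝ = 0 := by
  rcases eq_or_ne l 0 with rfl | hl0
  · simp
  have hn : 0 < ‖l‖ := norm_pos_iff.2 hl0
  have h0 := h.rpos
  have key : ∀ c : ℝ, |c| ≤ r / ‖l‖ → c * ⟪u, l⟫_ℝ ≤ 0 := by
    intro c hc
    have h1 := hu _ (h.rad (c • l) (L.smul_mem _ hl) (by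
      rw [norm_smul, Real.norm_eq_abs]
      rwa [le_div_iff₀ hn] at hc))
    rw [inner_add_right, real_inner_smul_right] at h1
    linarith
  have h1 := key (r / ‖l‖) (by rw [abs_of_pos (by positivity)])
  have h2 := key (-(r / ‖l‖)) (by rw [abs_neg, abs_of_pos (by positivity)])
  have h3 : 0 < r / ‖l‖ := by positivity
  nlinarith

lemma Sit.ee (h : Sit K o' e L R r ε) : ⟪e, e⟫_ℝ = 1 := by
  rw [real_inner_self_eq_norm_sq, h.nrm]; norm_num

/-- the `M`-component -/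
lemma Sit.comp_mem (h : Sit K o' e L R r ε) (v : E) : pz L v - ⟪e, v⟫_ℝ • e ∈ MM L e := by
  rw [mem_MM]
  refine ⟨fun l hl => ?_, ?_⟩
  · rw [inner_sub_right, real_inner_smul_right, inner_pz_of_mem hl, real_inner_comm e l, h.perp hl]
    ring
  · rw [inner_sub_right, real_inner_smul_right, h.ee, h.inner_pz]
    ring

lemma inner_MM_pz {g : E} (hg : g ∈ MM L e) (v : E) : ⟪g, pz L v - ⟪e, v⟫_ℝ • e⟫_ℝ = ⟪g, v⟫_ℝ := by
  obtain ⟨h1, h2⟩ := mem_MM.1 hg
  rw [inner_sub_right, real_inner_smul_right, real_inner_comm e g, h2]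
  have h3 := pl_add_pz L v
  have h4 : ⟪g, pl L v⟫_ℝ = 0 := by rw [real_inner_comm]; exact h1 _ (pl_mem L v)
  calc ⟪g, pz L v⟫_ℝ - ⟪e, v⟫_ℝ * 0 = ⟪g, pl L v⟫_ℝ + ⟪g, pz L v⟫_ℝ := by rw [h4]; ring
    _ = ⟪g, v⟫_ℝ := by rw [← inner_add_right, h3]

/-- the normal vector of a hyperplane through `o' + L` -/
noncomputable def gg (o' o e : E) (M : Submodule ℝ E) (g : M × ℝ) : E :=
  (g.1 : E) - ((g.2 + ⟪(g.1 : E), o - o'⟫_ℝ) / ⟪e, o - o'⟫_ℝ) • e

/-- **The faces which contain `o'`.** -/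
theorem Sit.faces (h : Sit K o' e L R r ε) {o : E} (ho : o ∈ K) (hκ : 0 < ⟪e, o - o'⟫_ℝ)
    (hs1 : 2 * ‖o - o'‖ ≤ r) {δ : ℝ} (hδ : 0 < δ)
    (hδ' : ∀ x ∈ K, δ * ‖pz L (x - o')‖ ≤ ⟪e, x - o'⟫_ℝ) (hs2 : 2 * ‖o - o'‖ ≤ ε * δ)
    (H : Finset (MM L e × ℝ)) (hHn : H.Nonempty)
    (hH : ∀ u x₀ : MM L e, u ≠ 0 → x₀ ∈ Sl K o (MM L e) →
      (∀ y ∈ Sl K o (MM L e), ⟪u, y⟫_ℝ ≤ ⟪u, x₀⟫_ℝ) →
      ∃ g ∈ H, ∀ x ∈ Sl K o (MM L e), ⟪u, x⟫_ℝ = ⟪u, x₀⟫_ℝ → g.2 < ⟪g.1, x⟫_ℝ)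
    {u : E} (hu : u ≠ 0) (hmax : ∀ y ∈ K, ⟪u, y⟫_ℝ ≤ ⟪u, o'⟫_ℝ) :
    ∃ g ∈ H, ∀ x ∈ K, ⟪u, x⟫_ℝ = ⟪u, o'⟫_ℝ → 0 ≤ ⟪gg o' o e (MM L e) g, x - o'⟫_ℝ := by
  classical
  have hperp : ∀ l ∈ L, ⟪u, l⟫_ℝ = 0 := fun l hl => h.perp' hmax hl
  -- on the face `F` all functionals vanish
  have hF : ∀ g : MM L e × ℝ, ∀ x ∈ K, ⟪e, x - o'⟫_ℝ = 0 →
      ⟪gg o' o e (MM L e) g, x - o'⟫_ℝ = 0 := by
    intro g x hx hx0
    have h1 := h.fac x hx hx0
    have h2 := (mem_MM.1 g.1.2).1 _ h1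
    rw [gg, inner_sub_left, real_inner_smul_left, hx0, real_inner_comm, h2]
    ring
  set uM : E := u - ⟪u, e⟫_ℝ • e with huM
  have huMm : uM ∈ MM L e := by
    rw [mem_MM]
    refine ⟨fun l hl => ?_, ?_⟩
    · rw [huM, inner_sub_right, real_inner_smul_right, real_inner_comm u l, hperp l hl,
        real_inner_comm e l, h.perp hl]
      ring
    · rw [huM, inner_sub_right, real_inner_smul_right, h.ee, real_inner_comm]
      ring
  have huMi : ∀ m ∈ MM L e, ⟪uM, m⟫_ℝ = ⟪u, m⟫_ℝ := by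
    intro m hm
    rw [huM, inner_sub_left, real_inner_smul_left, (mem_MM.1 hm).2]
    ring
  by_cases h0 : uM = 0
  · -- only the face `F`
    obtain ⟨g, hg⟩ := hHn
    refine ⟨g, hg, fun x hx hxu => ?_⟩
    have h1 : u = ⟪u, e⟫_ℝ • e := sub_eq_zero.1 h0
    have h2 : ⟪u, e⟫_ℝ ≠ 0 := by
      intro h3
      rw [h3, zero_smul] at h1
      exact hu h1
    have h3 : ⟪e, x - o'⟫_ℝ = 0 := by
      have h4 : ⟪u, x - o'⟫_ℝ = 0 := by rw [inner_sub_right, hxu]; ring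
      rw [h1, real_inner_smul_left] at h4
      exact (mul_eq_zero.1 h4).resolve_left h2
    rw [hF g x hx h3]
  · have h0S : (0 : MM L e) ∈ Sl K o (MM L e) := by
      show o + ((0 : MM L e) : E) ∈ K
      rw [Submodule.coe_zero, add_zero]
      exact ho
    have hne : (⟨uM, huMm⟩ : MM L e) ≠ 0 := by
      intro h1
      exact h0 (congrArg Subtype.val h1)
    obtain ⟨m₀, hm₀, hm₀m⟩ := (Sl_compact h.cpt o (MM L e)).exists_isMaxOn ⟨0, h0S⟩
      (f := fun y => ⟪(⟨uM, huMm⟩ : MM L e), y⟫_ℝ) (by fun_prop)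
    obtain ⟨g, hg, hgs⟩ := hH ⟨uM, huMm⟩ m₀ hne hm₀ (fun y hy => hm₀m hy)
    refine ⟨g, hg, fun x hx hxu => ?_⟩
    rcases (h.pos x hx).eq_or_lt with hc0 | hc
    · rw [hF g x hx hc0.symm]
    set c := ⟪e, x - o'⟫_ℝ with hcdef
    set κ := ⟪e, o - o'⟫_ℝ with hκdef
    set mx : E := pz L (x - o') - c • e with hmx
    set mo : E := pz L (o - o') - κ • e with hmo
    have hmxm : mx ∈ MM L e := h.comp_mem _
    have hmom : mo ∈ MM L e := h.comp_mem _
    set m' : E := (κ / c) • mx - mo with hm'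
    have hm'm : m' ∈ MM L e := Submodule.sub_mem _ (Submodule.smul_mem _ _ hmxm) hmom
    -- the point of the section
    have e1 : o + m' = o' + pl L (o - o') + (κ / c) • pz L (x - o') := by
      have h1 : o = o' + (pl L (o - o') + pz L (o - o')) := by rw [pl_add_pz, add_sub_cancel]
      have h2 : (κ / c) • mx = (κ / c) • pz L (x - o') - κ • e := by
        rw [hmx, smul_sub, smul_smul, div_mul_cancel₀ _ hc.ne']
      rw [hm', h2, hmo]
      nth_rewrite 1 [h1]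
      abel
    have hmemK : o + m' ∈ K := by
      have h1 : o' + (2 : ℝ) • pl L (o - o') ∈ K := h.rad _ (L.smul_mem _ (pl_mem L _)) (by
        rw [norm_smul, Real.norm_eq_abs, abs_of_pos (by norm_num : (0 : ℝ) < 2)]
        have := norm_pl_le L (o - o')
        linarith)
      have h2 : o' + (2 * (κ / c)) • pz L (x - o') ∈ K := h.cone hx (by positivity) (by
        have h3 := hδ' x hx
        have h4 : κ ≤ ‖o - o'‖ := by
          have := real_inner_le_norm e (o - o')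
          rwa [h.nrm, one_mul] at this
        have h5 : 2 * (κ / c) * ‖pz L (x - o')‖ ≤ 2 * (κ / c) * (c / δ) := by
          refine mul_le_mul_of_nonneg_left ?_ (by positivity)
          rw [le_div_iff₀ hδ]
          linarith
        have h6 : 2 * (κ / c) * (c / δ) = 2 * κ / δ := by field_simp
        rw [h6] at h5
        refine h5.trans ?_
        rw [div_le_iff₀ hδ]
        linarith)
      have h3 := h.cvx h1 h2 (a := 1 / 2) (b := 1 / 2) (by norm_num) (by norm_num) (by norm_num)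
      rw [e1]
      convert h3 using 1
      rw [smul_add, smul_add, smul_smul, smul_smul]
      have e2 : (1 / 2 : ℝ) • o' + (1 / 2 : ℝ) • o' = o' := by
        rw [← add_smul]; norm_num
      have e3 : (1 / 2 : ℝ) * 2 = 1 := by norm_num
      have e4 : (1 / 2 : ℝ) * (2 * (κ / c)) = κ / c := by ring
      rw [e3, e4, one_smul]
      nth_rewrite 1 [← e2]
      abel
    have hsec : (⟨m', hm'm⟩ : MM L e) ∈ Sl K o (MM L e) := hmemK
    -- it is maximal
    have hval : ⟪u, o + m' - o'⟫_ℝ = 0 := by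
      have e2 : o + m' - o' = pl L (o - o') + (κ / c) • pz L (x - o') := by
        rw [e1]; abel
      rw [e2, inner_add_right, real_inner_smul_right, hperp _ (pl_mem L _)]
      have h3 : ⟪u, pz L (x - o')⟫_ℝ = 0 := by
        have h4 := pl_add_pz L (x - o')
        have h5 : ⟪u, x - o'⟫_ℝ = 0 := by rw [inner_sub_right, hxu]; ring
        rw [← h4, inner_add_right, hperp _ (pl_mem L _), zero_add] at h5
        exact h5
      rw [h3]
      ring
    have hmaxv : ∀ m ∈ Sl K o (MM L e), ⟪u, (m : E)⟫_ℝ ≤ ⟪u, m'⟫_ℝ := by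
      intro m hm
      have h3 := hmax _ hm
      rw [inner_add_right] at h3
      rw [inner_sub_right, inner_add_right] at hval
      linarith
    have heq : ⟪(⟨uM, huMm⟩ : MM L e), (⟨m', hm'm⟩ : MM L e)⟫_ℝ =
        ⟪(⟨uM, huMm⟩ : MM L e), m₀⟫_ℝ := by
      refine le_antisymm (hm₀m hsec) ?_
      rw [Submodule.coe_inner, Submodule.coe_inner]
      show ⟪uM, (m₀ : E)⟫_ℝ ≤ ⟪uM, m'⟫_ℝ
      rw [huMi _ m₀.2, huMi _ hm'm]
      exact hmaxv _ hm₀
    have h1 := hgs _ hsec heq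
    rw [Submodule.coe_inner] at h1
    have h2 : ⟪(g.1 : E), m'⟫_ℝ = κ / c * ⟪(g.1 : E), x - o'⟫_ℝ - ⟪(g.1 : E), o - o'⟫_ℝ := by
      rw [hm', inner_sub_right, real_inner_smul_right, hmx, hmo, inner_MM_pz g.1.2,
        inner_MM_pz g.1.2]
    have h3 : g.2 < κ / c * ⟪(g.1 : E), x - o'⟫_ℝ - ⟪(g.1 : E), o - o'⟫_ℝ := by
      rw [← h2]; exact h1
    rw [gg, inner_sub_left, real_inner_smul_left]
    have h4 : (g.2 + ⟪(g.1 : E), o - o'⟫_ℝ) / κ * c ≤ ⟪(g.1 : E), x - o'⟫_ℝ := by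
      rw [div_mul_eq_mul_div, div_le_iff₀ hκ]
      have h5 : g.2 + ⟪(g.1 : E), o - o'⟫_ℝ ≤ κ / c * ⟪(g.1 : E), x - o'⟫_ℝ := by linarith
      have h6 := mul_le_mul_of_nonneg_right h5 hc.le
      have h7 : κ / c * ⟪(g.1 : E), x - o'⟫_ℝ * c = ⟪(g.1 : E), x - o'⟫_ℝ * κ := by
        field_simp
      linarith
    linarith

/-- **Main theorem of this file.** -/
theorem Sit.near (h : Sit K o' e L R r ε) {n : ℕ} (hn : 1 ≤ n) (hs : Sepd n (Sl K o' L) 0) :
    ∃ ρ : ℝ, 0 < ρ ∧ ∀ o ∈ interior K, dist o o' < ρ → ∀ m : ℕ, 1 ≤ m →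
      Sepd m (Sl K o (MM L e)) 0 → Sepd (n + m) K o := by
  classical
  obtain ⟨H, hHc, hHn, hHp, hH⟩ := pos_finset hn hs
  obtain ⟨g₀, hg₀⟩ := hHn
  obtain ⟨N, hN⟩ := h.slope H ⟨g₀, hg₀, hHp g₀ hg₀⟩ (fun u x₀ hu hx₀ hm => by
    obtain ⟨g, hg, h1⟩ := hH u x₀ hu hx₀ hm
    exact ⟨g, hg, hHp g hg, h1⟩)
  obtain ⟨δ, hδ, hδ'⟩ := h.pointed
  have he0 : e ≠ 0 := by
    rintro rfl
    have := h.nrm
    simp at this
  have hr := h.rpos
  have hε := h.epos
  -- the inner sides of the first hyperplanes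
  obtain ⟨ρ₁, hρ₁, hin⟩ : ∃ ρ₁ : ℝ, 0 < ρ₁ ∧ ∀ o : E, dist o o' < ρ₁ → ∀ g ∈ H,
      ⟪(g.1 : E) + ((N : ℝ) + 1) • e, o - o'⟫_ℝ < g.2 / 2 := by
    have hev : ∀ᶠ o in 𝓝 o', ∀ g ∈ H, ⟪(g.1 : E) + ((N : ℝ) + 1) • e, o - o'⟫_ℝ < g.2 / 2 := by
      rw [Filter.eventually_all_finset]
      intro g hg
      have hc : Continuous fun o : E => ⟪(g.1 : E) + ((N : ℝ) + 1) • e, o - o'⟫_ℝ := by fun_prop
      refine hc.continuousAt.eventually_lt continuousAt_const ?_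
      rw [sub_self, inner_zero_right]
      exact half_pos (hHp g hg)
    obtain ⟨ρ₁, h1, h2⟩ := Metric.eventually_nhds_iff.1 hev
    exact ⟨ρ₁, h1, fun o ho => h2 ho⟩
  refine ⟨min ρ₁ (min (r / 2) (ε * δ / 2)), by positivity, fun o ho hd m hm hs' => ?_⟩
  have hd1 : dist o o' < ρ₁ := hd.trans_le (min_le_left _ _)
  have hd2 : ‖o - o'‖ < r / 2 := by
    rw [← dist_eq_norm]
    exact hd.trans_le ((min_le_right _ _).trans (min_le_left _ _))
  have hd3 : ‖o - o'‖ < ε * δ / 2 := by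
    rw [← dist_eq_norm]
    exact hd.trans_le ((min_le_right _ _).trans (min_le_right _ _))
  have hκ : 0 < ⟪e, o - o'⟫_ℝ := strict_of_int he0 h.pos ho
  obtain ⟨H', hHc', hHn', hHp', hH'⟩ := pos_finset hm hs'
  have hoo : ∀ g : MM L e × ℝ, ⟪gg o' o e (MM L e) g, o - o'⟫_ℝ = -g.2 := by
    intro g
    rw [gg, inner_sub_left, real_inner_smul_left, div_mul_cancel₀ _ hκ.ne']
    ring
  refine ⟨H.image (fun g => ((g.1 : E) + ((N : ℝ) + 1) • e,
      ⟪(g.1 : E) + ((N : ℝ) + 1) • e, o'⟫_ℝ + g.2 / 2)) ∪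
    H'.image (fun g => (gg o' o e (MM L e) g, ⟪gg o' o e (MM L e) g, o'⟫_ℝ - g.2 / 2)), ?_, ?_, ?_⟩
  · refine (Finset.card_union_le _ _).trans (add_le_add ?_ ?_)
    · exact Finset.card_image_le.trans hHc
    · exact Finset.card_image_le.trans hHc'
  · intro p hp
    rcases Finset.mem_union.1 hp with hp | hp
    · obtain ⟨g, hg, rfl⟩ := Finset.mem_image.1 hp
      intro h0
      have h1 : ⟪e, (g.1 : E) + ((N : ℝ) + 1) • e⟫_ℝ = 0 := by
        simp only at h0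
        rw [h0, inner_zero_right]
      rw [inner_add_right, real_inner_smul_right, h.ee, h.perp g.1.2] at h1
      have : (0 : ℝ) < N + 1 := by positivity
      linarith
    · obtain ⟨g, hg, rfl⟩ := Finset.mem_image.1 hp
      intro h0
      simp only at h0
      have h1 := hoo g
      rw [h0, inner_zero_left] at h1
      have := hHp' g hg
      linarith
  · intro u x₀ hu hx₀ hmax
    rcases (hmax o' h.mem).eq_or_lt with heq | hlt
    · -- faces containing `o'`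
      obtain ⟨g, hg, hgs⟩ := h.faces (interior_subset ho) hκ (by linarith) hδ hδ' (by linarith) H' hHn'
        hH' hu (fun y hy => by rw [heq]; exact hmax y hy)
      refine ⟨_, Finset.mem_union_right _ (Finset.mem_image_of_mem _ hg), ?_, ?_⟩
      · have h1 := hoo g
        have h2 := hHp' g hg
        simp only
        rw [inner_sub_right] at h1
        linarith
      · intro x hx hxu
        have h1 := hgs x hx (by rw [hxu, heq])
        have h2 := hHp' g hg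
        simp only
        rw [inner_sub_right] at h1
        linarith
    · obtain ⟨g, hg, hgp, hgs⟩ := hN u x₀ hx₀ hmax hlt
      refine ⟨_, Finset.mem_union_left _ (Finset.mem_image_of_mem _ hg), ?_, ?_⟩
      · have h1 := hin o hd1 g hg
        simp only
        rw [inner_sub_right] at h1
        linarith
      · intro x hx hxu
        have h1 := hgs x hx hxu
        simp only
        have h2 : ⟪(g.1 : E) + ((N : ℝ) + 1) • e, x - o'⟫_ℝ =
            ⟪(g.1 : E), x - o'⟫_ℝ + ((N : ℝ) + 1) * ⟪e, x - o'⟫_ℝ := by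
          rw [inner_add_left, real_inner_smul_left]
        rw [← h2, inner_sub_right] at h1
        linarith

end Pool.Agent.N321.NB
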