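import Pool.Agent.N321.NB.Vert

set_option autoImplicit false
set_option linter.unusedSectionVars false

/-!
# Blow-ups at points of positive curvature
-/

namespace Pool.Agent.N321.NB

open scoped InnerProductSpace Topology
open Metric Module Filter Set
open Pool.Agent.R753.SJ (Sepd strict_of_int)

variable {E : Type} [NormedAddCommGroup E] [InnerProductSpace ℝ E] [FiniteDimensional ℝ E]

/-- the component orthogonal to `e` -/
noncomputable def Pe (e v : E) : E := v - ⟪e, v⟫_ℝ • e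

lemma Pe_perp {e : E} (he : ‖e‖ = 1) (v : E) : ⟪e, Pe e v⟫_ℝ = 0 := by
  rw [Pe, inner_sub_right, real_inner_smul_right, real_inner_self_eq_norm_sq, he]
  ring

lemma Pe_add_smul (e v : E) : Pe e v + ⟪e, v⟫_ℝ • e = v := by simp [Pe]

lemma Pe_combo (e x z : E) (a b : ℝ) : Pe e (a • x + b • z) = a • Pe e x + b • Pe e z := by
  simp only [Pe, inner_add_right, real_inner_smul_right, smul_sub, add_smul, smul_smul]
  abel

lemma Pe_cont (e : E) : Continuous (Pe e) := by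
  unfold Pe
  fun_prop

lemma Pe_e {e : E} (he : ‖e‖ = 1) : Pe e e = 0 := by
  rw [Pe, real_inner_self_eq_norm_sq, he]
  simp

lemma norm_Pe_sq {e : E} (he : ‖e‖ = 1) (v : E) : ‖v‖ ^ 2 = ‖Pe e v‖ ^ 2 + ⟪e, v⟫_ℝ ^ 2 := by
  have h1 := norm_add_sq_real (Pe e v) (⟪e, v⟫_ℝ • e)
  rw [Pe_add_smul, real_inner_smul_right, real_inner_comm e (Pe e v), Pe_perp he, norm_smul, he,
    Real.norm_eq_abs, mul_one, sq_abs] at h1
  linarith

/-- the quadratic form -/
noncomputable def Qf (A : E →L[ℝ] E) (x : E) : ℝ := ⟪A x, x⟫_ℝ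

lemma Qf_smul (A : E →L[ℝ] E) (s : ℝ) (x : E) : Qf A (s • x) = s ^ 2 * Qf A x := by
  rw [Qf, Qf, map_smul, real_inner_smul_left, real_inner_smul_right]
  ring

lemma Qf_combo (A : E →L[ℝ] E) (x z : E) {a b : ℝ} (hab : a + b = 1) :
    Qf A (a • x + b • z) = a * Qf A x + b * Qf A z - a * b * Qf A (x - z) := by
  simp only [Qf, map_add, map_smul, map_sub, inner_add_left, inner_add_right, inner_sub_left,
    inner_sub_right, real_inner_smul_left, real_inner_smul_right]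
  have : b = 1 - a := by linarith
  subst this
  ring

lemma Qf_cont (A : E →L[ℝ] E) : Continuous (Qf A) := by
  unfold Qf
  fun_prop

/-- the paraboloid -/
def Pb (A : E →L[ℝ] E) (e X : E) : Set E := {v | Qf A (Pe e v + X) ≤ ⟪e, v⟫_ℝ + 1}

lemma Pb_closed (A : E →L[ℝ] E) (e X : E) : IsClosed (Pb A e X) :=
  isClosed_le ((Qf_cont A).comp ((Pe_cont e).add continuous_const)) (by fun_prop)

variable {A : E →L[ℝ] E} {e X : E} {c : ℝ}

lemma Pb_shift (X x z : E) (e : E) {a b : ℝ} (hab : a + b = 1) :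
    Pe e (a • x + b • z) + X = a • (Pe e x + X) + b • (Pe e z + X) := by
  rw [Pe_combo, smul_add, smul_add]
  have : X = a • X + b • X := by rw [← add_smul, hab, one_smul]
  nth_rewrite 1 [this]
  abel

lemma Pb_convex (he : ‖e‖ = 1) (hc : 0 < c) (hA : ∀ x, ⟪e, x⟫_ℝ = 0 → c * ‖x‖ ^ 2 ≤ Qf A x) :
    Convex ℝ (Pb A e X) := by
  intro x hx z hz a b ha hb hab
  show Qf A (Pe e (a • x + b • z) + X) ≤ ⟪e, a • x + b • z⟫_ℝ + 1
  have hx' : Qf A (Pe e x + X) ≤ ⟪e, x⟫_ℝ + 1 := hx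
  have hz' : Qf A (Pe e z + X) ≤ ⟪e, z⟫_ℝ + 1 := hz
  rw [Pb_shift X x z e hab, Qf_combo A _ _ hab, inner_add_right, real_inner_smul_right,
    real_inner_smul_right]
  have h1 : 0 ≤ Qf A (Pe e x + X - (Pe e z + X)) := by
    refine (by positivity : 0 ≤ c * ‖Pe e x + X - (Pe e z + X)‖ ^ 2).trans (hA _ ?_)
    rw [add_sub_add_right_eq_sub, inner_sub_right, Pe_perp he, Pe_perp he, sub_zero]
  have h2 : 0 ≤ a * b * Qf A (Pe e x + X - (Pe e z + X)) := by positivity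
  have h3 := mul_le_mul_of_nonneg_left hx' ha
  have h4 := mul_le_mul_of_nonneg_left hz' hb
  have h5 : b = 1 - a := by linarith
  nlinarith

lemma Pb_int (he : ‖e‖ = 1) {v : E} :
    v ∈ interior (Pb A e X) ↔ Qf A (Pe e v + X) < ⟪e, v⟫_ℝ + 1 := by
  constructor
  · intro hv
    have hvm : v ∈ Pb A e X := interior_subset hv
    have h1 : Qf A (Pe e v + X) ≤ ⟪e, v⟫_ℝ + 1 := hvm
    refine lt_of_le_of_ne h1 fun heq => ?_
    have hcont : Continuous fun s : ℝ => v - s • e := by fun_prop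
    have hv0 : v - (0 : ℝ) • e ∈ interior (Pb A e X) := by
      rwa [zero_smul, sub_zero]
    have hev : ∀ᶠ s in 𝓝 (0 : ℝ), v - s • e ∈ interior (Pb A e X) :=
      hcont.continuousAt.eventually (isOpen_interior.mem_nhds hv0)
    obtain ⟨s, hs, hs1⟩ := ((hev.filter_mono (nhdsWithin_le_nhds (s := Set.Ioi 0))).and
      self_mem_nhdsWithin).exists
    have hs1' : (0 : ℝ) < s := hs1
    have hsm : v - s • e ∈ Pb A e X := interior_subset hs
    have h2 : Qf A (Pe e (v - s • e) + X) ≤ ⟪e, v - s • e⟫_ℝ + 1 := hsm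
    have h3 : Pe e (v - s • e) = Pe e v := by
      have := Pe_combo e v e 1 (-s)
      rw [one_smul, one_smul, Pe_e he, smul_zero, add_zero, neg_smul, ← sub_eq_add_neg] at this
      exact this
    rw [h3, heq, inner_sub_right, real_inner_smul_right, real_inner_self_eq_norm_sq, he] at h2
    linarith
  · intro hv
    have ho : IsOpen {v : E | Qf A (Pe e v + X) < ⟪e, v⟫_ℝ + 1} :=
      isOpen_lt ((Qf_cont A).comp ((Pe_cont e).add continuous_const)) (by fun_prop)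
    have hsub : {v : E | Qf A (Pe e v + X) < ⟪e, v⟫_ℝ + 1} ⊆ Pb A e X :=
      fun v hv => le_of_lt (mem_setOf_eq ▸ hv)
    exact interior_maximal hsub ho hv

lemma not_int_of_max {C : Set E} {u q : E} (hu : u ≠ 0) (hmax : ∀ x ∈ C, ⟪u, x⟫_ℝ ≤ ⟪u, q⟫_ℝ) :
    q ∉ interior C := by
  intro hq
  have hcont : Continuous fun s : ℝ => q + s • u := by fun_prop
  have hq0 : q + (0 : ℝ) • u ∈ interior C := by
    rwa [zero_smul, add_zero]
  have hev : ∀ᶠ s in 𝓝 (0 : ℝ), q + s • u ∈ interior C :=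
    hcont.continuousAt.eventually (isOpen_interior.mem_nhds hq0)
  obtain ⟨s, hs, hs1⟩ := ((hev.filter_mono (nhdsWithin_le_nhds (s := Set.Ioi 0))).and
    self_mem_nhdsWithin).exists
  have hs1' : (0 : ℝ) < s := hs1
  have h2 := hmax _ (interior_subset hs)
  rw [inner_add_right, real_inner_smul_right, real_inner_self_eq_norm_sq] at h2
  have h3 : 0 < s * ‖u‖ ^ 2 := by
    have := norm_pos_iff.2 hu
    positivity
  linarith

lemma Pb_face (he : ‖e‖ = 1) (hc : 0 < c) (hA : ∀ x, ⟪e, x⟫_ℝ = 0 → c * ‖x‖ ^ 2 ≤ Qf A x)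
    {u q x : E} (hu : u ≠ 0) (hq : q ∈ Pb A e X) (hmax : ∀ x ∈ Pb A e X, ⟪u, x⟫_ℝ ≤ ⟪u, q⟫_ℝ)
    (hx : x ∈ Pb A e X) (hxu : ⟪u, x⟫_ℝ = ⟪u, q⟫_ℝ) : x = q := by
  have heq : ∀ z ∈ Pb A e X, ⟪u, z⟫_ℝ = ⟪u, q⟫_ℝ → Qf A (Pe e z + X) = ⟪e, z⟫_ℝ + 1 := by
    intro z hz hzu
    have h1 : Qf A (Pe e z + X) ≤ ⟪e, z⟫_ℝ + 1 := hz
    refine le_antisymm h1 (not_lt.1 fun h2 => ?_)
    exact not_int_of_max hu (fun x hx => by rw [hzu]; exact hmax x hx) ((Pb_int he).2 h2)
  have hm := Pb_convex (X := X) he hc hA hq hx (a := 1 / 2) (b := 1 / 2) (by norm_num) (by norm_num)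
    (by norm_num)
  have h1 := heq _ hm (by
    rw [inner_add_right, real_inner_smul_right, real_inner_smul_right, hxu]; ring)
  rw [Pb_shift X q x e (by norm_num), Qf_combo A _ _ (by norm_num), heq q hq rfl, heq x hx hxu,
    inner_add_right, real_inner_smul_right, real_inner_smul_right] at h1
  have h2 : Qf A (Pe e q + X - (Pe e x + X)) = 0 := by linarith
  rw [add_sub_add_right_eq_sub] at h2
  have h3 := hA (Pe e q - Pe e x) (by
    rw [inner_sub_right, Pe_perp he, Pe_perp he, sub_zero])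
  rw [h2] at h3
  have h4 : ‖Pe e q - Pe e x‖ ^ 2 ≤ 0 := by
    by_contra hcon
    push Not at hcon
    have : 0 < c * ‖Pe e q - Pe e x‖ ^ 2 := by positivity
    linarith
  have h5 : ‖Pe e q - Pe e x‖ = 0 := by
    have := norm_nonneg (Pe e q - Pe e x)
    nlinarith
  have h6 : Pe e q = Pe e x := sub_eq_zero.1 (norm_eq_zero.1 h5)
  have h7 := heq q hq rfl
  have h8 := heq x hx hxu
  rw [h6, h8] at h7
  have h9 : ⟪e, x⟫_ℝ = ⟪e, q⟫_ℝ := by linarith
  rw [← Pe_add_smul e x, ← Pe_add_smul e q, h6, h9]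

/-- directions spanning positively -/
lemma dirs (V : Type) [NormedAddCommGroup V] [InnerProductSpace ℝ V] [FiniteDimensional ℝ V] :
    ∃ (W : Finset V) (c : ℝ), W.card ≤ finrank ℝ V + 1 ∧ 0 < c ∧ ∀ v : V, ∃ w ∈ W,
      c * ‖v‖ ≤ ⟪w, v⟫_ℝ := by
  classical
  set m := finrank ℝ V with hm
  set b := stdOrthonormalBasis ℝ V with hb
  refine ⟨insert (-∑ i, b i) (Finset.univ.image b), 1 / ((m : ℝ) + 1) ^ 2, ?_, by positivity, ?_⟩
  · refine (Finset.card_insert_le _ _).trans (Nat.add_le_add_right (Finset.card_image_le.trans ?_) 1)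
    simp
    exact le_of_eq hm.symm
  · intro v
    by_contra hcon
    push Not at hcon
    set c' : ℝ := 1 / ((m : ℝ) + 1) ^ 2 with hc'
    have hc'0 : 0 < c' := by positivity
    have h0 := hcon _ (Finset.mem_insert_self _ _)
    have h1 : ∀ i, ⟪b i, v⟫_ℝ < c' * ‖v‖ := fun i => hcon _
      (Finset.mem_insert_of_mem (Finset.mem_image_of_mem _ (Finset.mem_univ i)))
    rw [inner_neg_left, sum_inner] at h0
    have hsum : ∑ i, ⟪b i, v⟫_ℝ ^ 2 = ‖v‖ ^ 2 := by
      have := b.sum_sq_norm_inner_right v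
      simpa [Real.norm_eq_abs, sq_abs] using this
    have h2 : ∀ i, ⟪b i, v⟫_ℝ ^ 2 ≤ ((m : ℝ) * (c' * ‖v‖)) ^ 2 := by
      intro i
      have hm1 : 1 ≤ m := by
        have := i.2
        omega
      have hm1' : (1 : ℝ) ≤ m := by exact_mod_cast hm1
      have hcv : 0 ≤ c' * ‖v‖ := by positivity
      have h3 : ∑ j, ⟪b j, v⟫_ℝ ≤ ⟪b i, v⟫_ℝ + ((m : ℝ) - 1) * (c' * ‖v‖) := by
        rw [← Finset.add_sum_erase _ _ (Finset.mem_univ i)]
        refine add_le_add le_rfl ?_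
        have h4 := Finset.sum_le_card_nsmul (Finset.univ.erase i) (fun j => ⟪b j, v⟫_ℝ)
          (c' * ‖v‖) (fun j _ => (h1 j).le)
        rw [Finset.card_erase_of_mem (Finset.mem_univ i), Finset.card_univ, Fintype.card_fin,
          nsmul_eq_mul, Nat.cast_sub (by omega)] at h4
        simpa using h4
      have h5 : -⟪b i, v⟫_ℝ ≤ (m : ℝ) * (c' * ‖v‖) := by linarith
      have h6 : ⟪b i, v⟫_ℝ ≤ (m : ℝ) * (c' * ‖v‖) := (h1 i).le.trans (by nlinarith)
      exact sq_le_sq' (by linarith) h6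
    have h7 : ‖v‖ ^ 2 ≤ m * ((m : ℝ) * (c' * ‖v‖)) ^ 2 := by
      rw [← hsum]
      have h4 := Finset.sum_le_card_nsmul Finset.univ (fun j => ⟪b j, v⟫_ℝ ^ 2) _
        (fun j _ => h2 j)
      rw [Finset.card_univ, Fintype.card_fin, nsmul_eq_mul] at h4
      exact h4
    rcases eq_or_ne v 0 with rfl | hv
    · simp at h0
    have hv0 : 0 < ‖v‖ := norm_pos_iff.2 hv
    have h8 : (m : ℝ) * ((m : ℝ) * (c' * ‖v‖)) ^ 2 = (m ^ 3 * c' ^ 2) * ‖v‖ ^ 2 := by ring
    rw [h8] at h7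
    have h9 : (m : ℝ) ^ 3 * c' ^ 2 < 1 := by
      rw [hc', div_pow, one_pow, mul_one_div, div_lt_one (by positivity)]
      have hm0 : (0 : ℝ) ≤ m := Nat.cast_nonneg m
      have h10 : (((m : ℝ) + 1) ^ 2) ^ 2 = (m + 1) ^ 3 * (m + 1) := by ring
      rw [h10]
      have h11 : (m : ℝ) ^ 3 < (m + 1) ^ 3 := pow_lt_pow_left₀ (by linarith) hm0 (by norm_num)
      have h12 : (0 : ℝ) < (m + 1) ^ 3 := by positivity
      nlinarith
    have h13 : 0 < ‖v‖ ^ 2 := by positivity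
    nlinarith

end Pool.Agent.N321.NB
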