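import Pool.Agent.N321.NB.Par

set_option autoImplicit false
set_option linter.unusedSectionVars false

/-!
# Blow-ups at points of positive curvature, second part
-/

namespace Pool.Agent.N321.NB

open scoped InnerProductSpace Topology
open Metric Module Filter Set
open Pool.Agent.R753.SJ (Sepd strict_of_int)

variable {E : Type} [NormedAddCommGroup E] [InnerProductSpace ℝ E] [FiniteDimensional ℝ E]
variable {A : E →L[ℝ] E} {e X : E} {c : ℝ}

/-- recession directions do not matter -/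
lemma Pb_rec (he : ‖e‖ = 1) (hc : 0 < c) (hA : ∀ x, ⟪e, x⟫_ℝ = 0 → c * ‖x‖ ^ 2 ≤ Qf A x)
    {u q d : E} (hu : u ≠ 0) (hq : q ∈ Pb A e X) (hmax : ∀ x ∈ Pb A e X, ⟪u, x⟫_ℝ ≤ ⟪u, q⟫_ℝ)
    (hd : ∀ s : ℝ, 0 ≤ s → s • d ∈ Pb A e X) (hud : ⟪u, d⟫_ℝ = 0) : d = 0 := by
  have h1 : q + d ∈ Pb A e X := by
    have h2 : Tendsto (fun k : ℕ => (1 - 1 / ((k : ℝ) + 1)) • q + d) atTop
        (𝓝 ((1 - (0 : ℝ)) • q + d)) :=
      ((tendsto_const_nhds.sub tendsto_one_div_add_atTop_nhds_zero_nat).smul_const q).add_const d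
    rw [sub_zero, one_smul] at h2
    refine (Pb_closed A e X).mem_of_tendsto h2 (Eventually.of_forall fun k => ?_)
    have hk : (0 : ℝ) < (k : ℝ) + 1 := by positivity
    have h3 := Pb_convex (X := X) he hc hA hq (hd ((k : ℝ) + 1) hk.le)
      (a := 1 - 1 / ((k : ℝ) + 1)) (b := 1 / ((k : ℝ) + 1)) (by
        rw [sub_nonneg, div_le_one hk]
        have : (0 : ℝ) ≤ k := Nat.cast_nonneg k
        linarith) (by positivity) (by ring)
    rwa [smul_smul (1 / ((k : ℝ) + 1)), one_div_mul_cancel hk.ne', one_smul] at h3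
  have h2 := Pb_face he hc hA hu hq hmax h1 (by rw [inner_add_right, hud, add_zero])
  simpa using h2

/-- directions in the hyperplane orthogonal to `e` -/
lemma dirs' (he : ‖e‖ = 1) : ∃ (W : Finset E) (c : ℝ), W.card ≤ finrank ℝ E ∧ 0 < c ∧
    (∀ w ∈ W, ⟪e, w⟫_ℝ = 0) ∧ ∀ v : E, ∃ w ∈ W, c * ‖Pe e v‖ ≤ ⟪w, v⟫_ℝ := by
  classical
  have he0 : e ≠ 0 := by rintro rfl; simp at he
  obtain ⟨W, c, hW, hc, h⟩ := dirs (Submodule.span ℝ {e})ᗮ
  have hf : finrank ℝ (Submodule.span ℝ {e})ᗮ + 1 = finrank ℝ E := by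
    have h2 := Submodule.finrank_add_finrank_orthogonal (Submodule.span ℝ {e})
    rw [finrank_span_singleton he0] at h2
    omega
  refine ⟨W.image (fun w : (Submodule.span ℝ {e})ᗮ => (w : E)), c,
    Finset.card_image_le.trans (by omega), hc, ?_, ?_⟩
  · intro w hw
    obtain ⟨w', -, rfl⟩ := Finset.mem_image.1 hw
    exact inner_orth w'
  · intro v
    have hm : Pe e v ∈ (Submodule.span ℝ {e})ᗮ := by
      rw [Submodule.mem_orthogonal_singleton_iff_inner_right]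
      exact Pe_perp he v
    obtain ⟨w, hw, h1⟩ := h ⟨Pe e v, hm⟩
    refine ⟨w, Finset.mem_image_of_mem _ hw, ?_⟩
    have h2 : c * ‖Pe e v‖ ≤ ⟪(w : E), Pe e v⟫_ℝ := h1
    rw [Pe, inner_sub_right, real_inner_smul_right, real_inner_comm e (w : E), inner_orth w,
      mul_zero, sub_zero] at h2
    rw [Pe]
    exact h2

/-- the hyperplanes for the paraboloid -/
lemma Pb_hyp (he : ‖e‖ = 1) (hc : 0 < c) (hA : ∀ x, ⟪e, x⟫_ℝ = 0 → c * ‖x‖ ^ 2 ≤ Qf A x)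
    (hX : Qf A X < 1) : ∃ (H : Finset (E × ℝ)) (κ : ℝ), 0 < κ ∧ H.card ≤ finrank ℝ E ∧
    (∀ h ∈ H, h.1 ≠ 0 ∧ 0 < h.2) ∧
    ∀ u q : E, u ≠ 0 → q ∈ Pb A e X → (∀ x ∈ Pb A e X, ⟪u, x⟫_ℝ ≤ ⟪u, q⟫_ℝ) → ⟪e, q⟫_ℝ ≤ κ →
      ∃ h ∈ H, (∀ x ∈ Pb A e X, ⟪u, x⟫_ℝ = ⟪u, q⟫_ℝ → h.2 < ⟪h.1, x⟫_ℝ) ∧
        ∀ d : E, d ≠ 0 → (∀ s : ℝ, 0 ≤ s → s • d ∈ Pb A e X) → ⟪u, d⟫_ℝ = 0 → 0 < ⟪h.1, d⟫_ℝ := by
  classical
  obtain ⟨W, c', hW, hc', hWe, hWv⟩ := dirs' he
  have h0 : (0 : E) ∈ interior (Pb A e X) := by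
    rw [Pb_int he]
    simpa [Pe] using hX
  obtain ⟨r, hr, hrP⟩ := Metric.mem_nhds_iff.1 (isOpen_interior.mem_nhds h0)
  set κ : ℝ := min (r / 2) (c' * r / 4) with hκ
  set η : ℝ := min (r / 4) (c' * r / 8) with hη
  have hη0 : 0 < η := by positivity
  have hη1 : η ≤ r / 4 := min_le_left _ _
  have hη2 : η ≤ c' * r / 8 := min_le_right _ _
  have hκ1 : κ ≤ r / 2 := min_le_left _ _
  have hκ2 : κ ≤ c' * r / 4 := min_le_right _ _
  refine ⟨W.image fun w => (w - e, η), κ, by positivity, Finset.card_image_le.trans hW, ?_, ?_⟩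
  · intro h hh
    obtain ⟨w, hw, rfl⟩ := Finset.mem_image.1 hh
    refine ⟨fun h1 => ?_, hη0⟩
    have h2 : ⟪e, w - e⟫_ℝ = 0 := by
      simp only at h1
      rw [h1, inner_zero_right]
    rw [inner_sub_right, hWe w hw, real_inner_self_eq_norm_sq, he] at h2
    norm_num at h2
  · intro u q hu hq hmax hqκ
    obtain ⟨w, hw, hwq⟩ := hWv q
    refine ⟨_, Finset.mem_image_of_mem _ hw, fun x hx hxu => ?_, fun d hd hdC hud =>
      absurd (Pb_rec he hc hA hu hq hmax hdC hud) hd⟩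
    rw [Pb_face he hc hA hu hq hmax hx hxu]
    simp only
    rw [inner_sub_left]
    have hqr : r ≤ ‖q‖ := by
      by_contra hcon
      push Not at hcon
      exact not_int_of_max hu hmax (hrP (by rwa [mem_ball_zero_iff]))
    have hnn : 0 ≤ c' * ‖Pe e q‖ := by positivity
    by_cases ha : ⟪e, q⟫_ℝ ≤ -(r / 2)
    · linarith
    · push Not at ha
      have h1 : |⟪e, q⟫_ℝ| ≤ r / 2 := abs_le.2 ⟨ha.le, hqκ.trans hκ1⟩
      have h2 : r / 2 ≤ ‖Pe e q‖ := by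
        have h3 : ‖q‖ ≤ ‖Pe e q‖ + |⟪e, q⟫_ℝ| := by
          calc ‖q‖ = ‖Pe e q + ⟪e, q⟫_ℝ • e‖ := by rw [Pe_add_smul]
            _ ≤ ‖Pe e q‖ + ‖⟪e, q⟫_ℝ • e‖ := norm_add_le _ _
            _ = ‖Pe e q‖ + |⟪e, q⟫_ℝ| := by rw [norm_smul, he, mul_one, Real.norm_eq_abs]
        linarith
      have h3 : c' * (r / 2) ≤ c' * ‖Pe e q‖ := mul_le_mul_of_nonneg_left h2 hc'.le
      have h4 : 0 < c' * r := by positivity
      linarith

/-- The second-order condition at the boundary point `y`. -/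
def So (K : Set E) (y e : E) (A : E →L[ℝ] E) : Prop :=
  ∀ δ : ℝ, 0 < δ → ∃ r : ℝ, 0 < r ∧ ∀ (x : E) (z : ℝ), ⟪e, x⟫_ℝ = 0 → ‖x‖ ≤ r → 0 ≤ z → z ≤ r →
    ((1 + δ) * Qf A x ≤ z → y + x + z • e ∈ K) ∧ (y + x + z • e ∈ K → (1 - δ) * Qf A x ≤ z)

/-- convergence -/
theorem So.lc {K : Set E} (hK : Convex ℝ K) {y : E} (hy : y ∈ K) (he : ‖e‖ = 1)
    (hpos : ∀ x ∈ K, 0 ≤ ⟪e, x - y⟫_ℝ) (hc : 0 < c)
    (hA : ∀ x, ⟪e, x⟫_ℝ = 0 → c * ‖x‖ ^ 2 ≤ Qf A x) (hS : So K y e A) (κ : ℝ) {t : ℕ → ℝ}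
    {X' : ℕ → E} (ht : ∀ k, 0 < t k) (htl : Tendsto t atTop (𝓝 0))
    (hXp : ∀ k, ⟪e, X' k⟫_ℝ = 0) (hXl : Tendsto X' atTop (𝓝 X)) :
    Lc (Pb A e X) e κ fun k => {v | y + √(t k) • (X' k + Pe e v) + (t k * (1 + ⟪e, v⟫_ℝ)) • e ∈ K} := by
  have hst : Tendsto (fun k => √(t k)) atTop (𝓝 0) := by
    have := (Real.continuous_sqrt.tendsto 0).comp htl
    rw [Real.sqrt_zero] at this
    exact this
  have hs0 : ∀ k, 0 < √(t k) := fun k => Real.sqrt_pos.2 (ht k)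
  have hsq : ∀ k, √(t k) ^ 2 = t k := fun k => Real.sq_sqrt (ht k).le
  have hperp : ∀ k v, ⟪e, √(t k) • (X' k + Pe e v)⟫_ℝ = 0 := by
    intro k v
    rw [real_inner_smul_right, inner_add_right, hXp, Pe_perp he]
    ring
  have hht : ∀ k v, ⟪e, y + √(t k) • (X' k + Pe e v) + (t k * (1 + ⟪e, v⟫_ℝ)) • e - y⟫_ℝ =
      t k * (1 + ⟪e, v⟫_ℝ) := by
    intro k v
    have e1 : y + √(t k) • (X' k + Pe e v) + (t k * (1 + ⟪e, v⟫_ℝ)) • e - y =
        √(t k) • (X' k + Pe e v) + (t k * (1 + ⟪e, v⟫_ℝ)) • e := by abel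
    rw [e1, inner_add_right, hperp, real_inner_smul_right, real_inner_self_eq_norm_sq, he]
    ring
  have hQ0 : ∀ v : E, ⟪e, v⟫_ℝ = 0 → 0 ≤ Qf A v := fun v hv =>
    (by positivity : 0 ≤ c * ‖v‖ ^ 2).trans (hA v hv)
  refine ⟨fun k => ?_, fun z hz => ?_, fun φ x a hφ hx hxa => ?_, ?_⟩
  · intro v hv w hw a b ha hb hab
    have h1 := hK hv hw ha hb hab
    show y + √(t k) • (X' k + Pe e (a • v + b • w)) + (t k * (1 + ⟪e, a • v + b • w⟫_ℝ)) • e ∈ K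
    convert h1 using 1
    rw [Pe_combo, inner_add_right, real_inner_smul_right, real_inner_smul_right]
    have hb' : b = 1 - a := by linarith
    subst hb'
    module
  · -- inner approximation
    have hz1 : Qf A (Pe e z + X) < ⟪e, z⟫_ℝ + 1 := (Pb_int he).1 hz
    obtain ⟨δ, hδ, hδz⟩ : ∃ δ : ℝ, 0 < δ ∧ (1 + δ) * Qf A (Pe e z + X) < ⟪e, z⟫_ℝ + 1 := by
      have hcont : Continuous fun δ : ℝ => (1 + δ) * Qf A (Pe e z + X) := by fun_prop
      have hev := (hcont.tendsto 0).eventually_lt_const (u := ⟪e, z⟫_ℝ + 1) (by simpa using hz1)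
      obtain ⟨δ, h1, h2⟩ := ((hev.filter_mono (nhdsWithin_le_nhds (s := Set.Ioi 0))).and
        self_mem_nhdsWithin).exists
      exact ⟨δ, h2, h1⟩
    obtain ⟨r, hr, hrS⟩ := hS δ hδ
    have l1 : Tendsto (fun k => (1 + δ) * Qf A (X' k + Pe e z)) atTop
        (𝓝 ((1 + δ) * Qf A (X + Pe e z))) :=
      ((Qf_cont A).tendsto _ |>.comp (hXl.add_const (Pe e z))).const_mul _
    have l2 : Tendsto (fun k => ‖√(t k) • (X' k + Pe e z)‖) atTop (𝓝 ‖(0 : ℝ) • (X + Pe e z)‖) :=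
      (hst.smul (hXl.add_const (Pe e z))).norm
    have l3 : Tendsto (fun k => t k * (1 + ⟪e, z⟫_ℝ)) atTop (𝓝 (0 * (1 + ⟪e, z⟫_ℝ))) :=
      htl.mul_const _
    rw [zero_smul, norm_zero] at l2
    rw [zero_mul] at l3
    filter_upwards [l1.eventually_lt_const (u := ⟪e, z⟫_ℝ + 1) (by rwa [add_comm X]),
      l2.eventually_lt_const hr, l3.eventually_lt_const hr] with k h1 h2 h3
    have h5 : 0 ≤ Qf A (X' k + Pe e z) := hQ0 _ (by
      rw [inner_add_right, hXp, Pe_perp he, add_zero])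
    have h6 : 0 ≤ 1 + ⟪e, z⟫_ℝ := by nlinarith
    refine (hrS _ _ (hperp k z) h2.le (mul_nonneg (ht k).le h6) h3.le).1 ?_
    rw [Qf_smul, hsq]
    have h7 := mul_le_mul_of_nonneg_left h1.le (ht k).le
    linarith
  · -- limits
    have key : ∀ δ : ℝ, 0 < δ → (1 - δ) * Qf A (X + Pe e a) ≤ 1 + ⟪e, a⟫_ℝ := by
      intro δ hδ
      obtain ⟨r, hr, hrS⟩ := hS δ hδ
      have ht' : Tendsto (fun k => t (φ k)) atTop (𝓝 0) := htl.comp hφ.tendsto_atTop
      have hst' : Tendsto (fun k => √(t (φ k))) atTop (𝓝 0) := hst.comp hφ.tendsto_atTop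
      have hX' : Tendsto (fun k => X' (φ k) + Pe e (x k)) atTop (𝓝 (X + Pe e a)) :=
        (hXl.comp hφ.tendsto_atTop).add (((Pe_cont e).tendsto a).comp hxa)
      have hex : Tendsto (fun k => 1 + ⟪e, x k⟫_ℝ) atTop (𝓝 (1 + ⟪e, a⟫_ℝ)) :=
        (tendsto_const_nhds.inner hxa).const_add 1
      have l1 : Tendsto (fun k => (1 - δ) * Qf A (X' (φ k) + Pe e (x k))) atTop
          (𝓝 ((1 - δ) * Qf A (X + Pe e a))) :=
        (((Qf_cont A).tendsto _).comp hX').const_mul _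
      have l2 : Tendsto (fun k => ‖√(t (φ k)) • (X' (φ k) + Pe e (x k))‖) atTop
          (𝓝 ‖(0 : ℝ) • (X + Pe e a)‖) := (hst'.smul hX').norm
      have l3 : Tendsto (fun k => t (φ k) * (1 + ⟪e, x k⟫_ℝ)) atTop (𝓝 (0 * (1 + ⟪e, a⟫_ℝ))) :=
        ht'.mul hex
      rw [zero_smul, norm_zero] at l2
      rw [zero_mul] at l3
      refine le_of_tendsto_of_tendsto l1 hex ?_
      filter_upwards [l2.eventually_lt_const hr, l3.eventually_lt_const hr] with k h2 h3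
      have h4 := hpos _ (hx k)
      rw [hht] at h4
      have h5 := (hrS _ _ (hperp (φ k) (x k)) h2.le h4 h3.le).2 (hx k)
      rw [Qf_smul, hsq] at h5
      refine le_of_mul_le_mul_left (a := t (φ k)) ?_ (ht _)
      linarith
    show Qf A (Pe e a + X) ≤ ⟪e, a⟫_ℝ + 1
    have hcont : Tendsto (fun δ : ℝ => (1 - δ) * Qf A (X + Pe e a)) (𝓝[>] 0)
        (𝓝 ((1 - 0) * Qf A (X + Pe e a))) := by
      have : Continuous fun δ : ℝ => (1 - δ) * Qf A (X + Pe e a) := by fun_prop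
      exact (this.tendsto 0).mono_left nhdsWithin_le_nhds
    have h1 := le_of_tendsto hcont (eventually_nhdsWithin_of_forall fun δ hδ => key δ hδ)
    rw [sub_zero, one_mul, add_comm X] at h1
    linarith
  · -- boundedness
    obtain ⟨r, hr, hrS⟩ := hS (1 / 2) (by norm_num)
    have hκ' : 0 < 1 + |κ| := by positivity
    have l3 : Tendsto (fun k => t k * (1 + |κ|)) atTop (𝓝 (0 * (1 + |κ|))) := htl.mul_const _
    rw [zero_mul] at l3
    refine ⟨(2 * (1 + |κ|) / c + 1) + (‖X‖ + 1) + (1 + |κ|), ?_⟩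
    filter_upwards [l3.eventually_lt_const hr, l3.eventually_lt_const (show 0 < c * r ^ 2 / 2 by
      positivity), hXl.norm.eventually_lt_const (show ‖X‖ < ‖X‖ + 1 by linarith)]
      with k h1 h2 h3 v hv hvκ
    have hvκ' : ⟪e, v⟫_ℝ ≤ |κ| := hvκ.trans (le_abs_self κ)
    have h4 := hpos _ hv
    rw [hht] at h4
    have h5 : 0 ≤ 1 + ⟪e, v⟫_ℝ := by
      by_contra hcon
      push Not at hcon
      have := mul_neg_of_pos_of_neg (ht k) hcon
      linarith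
    have h6 : t k * (1 + ⟪e, v⟫_ℝ) ≤ t k * (1 + |κ|) :=
      mul_le_mul_of_nonneg_left (by linarith) (ht k).le
    set ξ : E := √(t k) • (X' k + Pe e v) with hξ
    have hξr : ‖ξ‖ ≤ r := by
      by_contra hcon
      push Not at hcon
      have hξ0 : 0 < ‖ξ‖ := hr.trans hcon
      set s : ℝ := r / ‖ξ‖ with hs
      have hs0' : 0 < s := by positivity
      have hs1 : s ≤ 1 := by rw [hs, div_le_one hξ0]; exact hcon.le
      have h7 := hK hy hv (a := 1 - s) (b := s) (by linarith) hs0'.le (by ring)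
      have e1 : (1 - s) • y + s • (y + ξ + (t k * (1 + ⟪e, v⟫_ℝ)) • e) =
          y + s • ξ + (s * (t k * (1 + ⟪e, v⟫_ℝ))) • e := by
        module
      rw [e1] at h7
      have h8 : ‖s • ξ‖ = r := by
        rw [norm_smul, Real.norm_eq_abs, abs_of_pos hs0', hs, div_mul_cancel₀ _ hξ0.ne']
      have h9 : s * (t k * (1 + ⟪e, v⟫_ℝ)) ≤ t k * (1 + ⟪e, v⟫_ℝ) := by nlinarith
      have h10 := (hrS (s • ξ) _ (by rw [real_inner_smul_right, hperp, mul_zero]) h8.le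
        (mul_nonneg hs0'.le h4) (by linarith)).2 h7
      have h11 := hA (s • ξ) (by rw [real_inner_smul_right, hperp, mul_zero])
      rw [h8] at h11
      nlinarith
    have h7 := (hrS ξ _ (hperp k v) hξr h4 (by linarith)).2 hv
    rw [hξ, Qf_smul, hsq] at h7
    have h8 : (1 - 1 / 2) * Qf A (X' k + Pe e v) ≤ 1 + |κ| := by
      refine le_of_mul_le_mul_left (a := t k) ?_ (ht k)
      linarith
    have h9 := hA (X' k + Pe e v) (by rw [inner_add_right, hXp, Pe_perp he, add_zero])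
    have h10 : ‖X' k + Pe e v‖ ^ 2 ≤ 2 * (1 + |κ|) / c := by
      rw [le_div_iff₀ hc]
      linarith
    have h11 : ‖X' k + Pe e v‖ ≤ 2 * (1 + |κ|) / c + 1 := by
      have := norm_nonneg (X' k + Pe e v)
      nlinarith
    have h12 : ‖Pe e v‖ ≤ ‖X' k + Pe e v‖ + ‖X' k‖ := by
      have := norm_sub_le (X' k + Pe e v) (X' k)
      rwa [add_sub_cancel_left] at this
    have h13 : ‖v‖ ≤ ‖Pe e v‖ + |⟪e, v⟫_ℝ| := by
      calc ‖v‖ = ‖Pe e v + ⟪e, v⟫_ℝ • e‖ := by rw [Pe_add_smul]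
        _ ≤ ‖Pe e v‖ + ‖⟪e, v⟫_ℝ • e‖ := norm_add_le _ _
        _ = ‖Pe e v‖ + |⟪e, v⟫_ℝ| := by rw [norm_smul, he, mul_one, Real.norm_eq_abs]
    have h14 : |⟪e, v⟫_ℝ| ≤ 1 + |κ| := abs_le.2 ⟨by linarith [abs_nonneg κ], by linarith⟩
    linarith

/-- **Points of positive curvature.** -/
theorem curved {K : Set E} (hK : Convex ℝ K) {y : E} (hy : y ∈ K) (he : ‖e‖ = 1)
    (hpos : ∀ x ∈ K, 0 ≤ ⟪e, x - y⟫_ℝ) (hc : 0 < c)
    (hA : ∀ x, ⟪e, x⟫_ℝ = 0 → c * ‖x‖ ^ 2 ≤ Qf A x) (hS : So K y e A) {δ : ℝ} (hδ : 0 < δ) :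
    ∃ ρ : ℝ, 0 < ρ ∧ ∀ (x : E) (z : ℝ), ⟪e, x⟫_ℝ = 0 → 0 < z → z < ρ → (1 + δ) * Qf A x ≤ z →
      y + x + z • e ∈ interior K ∧ Sepd (finrank ℝ E + 1) K (y + x + z • e) := by
  classical
  have he0 : e ≠ 0 := by rintro rfl; simp at he
  have hee : ⟪e, e⟫_ℝ = 1 := by rw [real_inner_self_eq_norm_sq, he]; norm_num
  have hQ0 : ∀ v : E, ⟪e, v⟫_ℝ = 0 → 0 ≤ Qf A v := fun v hv =>
    (by positivity : 0 ≤ c * ‖v‖ ^ 2).trans (hA v hv)
  -- interior points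
  obtain ⟨ρ₀, hρ₀, hint⟩ : ∃ ρ : ℝ, 0 < ρ ∧ ∀ (x : E) (z : ℝ), ⟪e, x⟫_ℝ = 0 → 0 < z → z < ρ →
      (1 + δ) * Qf A x ≤ z → y + x + z • e ∈ interior K := by
    obtain ⟨r, hr, hrS⟩ := hS (δ / 2) (by positivity)
    refine ⟨min r (c * r ^ 2), by positivity, fun x z hx hz hzr hxz => ?_⟩
    have hzr1 : z < r := hzr.trans_le (min_le_left _ _)
    have hzr2 : z < c * r ^ 2 := hzr.trans_le (min_le_right _ _)
    have hxr : ‖x‖ < r := by
      have h1 := hA x hx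
      have h2 := hQ0 x hx
      have h3 : c * ‖x‖ ^ 2 < c * r ^ 2 := by nlinarith
      have h4 : ‖x‖ ^ 2 < r ^ 2 := lt_of_mul_lt_mul_left h3 hc.le
      exact lt_of_pow_lt_pow_left₀ 2 hr.le h4
    have hlt : (1 + δ / 2) * Qf A x < z := by
      rcases (hQ0 x hx).eq_or_lt with h1 | h1
      · rw [← h1, mul_zero]; exact hz
      · nlinarith
    have ho : IsOpen {v : E | ‖Pe e (v - y)‖ < r ∧ 0 < ⟪e, v - y⟫_ℝ ∧ ⟪e, v - y⟫_ℝ < r ∧
        (1 + δ / 2) * Qf A (Pe e (v - y)) < ⟪e, v - y⟫_ℝ} := by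
      have c1 : Continuous fun v : E => Pe e (v - y) := (Pe_cont e).comp (by fun_prop)
      have c2 : Continuous fun v : E => ⟪e, v - y⟫_ℝ := by fun_prop
      exact (isOpen_lt c1.norm continuous_const).inter ((isOpen_lt continuous_const c2).inter
        ((isOpen_lt c2 continuous_const).inter
          (isOpen_lt (continuous_const.mul ((Qf_cont A).comp c1)) c2)))
    refine interior_maximal ?_ ho ?_
    · rintro v ⟨h1, h2, h3, h4⟩
      have h5 := (hrS (Pe e (v - y)) ⟪e, v - y⟫_ℝ (Pe_perp he _) h1.le h2.le h3.le).1 h4.le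
      rwa [add_assoc, Pe_add_smul, add_sub_cancel] at h5
    · have e1 : y + x + z • e - y = x + z • e := by abel
      have e2 : ⟪e, x + z • e⟫_ℝ = z := by
        rw [inner_add_right, hx, real_inner_smul_right, hee]; ring
      have e3 : Pe e (x + z • e) = x := by
        rw [Pe, e2]; abel
      show ‖Pe e (y + x + z • e - y)‖ < r ∧ 0 < ⟪e, y + x + z • e - y⟫_ℝ ∧
        ⟪e, y + x + z • e - y⟫_ℝ < r ∧
        (1 + δ / 2) * Qf A (Pe e (y + x + z • e - y)) < ⟪e, y + x + z • e - y⟫_ℝ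
      rw [e1, e2, e3]
      exact ⟨hxr, hz, hzr1, hlt⟩
  by_contra hcon
  push Not at hcon
  choose x t hxp ht htρ hxt hbad using fun k : ℕ => hcon (min ρ₀ (1 / ((k : ℝ) + 1)))
    (lt_min hρ₀ (by positivity))
  have htl : Tendsto t atTop (𝓝 0) := by
    refine squeeze_zero (fun k => (ht k).le) (fun k => (htρ k).le.trans (min_le_right _ _)) ?_
    exact tendsto_one_div_add_atTop_nhds_zero_nat
  have hint' : ∀ k, y + x k + t k • e ∈ interior K := fun k =>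
    hint _ _ (hxp k) (ht k) ((htρ k).trans_le (min_le_left _ _)) (hxt k)
  have hs0 : ∀ k, 0 < √(t k) := fun k => Real.sqrt_pos.2 (ht k)
  have hsq : ∀ k, √(t k) ^ 2 = t k := fun k => Real.sq_sqrt (ht k).le
  set X' : ℕ → E := fun k => (√(t k))⁻¹ • x k with hX'
  have hX'x : ∀ k, √(t k) • X' k = x k := fun k => by
    rw [hX', smul_smul, mul_inv_cancel₀ (hs0 k).ne', one_smul]
  have hX'p : ∀ k, ⟪e, X' k⟫_ℝ = 0 := fun k => by
    rw [hX', real_inner_smul_right, hxp, mul_zero]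
  have hX'Q : ∀ k, (1 + δ) * Qf A (X' k) ≤ 1 := by
    intro k
    have h1 := hxt k
    rw [← hX'x k, Qf_smul, hsq] at h1
    refine le_of_mul_le_mul_left (a := t k) ?_ (ht k)
    linarith
  have hX'b : ∀ k, ‖X' k‖ ≤ 1 / c + 1 := by
    intro k
    have h1 := hX'Q k
    have h2 := hA _ (hX'p k)
    have h3 := hQ0 _ (hX'p k)
    have h4 : ‖X' k‖ ^ 2 ≤ 1 / c := by
      rw [le_div_iff₀ hc]
      nlinarith
    have := norm_nonneg (X' k)
    nlinarith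
  obtain ⟨Xi, -, φ, hφ, hlX⟩ := (isCompact_closedBall (0 : E) (1 / c + 1)).tendsto_subseq
    (x := X') (fun k => by simpa using hX'b k)
  have hXi : Qf A Xi < 1 := by
    have h1 : (1 + δ) * Qf A Xi ≤ 1 :=
      le_of_tendsto ((((Qf_cont A).tendsto _).comp hlX).const_mul _)
        (Eventually.of_forall fun k => hX'Q _)
    rcases le_or_gt (Qf A Xi) 0 with h2 | h2
    · linarith
    · nlinarith
  obtain ⟨H, κ, hκ, hHc, hHp, hH⟩ := Pb_hyp he hc hA hXi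
  have hLc := So.lc (X := Xi) hK hy he hpos hc hA hS κ (t := fun k => t (φ k))
    (X' := fun k => X' (φ k)) (fun k => ht _) (htl.comp hφ.tendsto_atTop) (fun k => hX'p _) hlX
  have h0 : (0 : E) ∈ interior (Pb A e Xi) := by
    rw [Pb_int he]
    simpa [Pe] using hXi
  obtain ⟨k, hk⟩ := (blow (Pb_convex he hc hA) h0 H hH hLc).exists
  refine hbad (φ k) (hint' _) ?_
  set s := √(t (φ k)) with hs
  set τ := t (φ k) with hτ
  have hs1 : 0 < s := hs0 _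
  have hτ1 : 0 < τ := ht _
  have hsc : ∀ (a b : ℝ) (v : E), Pe e (a • Pe e v + (b * ⟪e, v⟫_ℝ) • e) = a • Pe e v := by
    intro a b v
    have h1 : ⟪e, a • Pe e v + (b * ⟪e, v⟫_ℝ) • e⟫_ℝ = b * ⟪e, v⟫_ℝ := by
      rw [inner_add_right, real_inner_smul_right, Pe_perp he, real_inner_smul_right, hee]; ring
    rw [Pe, h1]
    abel
  have hie : ∀ (a b : ℝ) (v : E), ⟪e, a • Pe e v + (b * ⟪e, v⟫_ℝ) • e⟫_ℝ = b * ⟪e, v⟫_ℝ := by
    intro a b v
    rw [inner_add_right, real_inner_smul_right, Pe_perp he, real_inner_smul_right, hee]; ring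
  let D : ℝ → ℝ → (E →ₗ[ℝ] E) := fun a b =>
    { toFun := fun v => a • Pe e v + (b * ⟪e, v⟫_ℝ) • e
      map_add' := fun v w => by
        simp only [Pe, inner_add_right]
        module
      map_smul' := fun r v => by
        simp only [Pe, real_inner_smul_right, RingHom.id_apply]
        module }
  have hD : ∀ a b v, D a b v = a • Pe e v + (b * ⟪e, v⟫_ℝ) • e := fun a b v => rfl
  have hDD : ∀ (a b a' b' : ℝ) (v : E), a * a' = 1 → b * b' = 1 → D a b (D a' b' v) = v := by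
    intro a b a' b' v h1 h2
    rw [hD, hD, hsc, hie, smul_smul, h1, one_smul, ← mul_assoc, h2, one_mul, Pe_add_smul]
  have hDs : ∀ (a b : ℝ) (v w : E), ⟪D a b v, w⟫_ℝ = ⟪v, D a b w⟫_ℝ := by
    intro a b v w
    rw [hD, hD, Pe, Pe]
    simp only [inner_add_left, inner_add_right, inner_sub_left, inner_sub_right,
      real_inner_smul_left, real_inner_smul_right]
    rw [real_inner_comm v e]
    ring
  refine sepd_lin (D s τ) (D s⁻¹ τ⁻¹) (fun v => hDD _ _ _ _ v (mul_inv_cancel₀ hs1.ne')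
    (mul_inv_cancel₀ hτ1.ne')) (fun v => hDD _ _ _ _ v (inv_mul_cancel₀ hs1.ne')
    (inv_mul_cancel₀ hτ1.ne')) (hDs _ _) (hDs _ _) ?_
  have hset : {v : E | y + x (φ k) + τ • e + D s τ v ∈ K} =
      {v | y + s • (X' (φ k) + Pe e v) + (τ * (1 + ⟪e, v⟫_ℝ)) • e ∈ K} := by
    ext v
    simp only [mem_setOf_eq]
    rw [hD, ← hX'x (φ k)]
    have e1 : y + s • X' (φ k) + τ • e + (s • Pe e v + (τ * ⟪e, v⟫_ℝ) • e) =
        y + s • (X' (φ k) + Pe e v) + (τ * (1 + ⟪e, v⟫_ℝ)) • e := by module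
    rw [e1]
  rw [hset]
  refine ⟨H ∪ {(e, κ)}, ?_, ?_, ?_⟩
  · refine (Finset.card_union_le _ _).trans (add_le_add hHc ?_)
    simp
  · intro p hp
    rcases Finset.mem_union.1 hp with hp | hp
    · exact (hHp p hp).1
    · rw [Finset.mem_singleton.1 hp]
      exact he0
  · intro u x₀ hu hx₀ hmax
    rcases hk u x₀ hu hx₀ hmax with h1 | ⟨h, hh, h1⟩
    · exact ⟨(e, κ), Finset.mem_union_right _ (Finset.mem_singleton_self _), by simpa using hκ, h1⟩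
    · refine ⟨h, Finset.mem_union_left _ hh, ?_, h1⟩
      rw [inner_zero_right]
      exact (hHp h hh).2

end Pool.Agent.N321.NB
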