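import Pool.Agent.N321.NB.Near
import Pool.Agent.R753.SJ.I
import Pool.Agent.Results.MP_5e7226_co.ExtremePointsInFlats

set_option autoImplicit false
set_option linter.unusedSectionVars false

/-!
# Polytopes near the whole boundary
-/

namespace Pool.Agent.N321.NB

open scoped InnerProductSpace Topology
open Metric Module Filter Set
open Pool.Agent.R753.SJ (Sepd strict_of_int sepd_of_cover cover_le_two cover_13 lower)
open Pool.Agent.H985.Sep (polar convex_polar isCompact_polar interior_polar_nonempty)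

variable {E : Type} [NormedAddCommGroup E] [InnerProductSpace ℝ E] [FiniteDimensional ℝ E]

/-- near `o'` the set `K` is a cone with apex `o'` -/
def Con {E : Type} [NormedAddCommGroup E] [InnerProductSpace ℝ E] (K : Set E) (o' : E) : Prop :=
  ∃ ε : ℝ, 0 < ε ∧ ∀ x ∈ K, ∀ s : ℝ, 0 ≤ s → s * ‖x - o'‖ ≤ ε → o' + s • (x - o') ∈ K

theorem sit_of {K : Set E} (hK : Convex ℝ K) (hKc : IsCompact K) {o' e : E} {L : Submodule ℝ E}
    (h0 : o' ∈ K) (he : ‖e‖ = 1) (hpos : ∀ x ∈ K, 0 ≤ ⟪e, x - o'⟫_ℝ)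
    (hfac : ∀ x ∈ K, ⟪e, x - o'⟫_ℝ = 0 → x - o' ∈ L) (hint : 0 ∈ interior (Sl K o' L))
    (hcon : Con K o') : ∃ R r ε : ℝ, Sit K o' e L R r ε := by
  obtain ⟨R, hR⟩ := hKc.isBounded.subset_closedBall o'
  obtain ⟨r, hr, hrK⟩ := Metric.nhds_basis_closedBall.mem_iff.1 (mem_interior_iff_mem_nhds.1 hint)
  obtain ⟨ε, hε, hc⟩ := hcon
  refine ⟨|R| + 1, r, ε, hK, hKc, h0, he, hpos, hfac, hr, fun l hl hlr => ?_, hε, hc, by positivity,
    fun x hx => ?_⟩
  · have : (⟨l, hl⟩ : L) ∈ closedBall (0 : L) r := by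
      rw [mem_closedBall_zero_iff]
      exact hlr
    exact hrK this
  · have h1 := hR hx
    rw [mem_closedBall, dist_eq_norm] at h1
    have := le_abs_self R
    linarith

lemma Sl_convex {K : Set E} (hK : Convex ℝ K) (o : E) (L : Submodule ℝ E) :
    Convex ℝ (Sl K o L) := by
  intro x hx y hy s t hs ht hst
  show o + ((s • x + t • y : L) : E) ∈ K
  have h := hK (show o + (x : E) ∈ K from hx) (show o + (y : E) ∈ K from hy) hs ht hst
  have e1 : s • (o + (x : E)) + t • (o + (y : E)) = o + ((s • x + t • y : L) : E) := by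
    rw [Submodule.coe_add, Submodule.coe_smul, Submodule.coe_smul, smul_add, smul_add]
    have : o = s • o + t • o := by rw [← add_smul, hst, one_smul]
    nth_rewrite 3 [this]
    abel
  rwa [e1] at h

lemma Sl_int {K : Set E} {o : E} (ho : o ∈ interior K) (L : Submodule ℝ E) :
    (0 : L) ∈ interior (Sl K o L) := by
  rw [mem_interior_iff_mem_nhds]
  have hc : Continuous fun l : L => o + (l : E) := by fun_prop
  have h1 := hc.continuousAt (x := 0)
  refine h1 ?_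
  simp only [Submodule.coe_zero, add_zero]
  exact mem_interior_iff_mem_nhds.1 ho

/-- `n` hyperplanes suffice for all convex bodies of dimension `j` -/
def Up (n j : ℕ) : Prop :=
  ∀ (V : Type) [NormedAddCommGroup V] [InnerProductSpace ℝ V] [FiniteDimensional ℝ V],
    finrank ℝ V = j → ∀ C : Set V, Convex ℝ C → IsCompact C → ∀ p ∈ interior C, Sepd n C p

theorem up_low {j : ℕ} (hj : j ≤ 2) : Up (2 ^ j) j := by
  intro V _ _ _ hV C hC hCc p hp
  exact sepd_of_cover hp (cover_le_two hV hj (convex_polar C p) (isCompact_polar hp)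
    (interior_polar_nonempty hCc hp))

theorem up_three : Up 13 3 := by
  intro V _ _ _ hV C hC hCc p hp
  exact sepd_of_cover hp (cover_13 hV (convex_polar C p) (isCompact_polar hp)
    (interior_polar_nonempty hCc hp))

theorem Sepd.mono {V : Type} [NormedAddCommGroup V] [InnerProductSpace ℝ V] {K : Set V} {o : V}
    {n m : ℕ} (h : Sepd n K o) (hnm : n ≤ m) : Sepd m K o := by
  obtain ⟨H, h1, h2⟩ := h
  exact ⟨H, h1.trans hnm, h2⟩

/-- dimensions -/
lemma finrank_MM {L : Submodule ℝ E} {e : E} (he : e ≠ 0) (hp : ∀ l ∈ L, ⟪e, l⟫_ℝ = 0) :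
    finrank ℝ L + 1 + finrank ℝ (MM L e) = finrank ℝ E := by
  have h1 := Submodule.finrank_add_finrank_orthogonal (L ⊔ Submodule.span ℝ {e})
  have h2 := Submodule.finrank_sup_add_finrank_inf_eq L (Submodule.span ℝ {e})
  have h3 : L ⊓ Submodule.span ℝ {e} = ⊥ := by
    rw [Submodule.eq_bot_iff]
    rintro v ⟨hv1, hv2⟩
    obtain ⟨c, rfl⟩ := Submodule.mem_span_singleton.1 hv2
    have h4 := hp _ hv1
    rw [real_inner_smul_right, real_inner_self_eq_norm_sq] at h4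
    have h5 : ‖e‖ ^ 2 ≠ 0 := by positivity
    rcases mul_eq_zero.1 h4 with h6 | h6
    · rw [h6, zero_smul]
    · exact absurd h6 h5
  rw [h3, finrank_bot, finrank_span_singleton he] at h2
  have h6 : finrank ℝ (MM L e) = finrank ℝ (L ⊔ Submodule.span ℝ {e})ᗮ := rfl
  omega

/-- the bound near one boundary point -/
theorem near_up {K : Set E} {o' e : E} {L : Submodule ℝ E} {R r ε : ℝ}
    (h : Sit K o' e L R r ε) (hint : 0 ∈ interior (Sl K o' L)) (N : ℕ → ℕ)
    (hN1 : ∀ j, 1 ≤ N j) (hN : ∀ j < finrank ℝ E, Up (N j) j) :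
    ∃ ρ : ℝ, 0 < ρ ∧ ∀ o ∈ interior K, dist o o' < ρ →
      Sepd (N (finrank ℝ L) + N (finrank ℝ E - 1 - finrank ℝ L)) K o := by
  have he0 : e ≠ 0 := by
    rintro rfl
    have := h.nrm
    simp at this
  have hf := finrank_MM he0 (fun l hl => h.perp hl)
  have h1 := hN (finrank ℝ L) (by omega) L rfl _ (Sl_convex h.cvx o' L) (Sl_compact h.cpt o' L) 0 hint
  obtain ⟨ρ, hρ, h2⟩ := h.near (hN1 _) h1
  refine ⟨ρ, hρ, fun o ho hd => h2 o ho hd _ (hN1 _) ?_⟩
  have h3 : finrank ℝ (MM L e) = finrank ℝ E - 1 - finrank ℝ L := by omega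
  exact hN _ (by omega) (MM L e) h3 _ (Sl_convex h.cvx o _) (Sl_compact h.cpt o _) 0 (Sl_int ho _)

/-! ### Polytopes -/

/-- the intersection of finitely many half-spaces -/
def Po {E : Type} [NormedAddCommGroup E] [InnerProductSpace ℝ E] (I : Finset (E × ℝ)) : Set E :=
  {x | ∀ h ∈ I, ⟪h.1, x⟫_ℝ ≤ h.2}

theorem poly_con (I : Finset (E × ℝ)) {o' : E} (ho : o' ∈ Po I) : Con (Po I) o' := by
  have hev : ∀ᶠ ε : ℝ in 𝓝[>] 0, ∀ h ∈ I, ⟪h.1, o'⟫_ℝ < h.2 → ‖h.1‖ * ε ≤ h.2 - ⟪h.1, o'⟫_ℝ := by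
    rw [Filter.eventually_all_finset]
    intro h _
    by_cases hh : ⟪h.1, o'⟫_ℝ < h.2
    · have hc : Tendsto (fun ε : ℝ => ‖h.1‖ * ε) (𝓝[>] 0) (𝓝 (‖h.1‖ * 0)) :=
        (Continuous.tendsto (by fun_prop) 0).mono_left nhdsWithin_le_nhds
      rw [mul_zero] at hc
      filter_upwards [hc.eventually_lt_const (show 0 < h.2 - ⟪h.1, o'⟫_ℝ by linarith)] with ε hε _
      exact hε.le
    · exact Eventually.of_forall fun ε h1 => absurd h1 hh
  obtain ⟨ε, hε, hε0⟩ := (hev.and self_mem_nhdsWithin).exists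
  refine ⟨ε, hε0, fun x hx s hs hsx h hh => ?_⟩
  rw [inner_add_right, real_inner_smul_right]
  rcases (ho h hh).eq_or_lt with h1 | h1
  · have h2 := hx h hh
    rw [inner_sub_right, h1]
    nlinarith
  · have h2 := hε h hh h1
    have h3 : ⟪h.1, x - o'⟫_ℝ ≤ ‖h.1‖ * ‖x - o'‖ := real_inner_le_norm _ _
    have h4 : s * ⟪h.1, x - o'⟫_ℝ ≤ ‖h.1‖ * (s * ‖x - o'‖) := by
      calc s * ⟪h.1, x - o'⟫_ℝ ≤ s * (‖h.1‖ * ‖x - o'‖) := mul_le_mul_of_nonneg_left h3 hs
        _ = ‖h.1‖ * (s * ‖x - o'‖) := by ring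
    have h5 : ‖h.1‖ * (s * ‖x - o'‖) ≤ ‖h.1‖ * ε := mul_le_mul_of_nonneg_left hsx (norm_nonneg _)
    linarith

/-- the supporting hyperplane which touches `K` in the face of `o'` -/
theorem poly_face (I : Finset (E × ℝ)) {o' : E} (ho : o' ∈ Po I) (hi : (interior (Po I)).Nonempty)
    (hfr : o' ∉ interior (Po I)) : ∃ (e : E) (L : Submodule ℝ E), ‖e‖ = 1 ∧
      (∀ x ∈ Po I, 0 ≤ ⟪e, x - o'⟫_ℝ) ∧ (∀ x ∈ Po I, ⟪e, x - o'⟫_ℝ = 0 → x - o' ∈ L) ∧
      0 ∈ interior (Sl (Po I) o' L) := by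
  classical
  set A : Finset (E × ℝ) := I.filter fun h => ⟪h.1, o'⟫_ℝ = h.2 with hA
  have hAm : ∀ h, h ∈ A ↔ h ∈ I ∧ ⟪h.1, o'⟫_ℝ = h.2 := fun h => Finset.mem_filter
  obtain ⟨p, hp⟩ := hi
  -- an active inequality
  obtain ⟨g, hg, hg0⟩ : ∃ g ∈ A, g.1 ≠ 0 := by
    by_contra hcon
    push Not at hcon
    apply hfr
    rw [mem_interior_iff_mem_nhds]
    have hev : ∀ᶠ x in 𝓝 o', ∀ h ∈ I, ⟪h.1, x⟫_ℝ ≤ h.2 := by
      rw [Filter.eventually_all_finset]
      intro h hh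
      rcases (ho h hh).eq_or_lt with h1 | h1
      · have h2 := hcon h ((hAm h).2 ⟨hh, h1⟩)
        refine Eventually.of_forall fun x => ?_
        have h3 := ho h hh
        rw [h2, inner_zero_left] at h3 ⊢
        exact h3
      · have hc : Continuous fun x : E => ⟪h.1, x⟫_ℝ := by fun_prop
        exact (hc.continuousAt.eventually_lt continuousAt_const h1).mono fun x hx => hx.le
    exact hev
  set e' : E := -∑ h ∈ A, h.1 with he'
  have hin : ∀ x, ⟪e', x - o'⟫_ℝ = ∑ h ∈ A, (h.2 - ⟪h.1, x⟫_ℝ) := by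
    intro x
    rw [he', inner_neg_left, sum_inner, ← Finset.sum_neg_distrib]
    refine Finset.sum_congr rfl fun h hh => ?_
    rw [inner_sub_right, ((hAm h).1 hh).2]
    ring
  have hnn : ∀ x ∈ Po I, ∀ h ∈ A, 0 ≤ h.2 - ⟪h.1, x⟫_ℝ := fun x hx h hh => by
    have := hx h ((hAm h).1 hh).1
    linarith
  have hpos' : 0 < ⟪e', p - o'⟫_ℝ := by
    rw [hin]
    refine Finset.sum_pos' (hnn p (interior_subset hp)) ⟨g, hg, ?_⟩
    have h1 := strict_of_int (K := Po I) (o' := o') (e := -g.1) (neg_ne_zero.2 hg0) (fun x hx => by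
      have h2 := hnn x hx g hg
      rw [inner_neg_left, inner_sub_right, ((hAm g).1 hg).2]
      linarith) hp
    rw [inner_neg_left, inner_sub_right, ((hAm g).1 hg).2] at h1
    linarith
  have he0 : e' ≠ 0 := by
    intro h0
    rw [h0, inner_zero_left] at hpos'
    exact lt_irrefl _ hpos'
  have hn : 0 < ‖e'‖ := norm_pos_iff.2 he0
  let L : Submodule ℝ E :=
    { carrier := {v | ∀ h ∈ A, ⟪h.1, v⟫_ℝ = 0}
      add_mem' := fun {a b} ha hb h hh => by rw [inner_add_right, ha h hh, hb h hh, add_zero]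
      zero_mem' := fun h _ => inner_zero_right _
      smul_mem' := fun c x hx h hh => by rw [real_inner_smul_right, hx h hh, mul_zero] }
  have hLm : ∀ v, v ∈ L ↔ ∀ h ∈ A, ⟪h.1, v⟫_ℝ = 0 := fun v => Iff.rfl
  refine ⟨‖e'‖⁻¹ • e', L, ?_, ?_, ?_, ?_⟩
  · rw [norm_smul, norm_inv, norm_norm, inv_mul_cancel₀ hn.ne']
  · intro x hx
    rw [real_inner_smul_left, hin]
    exact mul_nonneg (inv_nonneg.2 hn.le) (Finset.sum_nonneg (hnn x hx))
  · intro x hx hx0
    rw [real_inner_smul_left, hin] at hx0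
    have h1 : ∑ h ∈ A, (h.2 - ⟪h.1, x⟫_ℝ) = 0 :=
      (mul_eq_zero.1 hx0).resolve_left (inv_ne_zero hn.ne')
    have h2 := (Finset.sum_eq_zero_iff_of_nonneg (hnn x hx)).1 h1
    rw [hLm]
    intro h hh
    rw [inner_sub_right, ((hAm h).1 hh).2]
    have := h2 h hh
    linarith
  · rw [mem_interior_iff_mem_nhds]
    have hev : ∀ᶠ l : L in 𝓝 0, ∀ h ∈ I, ⟪h.1, o' + (l : E)⟫_ℝ ≤ h.2 := by
      rw [Filter.eventually_all_finset]
      intro h hh
      rcases (ho h hh).eq_or_lt with h1 | h1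
      · refine Eventually.of_forall fun l => ?_
        rw [inner_add_right, (hLm _).1 l.2 h ((hAm h).2 ⟨hh, h1⟩), add_zero, h1]
      · have hc : Continuous fun l : L => ⟪h.1, o' + (l : E)⟫_ℝ := by fun_prop
        refine (hc.continuousAt.eventually_lt continuousAt_const ?_).mono fun x hx => hx.le
        simpa using h1
    exact hev

lemma poly_convex' (I : Finset (E × ℝ)) : Convex ℝ (Po I) :=
  Pool.Agent.R753.SJ.poly_convex I

/-- everything about a boundary point of a polytope -/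
theorem poly_sit (I : Finset (E × ℝ)) (hKc : IsCompact (Po I)) (hi : (interior (Po I)).Nonempty)
    {o' : E} (ho : o' ∈ frontier (Po I)) : ∃ (e : E) (L : Submodule ℝ E) (R r ε : ℝ),
      Sit (Po I) o' e L R r ε ∧ 0 ∈ interior (Sl (Po I) o' L) := by
  have h1 : o' ∈ Po I := hKc.isClosed.frontier_subset ho
  obtain ⟨e, L, he, hpos, hfac, hint⟩ := poly_face I h1 hi ho.2
  obtain ⟨R, r, ε, h⟩ := sit_of (poly_convex' I) hKc h1 he hpos hfac hint (poly_con I h1)
  exact ⟨e, L, R, r, ε, h, hint⟩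

/-- uniformity -/
theorem uniform {K : Set E} (hKc : IsCompact K) (P : E → Prop)
    (h : ∀ o' ∈ frontier K, ∃ ρ : ℝ, 0 < ρ ∧ ∀ o ∈ interior K, dist o o' < ρ → P o) :
    ∃ ρ : ℝ, 0 < ρ ∧ ∀ o ∈ interior K, ∀ y ∈ frontier K, dist o y < ρ → P o := by
  classical
  have hfc : IsCompact (frontier K) :=
    hKc.of_isClosed_subset isClosed_frontier hKc.isClosed.frontier_subset
  choose! ρ hρ hP using h
  obtain ⟨t, ht, htc⟩ := hfc.elim_nhds_subcover (fun y => ball y (ρ y / 2)) (fun y hy =>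
    ball_mem_nhds _ (half_pos (hρ y hy)))
  have hev : ∀ᶠ δ : ℝ in 𝓝[>] 0, ∀ y ∈ t, δ < ρ y / 2 := by
    rw [Filter.eventually_all_finset]
    intro y hy
    exact nhdsWithin_le_nhds (eventually_lt_nhds (half_pos (hρ y (ht y hy))))
  obtain ⟨δ, hδ, hδ0⟩ := (hev.and self_mem_nhdsWithin).exists
  refine ⟨δ, hδ0, fun o ho y hy hd => ?_⟩
  obtain ⟨z, hz, hyz⟩ := mem_iUnion₂.1 (htc hy)
  refine hP z (ht z hz) o ho ?_
  rw [mem_ball] at hyz
  have h1 := hδ z hz
  have h2 := dist_triangle o y z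
  linarith

/-- **Polytopes near the whole boundary.** -/
theorem poly_near (I : Finset (E × ℝ)) (hKc : IsCompact (Po I)) (hi : (interior (Po I)).Nonempty)
    (N : ℕ → ℕ) (hN1 : ∀ j, 1 ≤ N j) (hN : ∀ j < finrank ℝ E, Up (N j) j) :
    ∃ ρ : ℝ, 0 < ρ ∧ ∀ o ∈ interior (Po I), ∀ y ∈ frontier (Po I), dist o y < ρ →
      ∃ k, k < finrank ℝ E ∧ Sepd (N k + N (finrank ℝ E - 1 - k)) (Po I) o := by
  refine uniform hKc _ fun o' ho' => ?_
  obtain ⟨e, L, R, r, ε, h, hint⟩ := poly_sit I hKc hi ho'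
  obtain ⟨ρ, hρ, h1⟩ := near_up h hint N hN1 hN
  have he0 : e ≠ 0 := by
    rintro rfl
    have := h.nrm
    simp at this
  have hf := finrank_MM he0 (fun l hl => h.perp hl)
  exact ⟨ρ, hρ, fun o ho hd => ⟨finrank ℝ L, by omega, h1 o ho hd⟩⟩

end Pool.Agent.N321.NB
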