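import Pool.Agent.N321.NB.Blow

set_option autoImplicit false
set_option linter.unusedSectionVars false

/-!
# Blow-ups at vertices of arbitrary convex bodies
-/

namespace Pool.Agent.N321.NB

open scoped InnerProductSpace Topology
open Metric Module Filter Set
open Pool.Agent.R753.SJ (Sepd strict_of_int)

variable {E : Type} [NormedAddCommGroup E] [InnerProductSpace ℝ E] [FiniteDimensional ℝ E]

/-- linear images -/
lemma sepd_lin {K : Set E} {o : E} (A B : E →ₗ[ℝ] E) (hAB : ∀ x, A (B x) = x)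
    (hBA : ∀ x, B (A x) = x) (hA : ∀ x y, ⟪A x, y⟫_ℝ = ⟪x, A y⟫_ℝ)
    (hB : ∀ x y, ⟪B x, y⟫_ℝ = ⟪x, B y⟫_ℝ) {n : ℕ} (h : Sepd n {x | o + A x ∈ K} 0) :
    Sepd n K o := by
  classical
  obtain ⟨H, hc, hn, hH⟩ := h
  refine ⟨H.image fun h => (B h.1, h.2 + ⟪B h.1, o⟫_ℝ), Finset.card_image_le.trans hc, ?_, ?_⟩
  · intro p hp
    obtain ⟨h, hh, rfl⟩ := Finset.mem_image.1 hp
    intro h0
    simp only at h0
    apply hn h hh
    rw [← hAB h.1, h0, map_zero]
  · intro u x₀ hu hx₀ hmax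
    have hin : ∀ y : E, ⟪A u, B (y - o)⟫_ℝ = ⟪u, y⟫_ℝ - ⟪u, o⟫_ℝ := by
      intro y
      rw [hA, hAB, inner_sub_right]
    obtain ⟨h, hh, h1, h2⟩ := hH (A u) (B (x₀ - o)) (fun h0 => hu (by rw [← hBA u, h0, map_zero]))
      (by show o + A (B (x₀ - o)) ∈ K; rwa [hAB, add_sub_cancel]) (fun y hy => by
        rw [hin, hA]
        have h3 := hmax _ hy
        rw [inner_add_right] at h3
        linarith)
    rw [inner_zero_right] at h1
    refine ⟨_, Finset.mem_image_of_mem _ hh, ?_, ?_⟩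
    · simp only
      linarith
    · intro x hx hxu
      have h3 := h2 (B (x - o)) (by show o + A (B (x - o)) ∈ K; rwa [hAB, add_sub_cancel])
        (by rw [hin, hin, hxu])
      simp only
      rw [← hB, inner_sub_right] at h3
      linarith

lemma aff_combo (p x z : E) (t : ℝ) {a b : ℝ} (hab : a + b = 1) :
    p + t • (a • x + b • z) = a • (p + t • x) + b • (p + t • z) := by
  rw [smul_add, smul_add, smul_add, smul_comm t a, smul_comm t b]
  have : p = a • p + b • p := by rw [← add_smul, hab, one_smul]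
  nth_rewrite 1 [this]
  abel

/-- the directions -/
def Pn (K : Set E) (y : E) : Set E := {v | ∃ s : ℝ, 0 < s ∧ y + s • v ∈ K}

/-- the tangent cone -/
def Tc (K : Set E) (y : E) : Set E := closure (Pn K y)

lemma ray_mem {K : Set E} (hK : Convex ℝ K) {y : E} (hy : y ∈ K) {v : E} {s t : ℝ} (ht : 0 ≤ t)
    (hts : t ≤ s) (h : y + s • v ∈ K) : y + t • v ∈ K := by
  rcases ht.eq_or_lt with rfl | ht0
  · simpa using hy
  have hs : 0 < s := by linarith
  have h1 := hK hy h (a := 1 - t / s) (b := t / s) (by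
    rw [sub_nonneg, div_le_one hs]; exact hts) (by positivity) (by ring)
  convert h1 using 1
  rw [smul_add, smul_smul, div_mul_cancel₀ _ hs.ne', sub_smul, one_smul]
  abel

lemma ray_int {K : Set E} (hK : Convex ℝ K) {y : E} (hy : y ∈ K) {v : E} {s t : ℝ} (ht : 0 < t)
    (hts : t ≤ s) (h : y + s • v ∈ interior K) : y + t • v ∈ interior K := by
  have hs : 0 < s := by linarith
  have h1 := hK.combo_self_interior_mem_interior hy h (a := 1 - t / s) (b := t / s) (by
    rw [sub_nonneg, div_le_one hs]; exact hts) (by positivity) (by ring)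
  convert h1 using 1
  rw [smul_add, smul_smul, div_mul_cancel₀ _ hs.ne', sub_smul, one_smul]
  abel

lemma Pn_convex {K : Set E} (hK : Convex ℝ K) {y : E} (hy : y ∈ K) : Convex ℝ (Pn K y) := by
  rintro v ⟨s, hs, hv⟩ w ⟨t, ht, hw⟩ a b ha hb hab
  refine ⟨min s t, lt_min hs ht, ?_⟩
  have h1 := ray_mem hK hy (lt_min hs ht).le (min_le_left s t) hv
  have h2 := ray_mem hK hy (lt_min hs ht).le (min_le_right s t) hw
  have h3 := hK h1 h2 ha hb hab
  convert h3 using 1
  rw [smul_add, smul_add, smul_add, smul_comm a, smul_comm b]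
  have : y = a • y + b • y := by rw [← add_smul, hab, one_smul]
  nth_rewrite 1 [this]
  abel

lemma Tc_convex {K : Set E} (hK : Convex ℝ K) {y : E} (hy : y ∈ K) : Convex ℝ (Tc K y) :=
  (Pn_convex hK hy).closure

lemma Pn_smul {K : Set E} {y : E} {v : E} (hv : v ∈ Pn K y) {c : ℝ} (hc : 0 < c) :
    c • v ∈ Pn K y := by
  obtain ⟨s, hs, h⟩ := hv
  refine ⟨s / c, by positivity, ?_⟩
  rwa [smul_smul, div_mul_cancel₀ _ hc.ne']

lemma Tc_smul {K : Set E} {y : E} {v : E} (hv : v ∈ Tc K y) {c : ℝ} (hc : 0 < c) :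
    c • v ∈ Tc K y := by
  have h1 : Continuous fun v : E => c • v := by fun_prop
  exact map_mem_closure h1 hv fun v hv => Pn_smul hv hc

lemma Tc_zero {K : Set E} {y : E} (hy : y ∈ K) : (0 : E) ∈ Tc K y :=
  subset_closure ⟨1, one_pos, by simpa using hy⟩

/-- pointedness -/
lemma Tc_pointed {K : Set E} {y e : E} {c : ℝ}
    (hcK : ∀ x ∈ K, c * ‖x - y‖ ≤ ⟪e, x - y⟫_ℝ) {v : E} (hv : v ∈ Tc K y) :
    c * ‖v‖ ≤ ⟪e, v⟫_ℝ := by
  have hcl : IsClosed {v : E | c * ‖v‖ ≤ ⟪e, v⟫_ℝ} :=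
    isClosed_le (by fun_prop) (by fun_prop)
  refine closure_minimal ?_ hcl hv
  rintro v ⟨s, hs, h⟩
  have h1 := hcK _ h
  rw [add_sub_cancel_left, norm_smul, real_inner_smul_right, Real.norm_eq_abs, abs_of_pos hs] at h1
  have h2 : s * (c * ‖v‖) ≤ s * ⟪e, v⟫_ℝ := by linarith
  exact le_of_mul_le_mul_left h2 hs

/-- the interior of the tangent cone -/
lemma Tc_int {K : Set E} (hK : Convex ℝ K) {y : E} (hy : y ∈ K) (hne : (interior K).Nonempty)
    {v : E} : v ∈ interior (Tc K y) ↔ ∃ s : ℝ, 0 < s ∧ y + s • v ∈ interior K := by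
  set P' : Set E := {v | ∃ s : ℝ, 0 < s ∧ y + s • v ∈ interior K} with hP'
  have hopen : IsOpen P' := by
    have : P' = ⋃ s ∈ Ioi (0 : ℝ), (fun v : E => y + s • v) ⁻¹' interior K := by
      ext v
      simp [hP']
    rw [this]
    exact isOpen_biUnion fun s _ => isOpen_interior.preimage (by fun_prop)
  have hconv : Convex ℝ P' := by
    rintro v ⟨s, hs, hv⟩ w ⟨t, ht, hw⟩ a b ha hb hab
    refine ⟨min s t, lt_min hs ht, ?_⟩
    have h1 := ray_int hK hy (lt_min hs ht) (min_le_left s t) hv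
    have h2 := ray_int hK hy (lt_min hs ht) (min_le_right s t) hw
    have h3 := hK.interior h1 h2 ha hb hab
    convert h3 using 1
    rw [smul_add, smul_add, smul_add, smul_comm a, smul_comm b]
    have : y = a • y + b • y := by rw [← add_smul, hab, one_smul]
    nth_rewrite 1 [this]
    abel
  have hsub : P' ⊆ Pn K y := fun v ⟨s, hs, h⟩ => ⟨s, hs, interior_subset h⟩
  have hsub2 : Pn K y ⊆ closure P' := by
    rintro v ⟨s, hs, h⟩
    have h1 : y + s • v ∈ closure (interior K) := by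
      rw [hK.closure_interior_eq_closure_of_nonempty_interior hne]
      exact subset_closure h
    have h2 : Continuous fun x : E => s⁻¹ • (x - y) := by fun_prop
    have h3 := map_mem_closure h2 h1 (t := P') (fun x hx => ⟨s, hs, by
      rw [smul_smul, mul_inv_cancel₀ hs.ne', one_smul, add_sub_cancel]; exact hx⟩)
    rwa [add_sub_cancel_left, smul_smul, inv_mul_cancel₀ hs.ne', one_smul] at h3
  have hcl : Tc K y = closure P' :=
    Subset.antisymm (closure_minimal hsub2 isClosed_closure) (closure_mono hsub)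
  have hne' : (interior P').Nonempty := by
    obtain ⟨p, hp⟩ := hne
    rw [hopen.interior_eq]
    exact ⟨p - y, 1, one_pos, by rw [one_smul, add_sub_cancel]; exact hp⟩
  rw [hcl, hconv.interior_closure_eq_interior_of_nonempty_interior hne', hopen.interior_eq]
  rfl

lemma inner_orth {e : E} (g : (Submodule.span ℝ {e})ᗮ) : ⟪e, (g : E)⟫_ℝ = 0 :=
  Submodule.mem_orthogonal_singleton_iff_inner_right.1 g.2

lemma Sl_Tc_compact {K : Set E} {y e : E} {c : ℝ} (hc : 0 < c)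
    (hcK : ∀ x ∈ K, c * ‖x - y‖ ≤ ⟪e, x - y⟫_ℝ) (w : E) :
    IsCompact (Sl (Tc K y) w (Submodule.span ℝ {e})ᗮ) := by
  refine Metric.isCompact_of_isClosed_isBounded ?_ ?_
  · exact isClosed_closure.preimage (by fun_prop :
      Continuous fun g : (Submodule.span ℝ {e})ᗮ => w + (g : E))
  · rw [isBounded_iff_forall_norm_le]
    refine ⟨⟪e, w⟫_ℝ / c + ‖w‖, fun g hg => ?_⟩
    have h1 : c * ‖w + (g : E)‖ ≤ ⟪e, w + (g : E)⟫_ℝ := Tc_pointed hcK hg
    rw [inner_add_right, inner_orth, add_zero] at h1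
    have h2 : ‖w + (g : E)‖ ≤ ⟪e, w⟫_ℝ / c := by
      rw [le_div_iff₀ hc]; linarith
    have h3 : ‖(g : E)‖ ≤ ‖w + (g : E)‖ + ‖w‖ := by
      have := norm_sub_le (w + (g : E)) w
      rwa [add_sub_cancel_left] at this
    show ‖(g : E)‖ ≤ _
    linarith

/-- the faces of the tangent cone -/
theorem Tc_faces {K : Set E} {y e : E} {c : ℝ} (hc : 0 < c) (he : ‖e‖ = 1)
    (hcK : ∀ x ∈ K, c * ‖x - y‖ ≤ ⟪e, x - y⟫_ℝ) {w : E} (hw : w ∈ Tc K y) (hκ : 0 < ⟪e, w⟫_ℝ)
    (H : Finset ((Submodule.span ℝ {e})ᗮ × ℝ)) (hHn : H.Nonempty)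
    (hH : ∀ u x₀ : (Submodule.span ℝ {e})ᗮ, u ≠ 0 → x₀ ∈ Sl (Tc K y) w (Submodule.span ℝ {e})ᗮ →
      (∀ y' ∈ Sl (Tc K y) w (Submodule.span ℝ {e})ᗮ, ⟪u, y'⟫_ℝ ≤ ⟪u, x₀⟫_ℝ) →
      ∃ g ∈ H, ∀ x ∈ Sl (Tc K y) w (Submodule.span ℝ {e})ᗮ, ⟪u, x⟫_ℝ = ⟪u, x₀⟫_ℝ →
        g.2 < ⟪g.1, x⟫_ℝ)
    {u : E} (hu : u ≠ 0) (hmax : ∀ v ∈ Tc K y, ⟪u, v⟫_ℝ ≤ 0) :
    ∃ g ∈ H, ∀ v ∈ Tc K y, ⟪u, v⟫_ℝ = 0 → v ≠ 0 →
      0 < ⟪(g.1 : E) - ((g.2 + ⟪(g.1 : E), w⟫_ℝ) / ⟪e, w⟫_ℝ) • e, v⟫_ℝ := by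
  classical
  have hee : ⟪e, e⟫_ℝ = 1 := by rw [real_inner_self_eq_norm_sq, he]; norm_num
  have hpos : ∀ v ∈ Tc K y, v ≠ 0 → 0 < ⟪e, v⟫_ℝ := by
    intro v hv hv0
    have h1 := Tc_pointed hcK hv
    have h2 : 0 < ‖v‖ := norm_pos_iff.2 hv0
    have h3 : 0 < c * ‖v‖ := by positivity
    linarith
  set uM : E := u - ⟪u, e⟫_ℝ • e with huM
  have huMm : uM ∈ (Submodule.span ℝ {e})ᗮ := by
    rw [Submodule.mem_orthogonal_singleton_iff_inner_right, huM, inner_sub_right,
      real_inner_smul_right, hee, real_inner_comm]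
    ring
  have huMi : ∀ m : (Submodule.span ℝ {e})ᗮ, ⟪uM, (m : E)⟫_ℝ = ⟪u, (m : E)⟫_ℝ := by
    intro m
    rw [huM, inner_sub_left, real_inner_smul_left, inner_orth]
    ring
  by_cases h0 : uM = 0
  · obtain ⟨g, hg⟩ := hHn
    refine ⟨g, hg, fun v hv hvu hv0 => ?_⟩
    exfalso
    have h1 : u = ⟪u, e⟫_ℝ • e := sub_eq_zero.1 h0
    have h2 : ⟪u, e⟫_ℝ ≠ 0 := by
      intro h3
      rw [h3, zero_smul] at h1
      exact hu h1
    rw [h1, real_inner_smul_left] at hvu
    have h3 := hpos v hv hv0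
    rcases mul_eq_zero.1 hvu with h4 | h4
    · exact h2 h4
    · linarith
  · have hcomp := Sl_Tc_compact hc hcK w
    have h0S : (0 : (Submodule.span ℝ {e})ᗮ) ∈ Sl (Tc K y) w (Submodule.span ℝ {e})ᗮ := by
      show w + ((0 : (Submodule.span ℝ {e})ᗮ) : E) ∈ Tc K y
      rw [Submodule.coe_zero, add_zero]
      exact hw
    have hne : (⟨uM, huMm⟩ : (Submodule.span ℝ {e})ᗮ) ≠ 0 := by
      intro h1
      exact h0 (congrArg Subtype.val h1)
    obtain ⟨m₀, hm₀, hm₀m⟩ := hcomp.exists_isMaxOn ⟨0, h0S⟩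
      (f := fun y' => ⟪(⟨uM, huMm⟩ : (Submodule.span ℝ {e})ᗮ), y'⟫_ℝ) (by fun_prop)
    obtain ⟨g, hg, hgs⟩ := hH ⟨uM, huMm⟩ m₀ hne hm₀ (fun y' hy' => hm₀m hy')
    refine ⟨g, hg, fun v hv hvu hv0 => ?_⟩
    have hv1 := hpos v hv hv0
    set a : ℝ := ⟪e, w⟫_ℝ / ⟪e, v⟫_ℝ with ha
    have hapos : 0 < a := by positivity
    have hav : a * ⟪e, v⟫_ℝ = ⟪e, w⟫_ℝ := div_mul_cancel₀ _ hv1.ne'
    have hm'm : a • v - w ∈ (Submodule.span ℝ {e})ᗮ := by
      rw [Submodule.mem_orthogonal_singleton_iff_inner_right, inner_sub_right,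
        real_inner_smul_right, hav, sub_self]
    have hsec : (⟨a • v - w, hm'm⟩ : (Submodule.span ℝ {e})ᗮ) ∈
        Sl (Tc K y) w (Submodule.span ℝ {e})ᗮ := by
      show w + (a • v - w) ∈ Tc K y
      rw [add_sub_cancel]
      exact Tc_smul hv hapos
    have heq : ⟪(⟨uM, huMm⟩ : (Submodule.span ℝ {e})ᗮ),
        (⟨a • v - w, hm'm⟩ : (Submodule.span ℝ {e})ᗮ)⟫_ℝ =
        ⟪(⟨uM, huMm⟩ : (Submodule.span ℝ {e})ᗮ), m₀⟫_ℝ := by
      refine le_antisymm (hm₀m hsec) ?_
      rw [Submodule.coe_inner, Submodule.coe_inner]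
      show ⟪uM, (m₀ : E)⟫_ℝ ≤
        ⟪uM, ((⟨a • v - w, hm'm⟩ : (Submodule.span ℝ {e})ᗮ) : E)⟫_ℝ
      rw [huMi, huMi]
      show ⟪u, (m₀ : E)⟫_ℝ ≤ ⟪u, a • v - w⟫_ℝ
      have h3 := hmax _ hm₀
      rw [inner_add_right] at h3
      rw [inner_sub_right, real_inner_smul_right, hvu]
      linarith
    have h1 := hgs _ hsec heq
    rw [Submodule.coe_inner] at h1
    have h2 : g.2 < ⟪(g.1 : E), a • v - w⟫_ℝ := h1
    rw [inner_sub_right, real_inner_smul_right] at h2
    rw [inner_sub_left, real_inner_smul_left]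
    have h4 : (g.2 + ⟪(g.1 : E), w⟫_ℝ) / ⟪e, w⟫_ℝ * ⟪e, v⟫_ℝ < ⟪(g.1 : E), v⟫_ℝ := by
      rw [div_mul_eq_mul_div, div_lt_iff₀ hκ]
      have h5 : g.2 + ⟪(g.1 : E), w⟫_ℝ < a * ⟪(g.1 : E), v⟫_ℝ := by linarith
      have h6 := mul_lt_mul_of_pos_right h5 hv1
      have h7 : a * ⟪(g.1 : E), v⟫_ℝ * ⟪e, v⟫_ℝ = ⟪(g.1 : E), v⟫_ℝ * ⟪e, w⟫_ℝ := by
        rw [← hav]; ring
      linarith
    linarith

/-- **Vertices.** -/
theorem vertex {K : Set E} (hK : Convex ℝ K) {y e : E} {c : ℝ} (hy : y ∈ K)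
    (hne : (interior K).Nonempty) (hc : 0 < c) (he : ‖e‖ = 1)
    (hcK : ∀ x ∈ K, c * ‖x - y‖ ≤ ⟪e, x - y⟫_ℝ) {w : E} (hw : w ∈ interior (Tc K y)) {n : ℕ}
    (hn : 1 ≤ n) (hs : Sepd n (Sl (Tc K y) w (Submodule.span ℝ {e})ᗮ) 0) :
    ∃ ρ : ℝ, 0 < ρ ∧ ∀ (t : ℝ) (w' : E), 0 < t → t < ρ → dist w' w < ρ →
      y + t • w' ∈ interior K ∧ Sepd (n + 1) K (y + t • w') := by
  classical
  have he0 : e ≠ 0 := by rintro rfl; simp at he
  have hee : ⟪e, e⟫_ℝ = 1 := by rw [real_inner_self_eq_norm_sq, he]; norm_num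
  obtain ⟨s₀, hs₀, hws⟩ := (Tc_int hK hy hne).1 hw
  have hwT : w ∈ Tc K y := interior_subset hw
  -- interior points
  have hint : ∀ z ∈ interior (Tc K y), ∃ ρ : ℝ, 0 < ρ ∧ ∀ (t : ℝ) (z' : E), 0 < t → t < ρ →
      dist z' z < ρ → y + t • z' ∈ interior K := by
    intro z hz
    obtain ⟨s, hs, hzs⟩ := (Tc_int hK hy hne).1 hz
    have hcont : Continuous fun z : E => y + s • z := by fun_prop
    obtain ⟨ρ, hρ, hρz⟩ := Metric.eventually_nhds_iff.1
      (hcont.continuousAt.eventually (isOpen_interior.mem_nhds hzs))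
    refine ⟨min ρ s, lt_min hρ hs, fun t z' ht htρ hd => ?_⟩
    exact ray_int hK hy ht (htρ.le.trans (min_le_right _ _)) (hρz (hd.trans_le (min_le_left _ _)))
  have hκ : 0 < ⟪e, w⟫_ℝ := by
    have h1 := strict_of_int (K := Tc K y) (o' := 0) (e := e) (o := w) he0 (fun x hx => by
      rw [sub_zero]
      exact (by positivity : 0 ≤ c * ‖x‖).trans (Tc_pointed hcK hx)) hw
    rwa [sub_zero] at h1
  obtain ⟨H, hHc, hHn, hHp, hH⟩ := pos_finset hn hs
  set G : (Submodule.span ℝ {e})ᗮ × ℝ → E := fun g =>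
    (g.1 : E) - ((g.2 + ⟪(g.1 : E), w⟫_ℝ) / ⟪e, w⟫_ℝ) • e with hG
  have hGw : ∀ g, ⟪G g, w⟫_ℝ = -g.2 := by
    intro g
    rw [hG]
    simp only
    rw [inner_sub_left, real_inner_smul_left, div_mul_cancel₀ _ hκ.ne']
    ring
  have hG0 : ∀ g ∈ H, G g ≠ 0 := by
    intro g hg h0
    have h1 := hGw g
    rw [h0, inner_zero_left] at h1
    have := hHp g hg
    linarith
  set C : Set E := {x | w + x ∈ Tc K y} with hC
  have hCv : Convex ℝ C := by
    intro x hx z hz a b ha hb hab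
    show w + (a • x + b • z) ∈ Tc K y
    have h1 := Tc_convex hK hy hx hz ha hb hab
    convert h1 using 1
    rw [smul_add, smul_add]
    have : w = a • w + b • w := by rw [← add_smul, hab, one_smul]
    nth_rewrite 1 [this]
    abel
  have hCint : ∀ z ∈ interior C, w + z ∈ interior (Tc K y) := by
    intro z hz
    have h1 : interior C = (fun x => w + x) ⁻¹' interior (Tc K y) :=
      ((Homeomorph.addLeft w).preimage_interior (Tc K y)).symm
    rw [h1] at hz
    exact hz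
  have h0C : (0 : E) ∈ interior C := by
    have h1 : interior C = (fun x => w + x) ⁻¹' interior (Tc K y) :=
      ((Homeomorph.addLeft w).preimage_interior (Tc K y)).symm
    rw [h1]
    show w + 0 ∈ interior (Tc K y)
    rwa [add_zero]
  by_contra hcon
  push Not at hcon
  obtain ⟨ρ₀, hρ₀, hwint⟩ := hint w hw
  choose t w' ht htρ hd hbad using fun k : ℕ => hcon (min ρ₀ (1 / ((k : ℝ) + 1)))
    (lt_min hρ₀ (by positivity))
  have htl : Tendsto t atTop (𝓝 0) := by
    refine squeeze_zero (fun k => (ht k).le) (fun k => (htρ k).le.trans (min_le_right _ _)) ?_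
    exact tendsto_one_div_add_atTop_nhds_zero_nat
  have hwl : Tendsto w' atTop (𝓝 w) := by
    rw [tendsto_iff_dist_tendsto_zero]
    refine squeeze_zero (fun k => dist_nonneg) (fun k => (hd k).le.trans (min_le_right _ _)) ?_
    exact tendsto_one_div_add_atTop_nhds_zero_nat
  have hwint' : ∀ k, y + t k • w' k ∈ interior K := fun k =>
    hwint _ _ (ht k) ((htρ k).trans_le (min_le_left _ _)) ((hd k).trans_le (min_le_left _ _))
  -- blow up
  set Kk : ℕ → Set E := fun k => {x | (y + t k • w' k) + t k • x ∈ K} with hKk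
  have hmem : ∀ k x, x ∈ Kk k ↔ y + t k • (w' k + x) ∈ K := by
    intro k x
    rw [hKk, smul_add, ← add_assoc]
    rfl
  have hLc : Lc C e 1 Kk := by
    refine ⟨fun k => ?_, fun z hz => ?_, fun φ x a hφ hx hxa => ?_, ?_⟩
    · intro x hx z hz a b ha hb hab
      have h1 := hK hx hz ha hb hab
      show (y + t k • w' k) + t k • (a • x + b • z) ∈ K
      rwa [← aff_combo _ x z (t k) hab] at h1
    · obtain ⟨ρ, hρ, h1⟩ := hint _ (hCint z hz)
      have h2 : Tendsto (fun k => w' k + z) atTop (𝓝 (w + z)) := hwl.add_const z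
      filter_upwards [htl.eventually_lt_const hρ, (Metric.tendsto_nhds.1 h2 ρ hρ)] with k hk1 hk2
      rw [hmem]
      exact interior_subset (h1 _ _ (ht k) hk1 hk2)
    · have h1 : Tendsto (fun k => w' (φ k) + x k) atTop (𝓝 (w + a)) :=
        (hwl.comp hφ.tendsto_atTop).add hxa
      refine isClosed_closure.mem_of_tendsto h1 (Eventually.of_forall fun k => subset_closure ?_)
      exact ⟨t (φ k), ht _, (hmem _ _).1 (hx k)⟩
    · refine ⟨(‖w‖ + 2) / c + (‖w‖ + 1), ?_⟩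
      have h2 : ∀ᶠ k in atTop, ‖w' k‖ < ‖w‖ + 1 :=
        hwl.norm.eventually_lt_const (by linarith)
      filter_upwards [h2] with k hk x hx hxe
      rw [hmem] at hx
      have h3 := hcK _ hx
      rw [add_sub_cancel_left, norm_smul, real_inner_smul_right, Real.norm_eq_abs,
        abs_of_pos (ht k)] at h3
      have h4 : c * ‖w' k + x‖ ≤ ⟪e, w' k + x⟫_ℝ := by
        refine le_of_mul_le_mul_left (a := t k) ?_ (ht k)
        linarith
      have h5 : ⟪e, w' k⟫_ℝ ≤ ‖w' k‖ := by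
        have := real_inner_le_norm e (w' k)
        rwa [he, one_mul] at this
      rw [inner_add_right] at h4
      have h6 : ‖w' k + x‖ ≤ (‖w‖ + 2) / c := by
        rw [le_div_iff₀ hc]
        linarith
      have h7 : ‖x‖ ≤ ‖w' k + x‖ + ‖w' k‖ := by
        have := norm_sub_le (w' k + x) (w' k)
        rwa [add_sub_cancel_left] at this
      linarith
  have hbl := blow hCv h0C (H.image fun g => (G g, g.2 / 2)) (e := e) (κ := 1)
    (fun u q hu hq hmax _ => by
      have hTmax : ∀ v ∈ Tc K y, ⟪u, v⟫_ℝ ≤ ⟪u, w + q⟫_ℝ := by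
        intro v hv
        have h1 := hmax (v - w) (by show w + (v - w) ∈ Tc K y; rwa [add_sub_cancel])
        rw [inner_sub_right] at h1
        rw [inner_add_right]
        linarith
      have hq0 : ⟪u, w + q⟫_ℝ = 0 := by
        have h1 := hTmax 0 (Tc_zero hy)
        rw [inner_zero_right] at h1
        have h2 := hTmax _ (Tc_smul hq two_pos)
        rw [real_inner_smul_right] at h2
        linarith
      obtain ⟨g, hg, hgs⟩ := Tc_faces hc he hcK hwT hκ H hHn hH hu (fun v hv => by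
        rw [← hq0]; exact hTmax v hv)
      refine ⟨_, Finset.mem_image_of_mem _ hg, fun x hx hxu => ?_, fun d hd0 hd hud => ?_⟩
      · simp only
        have h1 : ⟪u, w + x⟫_ℝ = 0 := by
          rw [inner_add_right, hxu, ← inner_add_right, hq0]
        have h2 : 0 ≤ ⟪G g, w + x⟫_ℝ := by
          rcases eq_or_ne (w + x) 0 with h3 | h3
          · rw [h3, inner_zero_right]
          · exact (hgs _ hx h1 h3).le
        rw [inner_add_right, hGw] at h2
        have := hHp g hg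
        linarith
      · simp only
        refine hgs d ?_ hud hd0
        -- `d` is a direction of the cone
        have h1 : Tendsto (fun k : ℕ => ((k : ℝ) + 1)⁻¹ • w + d) atTop (𝓝 ((0 : ℝ) • w + d)) := by
          refine (Tendsto.smul_const ?_ w).add_const d
          have := tendsto_one_div_add_atTop_nhds_zero_nat (𝕜 := ℝ)
          simpa [one_div] using this
        rw [zero_smul, zero_add] at h1
        refine isClosed_closure.mem_of_tendsto h1 (Eventually.of_forall fun k => ?_)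
        have h2 : w + ((k : ℝ) + 1) • d ∈ Tc K y := hd _ (by positivity)
        have h3 := Tc_smul h2 (c := ((k : ℝ) + 1)⁻¹) (by positivity)
        rwa [smul_add, smul_smul, inv_mul_cancel₀ (by positivity), one_smul] at h3) hLc
  obtain ⟨k, hk⟩ := hbl.exists
  refine hbad k (hwint' k) ?_
  refine sepd_lin (t k • LinearMap.id) ((t k)⁻¹ • LinearMap.id) (fun x => ?_) (fun x => ?_)
    (fun x z => ?_) (fun x z => ?_) ?_
  · simp [smul_smul, (ht k).ne']
  · simp [smul_smul, (ht k).ne']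
  · simp [real_inner_smul_left, real_inner_smul_right]
  · simp [real_inner_smul_left, real_inner_smul_right]
  · refine ⟨(H.image fun g => (G g, g.2 / 2)) ∪ {(e, 1)}, ?_, ?_, ?_⟩
    · refine (Finset.card_union_le _ _).trans (add_le_add (Finset.card_image_le.trans hHc) ?_)
      simp
    · intro p hp
      rcases Finset.mem_union.1 hp with hp | hp
      · obtain ⟨g, hg, rfl⟩ := Finset.mem_image.1 hp
        exact hG0 g hg
      · rw [Finset.mem_singleton.1 hp]
        exact he0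
    · intro u x₀ hu hx₀ hmax
      rcases hk u x₀ hu hx₀ hmax with h1 | ⟨h, hh, h1⟩
      · exact ⟨(e, 1), Finset.mem_union_right _ (Finset.mem_singleton_self _), by simp, h1⟩
      · refine ⟨h, Finset.mem_union_left _ hh, ?_, h1⟩
        obtain ⟨g, hg, rfl⟩ := Finset.mem_image.1 hh
        rw [inner_zero_right]
        exact half_pos (hHp g hg)

end Pool.Agent.N321.NB
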